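import Pool.Agent.SprF.Defs

/-!
# `X` is strictly upper triangular, `vB, wB ∈ S_X`   (MP_3a0658_ag, module SPR_Pts)
-/

set_option autoImplicit false

open Matrix

namespace Pool.Agent.SprF

open Pool.Agent.SprJ hiding S_Lay S_Tr S_An S_Cur S_Pts

section

variable {K : Type*} [Field K] {n : ℕ}

lemma pts_det_perm_isUnit (w : Equiv.Perm (Fin n)) : IsUnit (perm K w).det := by
  have : perm K w = (w.symm.toPEquiv.toMatrix : Matrix (Fin n) (Fin n) K) := by
    ext i k
    simp only [perm, Matrix.of_apply, PEquiv.toMatrix_apply, Equiv.toPEquiv_apply,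
      Option.mem_def, Option.some.injEq]
    congr 1
    rw [eq_iff_iff]
    constructor
    · rintro rfl; simp
    · rintro h; rw [← h]; simp
  rw [this, Matrix.det_permutation]
  exact (Units.isUnit _).map (Int.castRingHom K)

/-- sufficient: `X g = g Y` with `Y` upper triangular -/
lemma pts_inSpringer_of_mul {X g Y : Matrix (Fin n) (Fin n) K} (hg : IsUnit g.det)
    (h : X * g = g * Y) (hY : UT Y) : InSpringer X g := by
  have h1 : g⁻¹ * X * g = Y := by
    rw [Matrix.mul_assoc, h, ← Matrix.mul_assoc, Matrix.nonsing_inv_mul _ hg, Matrix.one_mul]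
  unfold InSpringer
  rw [h1]
  exact hY

end

section

variable {I C : Type} [DecidableEq I] [DecidableEq C]
  {sY sZ : I → C → Prop} {Sg : I → I → Prop} {m₂ m₁ : ℕ} {V : LevF sY sZ Sg m₂ m₁} {n : ℕ}

lemma pts_XL_ne_zero {K : Type} [Field K] {m : ℕ} {l k : Lab m I C}
    (h : XL K m I C l k ≠ 0) : (l.1 : ℕ) + 1 = (k.1 : ℕ) ∧ l.2 = k.2 := by
  by_contra hc
  exact h (by simp only [XL]; rw [if_neg hc])

lemma pts_jordan (L : LayF V n) {r : ℕ} (tb : Lb I C ≃ Fin r) (K : Type) [Field K] (i j : Fin n) :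
    jordan K (L.eps tb) i j = XL K (m₂ + m₁) I C (L.idx.symm i) (L.idx.symm j) := by
  simp only [jordan, Matrix.of_apply, XL, LayF.eps, Equiv.symm_trans_apply,
    Equiv.prodCongr_symm, Equiv.refl_symm, Equiv.symm_symm, Equiv.prodCongr_apply, Prod.map_fst,
    Prod.map_snd, Equiv.refl_apply, EmbeddingLike.apply_eq_iff_eq]

omit [DecidableEq I] [DecidableEq C] in
/-- the type is `true` on the lower levels -/
lemma pts_ty {m : ℕ} {t t' : Fin m} (h : (t : ℕ) < (t' : ℕ)) (h' : ty m₂ t' = true) :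
    ty m₂ t = true := by
  simp only [ty, decide_eq_true_eq] at h' ⊢
  omega

omit [DecidableEq I] [DecidableEq C] in
/-- the order `pos` if the lower label is early or the upper label is late -/
lemma pts_pos (L : LayF V n) {l k : Lab (m₂ + m₁) I C} (h : (l.1 : ℕ) < (k.1 : ℕ))
    (he : early m₂ k → early m₂ l) : L.pos l < L.pos k := by
  by_cases hk : early m₂ k
  · exact L.p2 l k ⟨fun _ => hk, fun _ => he hk⟩ h
  · by_cases hl : early m₂ l
    · exact L.p1 l k hl hk
    · exact L.p2 l k ⟨fun h' => absurd h' hl, fun h' => absurd h' hk⟩ h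

/-- `XL` is strictly upper triangular in the position order -/
lemma pts_XL_pos (L : LayF V n) (K : Type) [Field K] (l k : Lab (m₂ + m₁) I C)
    (hlk : L.pos k < L.pos l) : XL K (m₂ + m₁) I C l k = 0 := by
  by_contra h
  obtain ⟨h1, h2⟩ := pts_XL_ne_zero h
  have hlt : (l.1 : ℕ) < (k.1 : ℕ) := by omega
  refine absurd (pts_pos L hlt ?_) (not_lt.2 hlk.le)
  unfold early
  rw [h2]
  cases hk : ty m₂ k.1
  · cases hl : ty m₂ l.1
    · exact id
    · cases k.2 <;> simp [piv]
  · rw [pts_ty hlt hk]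
    exact id

/-- the same after relabelling by the involution -/
lemma pts_XL_pos_sig (L : LayF V n) (K : Type) [Field K] (l k : Lab (m₂ + m₁) I C)
    (hlk : L.pos k < L.pos l) : XL K (m₂ + m₁) I C (sig m₂ l) (sig m₂ k) = 0 := by
  by_contra h
  obtain ⟨h1, h2⟩ := pts_XL_ne_zero h
  have hlt : (l.1 : ℕ) < (k.1 : ℕ) := by
    have : ((sig m₂ l).1 : ℕ) + 1 = ((sig m₂ k).1 : ℕ) := h1
    have e1 : (sig m₂ l).1 = l.1 := rfl
    have e2 : (sig m₂ k).1 = k.1 := rfl
    rw [e1, e2] at this
    omega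
  have h3 : sg (ty m₂ l.1) l.2 = sg (ty m₂ k.1) k.2 := h2
  refine absurd (pts_pos L hlt ?_) (not_lt.2 hlk.le)
  unfold early
  cases hk : ty m₂ k.1
  · cases hl : ty m₂ l.1
    · rw [hk, hl] at h3
      have h4 := congrArg (sg false) h3
      rw [sg_sg, sg_sg] at h4
      rw [h4]
      exact id
    · rw [hk, hl] at h3
      revert h3
      cases k.2 <;> cases l.2 <;> simp [piv, sg]
  · have hl := pts_ty (m₂ := m₂) hlt hk
    rw [hk, hl] at h3
    have h4 := congrArg (sg true) h3
    rw [sg_sg, sg_sg] at h4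
    rw [hl, h4]
    exact id

end

theorem Pts : S_Pts := by
  intro I C _ _ _ _ sY sZ Sg m₂ m₁ n r V L tb K _
  refine ⟨?_, ?_, ?_, ?_⟩
  · have h1 : ∀ k, (L.w⁻¹ * L.v) k = L.pos (sig m₂ (L.pos.symm k)) := by
      intro k
      rw [Equiv.Perm.mul_apply, Equiv.Perm.inv_eq_iff_eq]
      simp [LayF.v, LayF.w, Lay.sigE]
    ext k
    rw [pow_two, Equiv.Perm.mul_apply, h1, h1, Equiv.symm_apply_apply, sig_sig,
      Equiv.apply_symm_apply]
    rfl
  · intro i j hij
    rw [pts_jordan]
    by_contra h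
    obtain ⟨h1, _⟩ := pts_XL_ne_zero h
    have h2 : L.idx (L.idx.symm i) < L.idx (L.idx.symm j) := by
      apply L.i1
      show ((L.idx.symm i).1 : ℕ) < ((L.idx.symm j).1 : ℕ)
      omega
    rw [Equiv.apply_symm_apply, Equiv.apply_symm_apply] at h2
    exact absurd h2 (not_lt.2 hij)
  · apply pts_inSpringer_of_mul (pts_det_perm_isUnit _)
      (Y := Matrix.of fun i j => XL K (m₂ + m₁) I C (sig m₂ (L.pos.symm i))
        (sig m₂ (L.pos.symm j)))
    · ext i k
      rw [Matrix.mul_apply, Matrix.mul_apply]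
      simp only [pts_jordan, perm, Matrix.of_apply, mul_ite, mul_one, mul_zero,
        ite_mul, one_mul, zero_mul]
      rw [Finset.sum_ite_eq' Finset.univ (L.v k), if_pos (Finset.mem_univ _)]
      rw [Finset.sum_eq_single (L.v⁻¹ i)]
      · simp [LayF.v, Lay.sigE, sig_sig]
      · intro j _ hj
        rw [if_neg]
        rintro rfl
        exact hj (by simp)
      · simp
    · intro i j hij
      exact pts_XL_pos_sig L K _ _ (by simpa using hij)
  · apply pts_inSpringer_of_mul (pts_det_perm_isUnit _)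
      (Y := Matrix.of fun i j => XL K (m₂ + m₁) I C (L.pos.symm i) (L.pos.symm j))
    · ext i k
      rw [Matrix.mul_apply, Matrix.mul_apply]
      simp only [pts_jordan, perm, Matrix.of_apply, mul_ite, mul_one, mul_zero,
        ite_mul, one_mul, zero_mul]
      rw [Finset.sum_ite_eq' Finset.univ (L.w k), if_pos (Finset.mem_univ _)]
      rw [Finset.sum_eq_single (L.w⁻¹ i)]
      · simp [LayF.w]
      · intro j _ hj
        rw [if_neg]
        rintro rfl
        exact hj (by simp)
      · simp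
    · intro i j hij
      exact pts_XL_pos L K _ _ (by simpa using hij)

end Pool.Agent.SprF
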