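import Pool.Agent.SprF.Tr
import Pool.Agent.SprF.Pts

/-!
# Module Cur: from a solution of the orthogonality system to the closure   (helper29)

Label matrices that are block diagonal over the levels, with one block for the levels of type 2 and
one for the levels of type 1; explicit curve through the cell with limit the permutation `v`.
-/

set_option autoImplicit false

open Matrix

namespace Pool.Agent.SprF

open Pool.Agent.SprJ hiding S_Lay S_Tr S_An S_Cur S_Pts

namespace CurAux

section general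

variable {I C : Type} [Fintype I] [Fintype C] [DecidableEq I] [DecidableEq C]
  {sY sZ : I → C → Prop} {Sg : I → I → Prop} {m₂ m₁ : ℕ}
  {V : LevF sY sZ Sg m₂ m₁} {n : ℕ}

lemma borel_of_UT {K : Type} [Field K] {b : Matrix (Fin n) (Fin n) K} (h : UT b)
    (hd : ∀ i, b i i ≠ 0) : Borel b := by
  refine ⟨h, ?_⟩
  have hbt : Matrix.BlockTriangular b id := fun i j hij => h i j hij
  have h1 : b.det = ∏ i, b i i := Matrix.det_of_isUpperTriangular hbt
  rw [h1, isUnit_iff_ne_zero, Finset.prod_ne_zero_iff]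
  exact fun i _ => hd i

/-- label matrices in the cell -/
lemma cell_of_label {K : Type} [Field K] (L : LayF V n)
    {X U B G Yp : Matrix (Lab (m₂ + m₁) I C) (Lab (m₂ + m₁) I C) K}
    (hU : ∀ a k, L.idx k < L.idx a → U a k = 0) (hUd : ∀ k, U k k ≠ 0)
    (hB : ∀ a k, L.pos k < L.pos a → B a k = 0) (hBd : ∀ k, B k k ≠ 0) (hG : U * B = G)
    (hY : ∀ a k, L.pos k < L.pos a → Yp a k = 0) (hX : X * G = G * Yp) :
    G.submatrix L.idx.symm L.pos.symm ∈ Cell (X.submatrix L.idx.symm L.idx.symm) L.w := by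
  have hb : Borel (U.submatrix L.idx.symm L.idx.symm) := by
    apply borel_of_UT
    · intro i j hij
      exact hU _ _ (by simpa using hij)
    · intro i
      exact hUd _
  have hb' : Borel (B.submatrix L.pos.symm L.pos.symm) := by
    apply borel_of_UT
    · intro i j hij
      exact hB _ _ (by simpa using hij)
    · intro i
      exact hBd _
  have hfac : G.submatrix L.idx.symm L.pos.symm = U.submatrix L.idx.symm L.idx.symm *
      perm K L.w * B.submatrix L.pos.symm L.pos.symm := by
    rw [TrAux.perm_w_eq, Matrix.submatrix_mul_equiv, Matrix.submatrix_mul_equiv, Matrix.mul_one, hG]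
  refine ⟨⟨_, _, hb, hb', hfac⟩, ?_⟩
  have hdet : IsUnit (G.submatrix L.idx.symm L.pos.symm).det := by
    rw [hfac, Matrix.det_mul, Matrix.det_mul]
    exact (hb.2.mul (TrAux.det_perm_isUnit _)).mul hb'.2
  apply pts_inSpringer_of_mul hdet (Y := Yp.submatrix L.pos.symm L.pos.symm)
  · rw [Matrix.submatrix_mul_equiv, Matrix.submatrix_mul_equiv, hX]
  · intro i j hij
    exact hY _ _ (by simpa using hij)

/-- limits of polynomial curves -/
lemma closure_of_curve {K : Type} [Field K] [Infinite K] {X : Matrix (Fin n) (Fin n) K}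
    {v w : Equiv.Perm (Fin n)} (GP : Matrix (Fin n) (Fin n) (Polynomial K))
    (h0 : GP.map (Polynomial.eval 0) = perm K v)
    (h : ∀ s : K, s ≠ 0 → GP.map (Polynomial.eval s) ∈ Cell X w) : InClosure X v w := by
  intro P hP
  set R : Polynomial K := MvPolynomial.aeval (fun p : Fin n × Fin n => GP p.1 p.2) P with hR
  have hev : ∀ s : K, Polynomial.eval s R =
      MvPolynomial.eval (fun p => (GP.map (Polynomial.eval s)) p.1 p.2) P := by
    intro s
    have h1 := MvPolynomial.comp_aeval_apply (fun p : Fin n × Fin n => GP p.1 p.2)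
      (Polynomial.aeval s : Polynomial K →ₐ[K] K) P
    rw [← hR, Polynomial.coe_aeval_eq_eval] at h1
    rw [h1, MvPolynomial.aeval_eq_eval]
    rfl
  have hR0 : R = 0 := by
    apply Polynomial.eq_zero_of_infinite_isRoot
    refine Set.Infinite.mono ?_ (Set.finite_singleton (0 : K)).infinite_compl
    intro s hs
    show Polynomial.eval s R = 0
    rw [hev]
    exact hP _ (h s (by simpa using hs))
  rw [← h0, ← hev, hR0, Polynomial.eval_zero]

omit [DecidableEq I] [DecidableEq C] in
lemma sum_Lb {M : Type*} [AddCommMonoid M] (f : Lb I C → M) :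
    ∑ q, f q = (∑ i, f (.a i) + ∑ x, f (.c x)) + (∑ i, f (.c' i) + ∑ i, f (.d i)) := by
  rw [← (Lb.equivSum I C).symm.sum_comp, Fintype.sum_sum_type, Fintype.sum_sum_type,
    Fintype.sum_sum_type]
  rfl

/-- block diagonal label matrices -/
def blk {R : Type} [Zero R] (m₂ m : ℕ) (A₂ A₁ : Lb I C → Lb I C → R) :
    Matrix (Lab m I C) (Lab m I C) R :=
  Matrix.of fun l k => if l.1 = k.1 then (if ty m₂ k.1 then A₂ l.2 k.2 else A₁ l.2 k.2) else 0

omit [DecidableEq I] [DecidableEq C] in
lemma blk_mul {R : Type} [CommRing R] (m₂ m : ℕ) {A₂ A₁ B₂ B₁ D₂ D₁ : Lb I C → Lb I C → R}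
    (h2 : ∀ p q, ∑ k, A₂ p k * B₂ k q = D₂ p q) (h1 : ∀ p q, ∑ k, A₁ p k * B₁ k q = D₁ p q) :
    blk m₂ m A₂ A₁ * blk m₂ m B₂ B₁ = blk m₂ m D₂ D₁ := by
  ext l k
  rw [Matrix.mul_apply, Fintype.sum_prod_type, Finset.sum_eq_single l.1]
  · by_cases h : l.1 = k.1
    · by_cases ht : ty m₂ k.1 = true
      · simp [blk, h, ht, ← h2]
      · simp [blk, h, ht, ← h1]
    · simp [blk, h]
  · intro t _ ht
    refine Finset.sum_eq_zero fun x _ => ?_
    simp [blk, Ne.symm ht]
  · simp

/-- the matrix of `X` on the flag: identity between levels of the same type, `R` at the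
transition -/
def shf {K : Type} [Field K] (m₂ m : ℕ) (R : Lb I C → Lb I C → K) :
    Matrix (Lab m I C) (Lab m I C) K :=
  Matrix.of fun l k => if (l.1 : ℕ) + 1 = (k.1 : ℕ) then
    (if ty m₂ l.1 = ty m₂ k.1 then (if l.2 = k.2 then 1 else 0) else R l.2 k.2) else 0

lemma XL_mul {K : Type} [Field K] (m₂ m : ℕ) {A₂ A₁ R : Lb I C → Lb I C → K}
    (h : ∀ p q, ∑ k, A₂ p k * R k q = A₁ p q) :
    XL K m I C * blk m₂ m A₂ A₁ = blk m₂ m A₂ A₁ * shf m₂ m R := by
  ext l k
  have e1 : (XL K m I C * blk m₂ m A₂ A₁) l k = if (l.1 : ℕ) + 1 = (k.1 : ℕ) then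
      (if ty m₂ k.1 then A₂ l.2 k.2 else A₁ l.2 k.2) else 0 := by
    rw [Matrix.mul_apply, Fintype.sum_prod_type, Finset.sum_eq_single k.1]
    · rw [Finset.sum_eq_single l.2]
      · simp only [XL, blk, Matrix.of_apply, and_true, if_true, ite_mul, one_mul, zero_mul]
      · intro x _ hx
        simp [XL, Ne.symm hx]
      · simp
    · intro t _ ht
      refine Finset.sum_eq_zero fun x _ => ?_
      simp [blk, ht]
    · simp
  have e2 : (blk m₂ m A₂ A₁ * shf m₂ m R) l k = if (l.1 : ℕ) + 1 = (k.1 : ℕ) then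
      ∑ x, (if ty m₂ l.1 then A₂ l.2 x else A₁ l.2 x) *
        (if ty m₂ l.1 = ty m₂ k.1 then (if x = k.2 then 1 else 0) else R x k.2) else 0 := by
    rw [Matrix.mul_apply, Fintype.sum_prod_type, Finset.sum_eq_single l.1]
    · by_cases hl : (l.1 : ℕ) + 1 = (k.1 : ℕ)
      · simp [blk, shf, hl]
      · simp [blk, shf, hl]
    · intro t _ ht
      refine Finset.sum_eq_zero fun x _ => ?_
      simp [blk, Ne.symm ht]
    · simp
  rw [e1, e2]
  by_cases hl : (l.1 : ℕ) + 1 = (k.1 : ℕ)
  · rw [if_pos hl, if_pos hl]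
    by_cases hk : ty m₂ k.1 = true
    · have hl2 : ty m₂ l.1 = true := pts_ty (by omega) hk
      simp [hk, hl2]
    · by_cases hl2 : ty m₂ l.1 = true
      · have hk' : ty m₂ k.1 = false := by simpa using hk
        simp [hk', hl2, h]
      · have hk' : ty m₂ k.1 = false := by simpa using hk
        have hl2' : ty m₂ l.1 = false := by simpa using hl2
        simp [hk', hl2']
  · rw [if_neg hl, if_neg hl]

end general

/-! ## The blocks -/

section blocks

variable {I C : Type} [Fintype I] [Fintype C] [DecidableEq I] [DecidableEq C]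
variable {R : Type} [CommRing R]

/-- type 2 block of the curve -/
def G2 (s : R) (Q : I → I → R) (Z : I → C → R) : Lb I C → Lb I C → R
  | .c' j, .c' i => if j = i then s ^ 2 else 0
  | .d j, .c' i => if j = i then 1 else 0
  | .a j, .a i => if j = i then 1 else 0
  | .c' j, .a i => -(s * Q i j)
  | .c y, .c x => if y = x then 1 else 0
  | .c' j, .c x => -(s * Z j x)
  | .c' j, .d i => if j = i then 1 else 0
  | _, _ => 0

/-- type 1 block of the curve; `Wi` is the inverse of `W` -/
def G1 (s : R) (Wi : I → R) (Y : I → C → R) : Lb I C → Lb I C → R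
  | .d j, .a i => if j = i then 1 else 0
  | .a j, .a i => if j = i then s * Wi i else 0
  | .c x, .a i => s * Wi i * Y i x
  | .c y, .c x => if y = x then 1 else 0
  | .c' j, .c' i => if j = i then 1 else 0
  | .a j, .d i => if j = i then 1 else 0
  | _, _ => 0

/-- upper triangular factor, type 2; `r` is the inverse of `s` -/
def U2 (r : R) (Q : I → I → R) (Z : I → C → R) : Lb I C → Lb I C → R
  | .c' j, .c' i => if j = i then 1 else 0
  | .d j, .c' i => if j = i then r ^ 2 else 0
  | .d j, .d i => if j = i then 1 else 0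
  | .a j, .a i => if j = i then 1 else 0
  | .d j, .a i => r * Q i j
  | .c y, .c x => if y = x then 1 else 0
  | .d j, .c x => r * Z j x
  | _, _ => 0

def B2 (s r : R) (Q : I → I → R) (Z : I → C → R) : Lb I C → Lb I C → R
  | .c' j, .c' i => if j = i then s ^ 2 else 0
  | .c' j, .d i => if j = i then 1 else 0
  | .d j, .d i => if j = i then -r ^ 2 else 0
  | .a j, .a i => if j = i then 1 else 0
  | .c' j, .a i => -(s * Q i j)
  | .c y, .c x => if y = x then 1 else 0
  | .c' j, .c x => -(s * Z j x)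
  | _, _ => 0

def U1 (r : R) (W : I → R) (Y : I → C → R) : Lb I C → Lb I C → R
  | .a j, .a i => if j = i then 1 else 0
  | .c x, .a i => Y i x
  | .d j, .a i => if j = i then W i * r else 0
  | .c y, .c x => if y = x then 1 else 0
  | .c' j, .c' i => if j = i then 1 else 0
  | .d j, .d i => if j = i then 1 else 0
  | _, _ => 0

def B1 (s r : R) (W Wi : I → R) (Y : I → C → R) : Lb I C → Lb I C → R
  | .a j, .a i => if j = i then s * Wi i else 0
  | .a j, .d i => if j = i then 1 else 0
  | .c x, .d i => -Y i x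
  | .d j, .d i => if j = i then -(W i * r) else 0
  | .c y, .c x => if y = x then 1 else 0
  | .c' j, .c' i => if j = i then 1 else 0
  | _, _ => 0

/-- the transition -/
def Tr21 (s : R) (Q : I → I → R) (Z : I → C → R) (Wi : I → R) (Y : I → C → R) :
    Lb I C → Lb I C → R
  | .c' j, .a i => if j = i then 1 else 0
  | .a j, .a i => if j = i then s * Wi i else 0
  | .c x, .a i => s * Wi i * Y i x
  | .c y, .c x => if y = x then 1 else 0
  | .d j, .c x => s * Z j x
  | .d j, .c' i => if j = i then 1 else 0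
  | .a j, .d i => if j = i then 1 else 0
  | .d j, .d i => s * Q i j
  | _, _ => 0

lemma fac2 {s r : R} (hr : s * r = 1) (Q : I → I → R) (Z : I → C → R) (p q : Lb I C) :
    ∑ k, U2 r Q Z p k * B2 s r Q Z k q = G2 s Q Z p q := by
  have hr2 : s ^ 2 * r ^ 2 = 1 := by rw [← mul_pow, hr, one_pow]
  rw [sum_Lb]
  cases p <;> cases q <;>
    simp [U2, B2, G2, Finset.sum_ite_eq, Finset.sum_ite_eq', ite_mul, mul_ite]
  · linear_combination (-(r * Q _ _)) * hr
  · linear_combination (-(r * Z _ _)) * hr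
  · rw [mul_comm, hr2]

lemma fac1 {s r : R} (hr : s * r = 1) {W Wi : I → R} (hW : ∀ i, W i * Wi i = 1) (Y : I → C → R)
    (p q : Lb I C) : ∑ k, U1 r W Y p k * B1 s r W Wi Y k q = G1 s Wi Y p q := by
  rw [sum_Lb]
  cases p <;> cases q <;>
    simp [U1, B1, G1, Finset.sum_ite_eq, Finset.sum_ite_eq', ite_mul, mul_ite]
  · ring
  · rename_i j i
    have h1 : W i * r * (s * Wi i) = 1 := by linear_combination (W i * Wi i) * hr + hW i
    rw [h1]

lemma trans21 (s : R) {Q : I → I → R} {Z : I → C → R} {W Wi : I → R} {Y : I → C → R}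
    (hW : ∀ i, W i * Wi i = 1)
    (hQ : ∀ i j, Q i j + ∑ x, Y i x * Z j x = if i = j then W i else 0) (p q : Lb I C) :
    ∑ k, G2 s Q Z p k * Tr21 s Q Z Wi Y k q = G1 s Wi Y p q := by
  rw [sum_Lb]
  cases p <;> cases q <;>
    simp [G2, Tr21, G1, Finset.sum_ite_eq, Finset.sum_ite_eq', ite_mul, mul_ite]
  rename_i j i
  have h1 : ∑ x, s * Z j x * (s * Wi i * Y i x) = s ^ 2 * Wi i * ∑ x, Y i x * Z j x := by
    rw [Finset.mul_sum]
    exact Finset.sum_congr rfl fun x _ => by ring
  have h2 := hQ i j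
  rw [h1]
  by_cases h : j = i
  · subst h
    rw [if_pos rfl] at h2 ⊢
    linear_combination (-(s ^ 2 * Wi j)) * h2 - s ^ 2 * hW j
  · rw [if_neg (Ne.symm h)] at h2
    rw [if_neg h]
    linear_combination (-(s ^ 2 * Wi i)) * h2

end blocks

/-! ## Triangularity -/

section tri

variable {I C : Type} [DecidableEq I] [DecidableEq C]
  {sY sZ : I → C → Prop} {Sg : I → I → Prop} {m₂ m₁ : ℕ}
  {V : LevF sY sZ Sg m₂ m₁} {n : ℕ} {K : Type} [Field K]

lemma triU2 (L : LayF V n) {r : K} {Q : I → I → K} {Z : I → C → K}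
    (hZ : ∀ i x, ¬ sZ i x → Z i x = 0) (hQ : ∀ i j, (i = j ∨ Sg i j) → Q i j = 0)
    {t : Fin (m₂ + m₁)} (ht : ty m₂ t = true) (p q : Lb I C) (h : U2 r Q Z p q ≠ 0) :
    p = q ∨ L.idx (t, p) < L.idx (t, q) := by
  have hc := V.h2 t (by simpa [ty] using ht)
  have hn := V.ne t
  rw [ht] at hn
  have key : ∀ (j : I) (q : Lb I C), piv true q → ¬ cond2 sZ Sg q (.d j) →
      L.idx (t, .d j) < L.idx (t, q) := fun j q h1 h2 => by
    refine L.i2 t _ _ ?_
    have h3 : ¬ V.h t q < V.h t (.d j) := fun h4 => h2 (hc q _ h1 (by simp [piv]) h4)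
    have h4 := hn q (.d j) h1 (by simp [piv])
    omega
  cases p <;> cases q <;> first
    | exact absurd rfl h
    | (left; by_contra hne; apply h; apply if_neg; intro e; apply hne; rw [e]; done)
    | skip
  · right
    refine key _ _ trivial fun e => h ?_
    show r * Q _ _ = 0
    rw [hQ _ _ e, mul_zero]
  · right
    refine key _ _ trivial fun e => h ?_
    show r * Z _ _ = 0
    rw [hZ _ _ e, mul_zero]
  · right
    exact key _ _ trivial fun e => e

lemma triU1 (L : LayF V n) {r : K} {W : I → K} {Y : I → C → K}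
    (hY : ∀ i x, ¬ sY i x → Y i x = 0)
    {t : Fin (m₂ + m₁)} (ht : ty m₂ t = false) (p q : Lb I C) (h : U1 r W Y p q ≠ 0) :
    p = q ∨ L.idx (t, p) < L.idx (t, q) := by
  have hc := V.h1 t (by simpa [ty] using ht)
  have hn := V.ne t
  rw [ht] at hn
  have key : ∀ (i : I) (p : Lb I C), ¬ piv false p → ¬ cond1 sY (.a i) p →
      L.idx (t, p) < L.idx (t, .a i) := fun i p h1 h2 => by
    refine L.i2 t _ _ ?_
    have h3 : ¬ V.h t (.a i) < V.h t p := fun h4 => h2 (hc (.a i) p (by simp [piv]) h1 h4)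
    have h4 := hn (.a i) p (by simp [piv]) h1
    omega
  cases p <;> cases q <;> first
    | exact absurd rfl h
    | (left; by_contra hne; apply h; apply if_neg; intro e; apply hne; rw [e]; done)
    | skip
  · right
    refine key _ _ (by simp [piv]) fun e => h ?_
    exact hY _ _ e
  · right
    refine key _ _ (by simp [piv]) fun e => h (if_neg ?_)
    exact fun e' => e e'.symm

lemma triB2 (L : LayF V n) {s r : K} {Q : I → I → K} {Z : I → C → K}
    {t : Fin (m₂ + m₁)} (ht : ty m₂ t = true) (p q : Lb I C) (h : B2 s r Q Z p q ≠ 0) :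
    p = q ∨ L.pos (t, p) < L.pos (t, q) := by
  cases p <;> cases q <;> first
    | exact absurd rfl h
    | (left; by_contra hne; apply h; apply if_neg; intro e; apply hne; rw [e]; done)
    | exact Or.inr (L.p3 t _ _ ht fun j => by simp)

lemma triB1 (L : LayF V n) {s r : K} {W Wi : I → K} {Y : I → C → K}
    {t : Fin (m₂ + m₁)} (ht : ty m₂ t = false) (p q : Lb I C) (h : B1 s r W Wi Y p q ≠ 0) :
    p = q ∨ L.pos (t, p) < L.pos (t, q) := by
  cases p <;> cases q <;> first
    | exact absurd rfl h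
    | (left; by_contra hne; apply h; apply if_neg; intro e; apply hne; rw [e]; done)
    | exact Or.inr (L.p4 t _ _ ht fun j => by simp)

lemma tri_shf (L : LayF V n) {s : K} {Q : I → I → K} {Z : I → C → K} {Wi : I → K} {Y : I → C → K}
    (a k : Lab (m₂ + m₁) I C) (h : L.pos k < L.pos a) :
    shf m₂ (m₂ + m₁) (Tr21 s Q Z Wi Y) a k = 0 := by
  by_contra hne
  simp only [shf, Matrix.of_apply] at hne
  by_cases h1 : (a.1 : ℕ) + 1 = (k.1 : ℕ)
  · rw [if_pos h1] at hne
    refine absurd (pts_pos L (l := a) (k := k) (by omega) ?_) (not_lt.2 h.le)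
    by_cases h2 : ty m₂ a.1 = ty m₂ k.1
    · rw [if_pos h2] at hne
      have h3 : a.2 = k.2 := by
        by_contra h4
        exact hne (if_neg h4)
      unfold early
      rw [h2, h3]
      exact id
    · rw [if_neg h2] at hne
      unfold early
      cases hk : ty m₂ k.1
      · cases ha : ty m₂ a.1
        · rw [ha, hk] at h2
          exact absurd rfl h2
        · revert hne
          cases a.2 <;> cases k.2 <;> simp [piv, Tr21]
      · exact absurd (by rw [pts_ty (by omega) hk, hk]) h2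
  · exact hne (if_neg h1)

omit [DecidableEq I] [DecidableEq C] in
lemma tri_blk {o : Lab (m₂ + m₁) I C → Fin n} {A₂ A₁ : Lb I C → Lb I C → K}
    (h2 : ∀ t : Fin (m₂ + m₁), ty m₂ t = true → ∀ p q, A₂ p q ≠ 0 → p = q ∨ o (t, p) < o (t, q))
    (h1 : ∀ t : Fin (m₂ + m₁), ty m₂ t = false → ∀ p q, A₁ p q ≠ 0 → p = q ∨ o (t, p) < o (t, q))
    (a k : Lab (m₂ + m₁) I C) (h : o k < o a) : blk m₂ (m₂ + m₁) A₂ A₁ a k = 0 := by
  obtain ⟨t, p⟩ := a
  obtain ⟨t', q⟩ := k
  simp only [blk, Matrix.of_apply]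
  split_ifs with e ht
  · subst e
    by_contra hne
    rcases h2 t ht p q hne with rfl | h3
    · exact lt_irrefl _ h
    · exact lt_asymm h h3
  · subst e
    by_contra hne
    rcases h1 t (by simpa using ht) p q hne with rfl | h3
    · exact lt_irrefl _ h
    · exact lt_asymm h h3
  · rfl

end tri

end CurAux

open CurAux in
/-- Module Cur -/
theorem Cur : S_Cur := by
  rintro I C _ _ _ _ sY sZ Sg m₂ m₁ n r V L tb K _ _ ⟨Y, Z, hY, hZ, hor, hW⟩
  set W : I → K := fun i => ∑ x, Y i x * Z i x with hWdef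
  set Wi : I → K := fun i => (W i)⁻¹ with hWi
  have hWW : ∀ i, W i * Wi i = 1 := fun i => mul_inv_cancel₀ (hW i)
  set Q : I → I → K := fun i j => if i = j then 0 else -∑ x, Y i x * Z j x with hQdef
  have hQ : ∀ i j, Q i j + ∑ x, Y i x * Z j x = if i = j then W i else 0 := by
    intro i j
    by_cases h : i = j
    · subst h
      simp [hQdef, hWdef]
    · simp [hQdef, h]
  have hQ0 : ∀ i j, (i = j ∨ Sg i j) → Q i j = 0 := by
    intro i j h
    by_cases hij : i = j
    · simp [hQdef, hij]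
    · rcases h with h | h
      · exact absurd h hij
      · simp [hQdef, hor i j hij h]
  rw [TrAux.jordan_eq]
  set GM : Matrix (Lab (m₂ + m₁) I C) (Lab (m₂ + m₁) I C) (Polynomial K) :=
    blk m₂ (m₂ + m₁) (G2 Polynomial.X (fun i j => Polynomial.C (Q i j))
      fun i x => Polynomial.C (Z i x)) (G1 Polynomial.X (fun i => Polynomial.C (Wi i))
      fun i x => Polynomial.C (Y i x)) with hGM
  have hev : ∀ s : K, GM.map (Polynomial.eval s) =
      blk m₂ (m₂ + m₁) (G2 s Q Z) (G1 s Wi Y) := by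
    intro s
    ext ⟨t, p⟩ ⟨t', q⟩
    simp only [hGM, blk, Matrix.map_apply, Matrix.of_apply]
    split_ifs
    · cases p <;> cases q <;> simp only [G2] <;> (try split_ifs) <;>
        simp only [Polynomial.eval_mul, Polynomial.eval_neg, Polynomial.eval_pow,
          Polynomial.eval_X, Polynomial.eval_C, Polynomial.eval_one, Polynomial.eval_zero]
    · cases p <;> cases q <;> simp only [G1] <;> (try split_ifs) <;>
        simp only [Polynomial.eval_mul, Polynomial.eval_neg, Polynomial.eval_pow,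
          Polynomial.eval_X, Polynomial.eval_C, Polynomial.eval_one, Polynomial.eval_zero]
    · simp
  apply closure_of_curve (GM.submatrix L.idx.symm L.pos.symm)
  · rw [← Matrix.submatrix_map, hev]
    ext i j
    simp only [Matrix.submatrix_apply, perm, Matrix.of_apply, LayF.v, Equiv.trans_apply]
    obtain ⟨l, rfl⟩ := L.idx.surjective i
    obtain ⟨k, rfl⟩ := L.pos.surjective j
    simp only [Equiv.symm_apply_apply, EmbeddingLike.apply_eq_iff_eq, Lay.sigE, Equiv.coe_fn_mk]
    obtain ⟨t, p⟩ := l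
    obtain ⟨t', q⟩ := k
    simp only [blk, Matrix.of_apply, sig, Prod.mk.injEq]
    by_cases e : t = t'
    · subst e
      cases ht : ty m₂ t
      · cases p <;> cases q <;> simp [G1, sg]
      · cases p <;> cases q <;> simp [G2, sg]
    · simp [e]
  · intro s hs
    rw [← Matrix.submatrix_map, hev]
    have hsr : s * s⁻¹ = 1 := mul_inv_cancel₀ hs
    refine cell_of_label L (U := blk m₂ (m₂ + m₁) (U2 s⁻¹ Q Z) (U1 s⁻¹ W Y))
      (B := blk m₂ (m₂ + m₁) (B2 s s⁻¹ Q Z) (B1 s s⁻¹ W Wi Y))
      (Yp := shf m₂ (m₂ + m₁) (Tr21 s Q Z Wi Y)) ?_ ?_ ?_ ?_ ?_ ?_ ?_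
    · exact tri_blk (fun t ht => triU2 L hZ hQ0 ht) (fun t ht => triU1 L hY ht)
    · rintro ⟨t, p⟩
      simp only [blk, Matrix.of_apply]
      cases p <;> simp [U2, U1]
    · exact tri_blk (fun t ht => triB2 L ht) (fun t ht => triB1 L ht)
    · rintro ⟨t, p⟩
      simp only [blk, Matrix.of_apply]
      have hW' : ∀ i, W i ≠ 0 := hW
      cases p <;> simp only [B2, B1, if_true] <;> split_ifs <;> simp [hs, hW', hWi]
    · exact blk_mul m₂ _ (fac2 hsr Q Z) (fac1 hsr hWW Y)
    · exact tri_shf L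
    · exact XL_mul m₂ _ (trans21 s hWW hQ)

end Pool.Agent.SprF
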