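import Pool.Agent.SprJ.Stmts

/-!
# Levels with Ferrers-shaped zero patterns
(MP_3a0658_ag, universality for `X` with Jordan blocks of size four)   (helper8)
-/

set_option autoImplicit false

open Matrix

namespace Pool.Agent.SprF

open Pool.Agent.SprJ

/-- the levels: `m₂` levels of type 2, then `m₁` levels of type 1; level `t` carries a rank function
`h t` on the labels and imposes the zeros `(p, q)`, `p` a pivot label, `q` not, `h t p < h t q` -/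
structure LevF {I C : Type} (sY sZ : I → C → Prop) (Sg : I → I → Prop) (m₂ m₁ : ℕ) where
  h : Fin (m₂ + m₁) → Lb I C → ℕ
  ne : ∀ t p q, piv (ty m₂ t) p → ¬ piv (ty m₂ t) q → h t p ≠ h t q
  h2 : ∀ t : Fin (m₂ + m₁), (t : ℕ) < m₂ → ∀ p q, piv true p → ¬ piv true q → h t p < h t q →
    cond2 sZ Sg p q
  h1 : ∀ t : Fin (m₂ + m₁), ¬ ((t : ℕ) < m₂) → ∀ p q, piv false p → ¬ piv false q →
    h t p < h t q → cond1 sY p q
  f2 : ∀ p q, cond2 sZ Sg p q → ∃ t : Fin (m₂ + m₁), (t : ℕ) < m₂ ∧ h t p < h t q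
  f1 : ∀ p q, cond1 sY p q → ∃ t : Fin (m₂ + m₁), ¬ ((t : ℕ) < m₂) ∧ h t p < h t q

/-- the two orders on the labels: `idx` (the reference flag) and `pos` (the permutation `w`) -/
structure LayF {I C : Type} {sY sZ : I → C → Prop} {Sg : I → I → Prop} {m₂ m₁ : ℕ}
    (V : LevF sY sZ Sg m₂ m₁) (n : ℕ) where
  idx : Lab (m₂ + m₁) I C ≃ Fin n
  pos : Lab (m₂ + m₁) I C ≃ Fin n
  i1 : ∀ t t' q q', t < t' → idx (t, q) < idx (t', q')
  i2 : ∀ t q q', V.h t q < V.h t q' → idx (t, q) < idx (t, q')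
  p1 : ∀ l l', early m₂ l → ¬ early m₂ l' → pos l < pos l'
  p2 : ∀ l l', (early m₂ l ↔ early m₂ l') → l.1 < l'.1 → pos l < pos l'
  p3 : ∀ t i q, ty m₂ t = true → (∀ j, q ≠ .c' j) → pos (t, .c' i) < pos (t, q)
  p4 : ∀ t i q, ty m₂ t = false → (∀ j, q ≠ .d j) → pos (t, q) < pos (t, .d i)

namespace LayF

variable {I C : Type} {sY sZ : I → C → Prop} {Sg : I → I → Prop} {m₂ m₁ : ℕ}
  {V : LevF sY sZ Sg m₂ m₁} {n : ℕ}

/-- the permutation `w` -/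
def w (L : LayF V n) : Equiv.Perm (Fin n) := L.pos.symm.trans L.idx

/-- the permutation `v` -/
def v (L : LayF V n) : Equiv.Perm (Fin n) :=
  (L.pos.symm.trans (Lay.sigE m₂ (m₂ + m₁) I C)).trans L.idx

/-- the Jordan basis -/
def eps (L : LayF V n) {r : ℕ} (tb : Lb I C ≃ Fin r) : Fin (m₂ + m₁) × Fin r ≃ Fin n :=
  (Equiv.prodCongr (Equiv.refl _) tb.symm).trans L.idx

end LayF

/-- layouts exist -/
def S_Lay : Prop := ∀ (I C : Type) [Fintype I] [Fintype C] [DecidableEq I] [DecidableEq C]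
  (sY sZ : I → C → Prop) (Sg : I → I → Prop) (m₂ m₁ n : ℕ) (V : LevF sY sZ Sg m₂ m₁),
  n = (m₂ + m₁) * (3 * Fintype.card I + Fintype.card C) → Nonempty (LayF V n)

/-- from the closure to label matrices -/
def S_Tr : Prop := ∀ (I C : Type) [Fintype I] [Fintype C] [DecidableEq I] [DecidableEq C]
  (sY sZ : I → C → Prop) (Sg : I → I → Prop) (m₂ m₁ n r : ℕ) (V : LevF sY sZ Sg m₂ m₁)
  (L : LayF V n) (tb : Lb I C ≃ Fin r) (K : Type) [Field K],
  InClosure (jordan K (L.eps tb)) L.v L.w →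
  ∃ U Z : Matrix (Lab (m₂ + m₁) I C) (Lab (m₂ + m₁) I C) K,
    (∀ a k, L.idx k < L.idx a → U a k = 0) ∧ (∀ k, U k k ≠ 0) ∧
    (∀ l k, L.pos k < L.pos l → Z l k = 0) ∧ XL K (m₂ + m₁) I C * U = U * Z ∧
    ∀ p : ℕ, ((Matrix.of fun a b : {k : Lab (m₂ + m₁) I C // ((L.pos k : Fin n) : ℕ) < p} =>
      U (sig m₂ a.1) b.1).det ≠ 0)

/-- analysis of the cell -/
def S_An : Prop := ∀ (I C : Type) [Fintype I] [Fintype C] [DecidableEq I] [DecidableEq C]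
  (sY sZ : I → C → Prop) (Sg : I → I → Prop) (m₂ m₁ n : ℕ) (V : LevF sY sZ Sg m₂ m₁)
  (L : LayF V n) (K : Type) [Field K], 0 < m₂ → 0 < m₁ →
  ∀ U Z : Matrix (Lab (m₂ + m₁) I C) (Lab (m₂ + m₁) I C) K,
    (∀ a k, L.idx k < L.idx a → U a k = 0) → (∀ k, U k k ≠ 0) →
    (∀ l k, L.pos k < L.pos l → Z l k = 0) → XL K (m₂ + m₁) I C * U = U * Z →
    (∀ p : ℕ, ((Matrix.of fun a b : {k : Lab (m₂ + m₁) I C // ((L.pos k : Fin n) : ℕ) < p} =>
      U (sig m₂ a.1) b.1).det ≠ 0)) →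
    OSol K sY sZ Sg

/-- curves -/
def S_Cur : Prop := ∀ (I C : Type) [Fintype I] [Fintype C] [DecidableEq I] [DecidableEq C]
  (sY sZ : I → C → Prop) (Sg : I → I → Prop) (m₂ m₁ n r : ℕ) (V : LevF sY sZ Sg m₂ m₁)
  (L : LayF V n) (tb : Lb I C ≃ Fin r) (K : Type) [Field K] [Infinite K],
  OSol K sY sZ Sg → InClosure (jordan K (L.eps tb)) L.v L.w

/-- `X` is strictly upper triangular, `vB, wB ∈ S_X` -/
def S_Pts : Prop := ∀ (I C : Type) [Fintype I] [Fintype C] [DecidableEq I] [DecidableEq C]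
  (sY sZ : I → C → Prop) (Sg : I → I → Prop) (m₂ m₁ n r : ℕ) (V : LevF sY sZ Sg m₂ m₁)
  (L : LayF V n) (tb : Lb I C ≃ Fin r) (K : Type) [Field K],
  (L.w⁻¹ * L.v) ^ 2 = 1 ∧ (∀ i j, j ≤ i → jordan K (L.eps tb) i j = 0) ∧
    InSpringer (jordan K (L.eps tb)) (perm K L.v) ∧ InSpringer (jordan K (L.eps tb)) (perm K L.w)

end Pool.Agent.SprF
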