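import Pool.Agent.SprF.Defs
import Pool.Agent.SprJ.OS

/-!
# Orthogonality systems with supports as orthogonality systems with four levels
(MP_3a0658_ag)   (helper8)

* supports are orthogonality relations with dual bases (`full_iff`);
* an arbitrary set of orthogonality relations becomes the set of all pairs `i ≠ j` if every pair
  which is not in it gets a private coordinate (`priv_iff`);
* the supports of the private coordinates need two orders for the first vectors and two orders for
  the second vectors (`four`).
-/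

set_option autoImplicit false

open Matrix

namespace Pool.Agent.SprF

open Pool.Agent.SprJ hiding S_Lay S_Tr S_An S_Cur S_Pts

section Full

variable {p q : ℕ}

/-- orthogonality relations which encode the supports -/
def SgF (sY sZ : Fin p → Fin q → Prop) (Sg : Fin p → Fin p → Prop) :
    Fin p ⊕ Fin q → Fin p ⊕ Fin q → Prop
  | .inl i, .inl j => Sg i j
  | .inl i, .inr x => ¬ sY i x
  | .inr x, .inl j => ¬ sZ j x
  | .inr _, .inr _ => True

theorem full_iff (K : Type) [Field K] (sY sZ : Fin p → Fin q → Prop) (Sg : Fin p → Fin p → Prop) :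
    OSol K (fun _ _ => True) (fun _ _ => True) (SgF sY sZ Sg) (C := Fin q) ↔ OSol K sY sZ Sg := by
  constructor
  · rintro ⟨Y, Z, -, -, hor, hne⟩
    let A : Matrix (Fin q) (Fin q) K := Matrix.of fun x y => Y (.inr x) y
    let B : Matrix (Fin q) (Fin q) K := Matrix.of fun y x => Z (.inr x) y
    let δ : Fin q → K := fun x => ∑ y, Y (.inr x) y * Z (.inr x) y
    have hδ : ∀ x, δ x ≠ 0 := fun x => hne (.inr x)
    have hAB : A * B = Matrix.diagonal δ := by
      ext x x'
      rw [Matrix.mul_apply, Matrix.diagonal_apply]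
      split_ifs with h
      · subst h; rfl
      · exact hor (.inr x) (.inr x') (fun h' => h (Sum.inr.inj h')) trivial
    have h1 : (Matrix.diagonal (fun x => (δ x)⁻¹) * A) * B = 1 := by
      rw [Matrix.mul_assoc, hAB, Matrix.diagonal_mul_diagonal]
      rw [← Matrix.diagonal_one]
      congr 1
      funext x
      exact inv_mul_cancel₀ (hδ x)
    have h2 : B * (Matrix.diagonal (fun x => (δ x)⁻¹) * A) = 1 := mul_eq_one_comm.1 h1
    -- the pairing in the new coordinates
    have key : ∀ y z : Fin q → K, ∑ x, (∑ u, y u * Z (.inr x) u) * ((δ x)⁻¹ * ∑ u, Y (.inr x) u * z u)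
        = ∑ u, y u * z u := by
      intro y z
      have h3 : y ⬝ᵥ ((B * (Matrix.diagonal (fun x => (δ x)⁻¹) * A)) *ᵥ z) = y ⬝ᵥ z := by
        rw [h2, Matrix.one_mulVec]
      rw [← Matrix.mulVec_mulVec, Matrix.dotProduct_mulVec, ← Matrix.mulVec_mulVec] at h3
      have h4 : y ⬝ᵥ z = ∑ u, y u * z u := rfl
      rw [← h4, ← h3]
      unfold dotProduct
      refine Finset.sum_congr rfl fun x _ => ?_
      rw [Matrix.mulVec_diagonal]
      rfl
    refine ⟨fun i x => ∑ u, Y (.inl i) u * Z (.inr x) u,
      fun j x => (δ x)⁻¹ * ∑ u, Y (.inr x) u * Z (.inl j) u, ?_, ?_, ?_, ?_⟩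
    · intro i x h
      exact hor (.inl i) (.inr x) (by simp) h
    · intro j x h
      show (δ x)⁻¹ * _ = 0
      rw [hor (.inr x) (.inl j) (by simp) h, mul_zero]
    · intro i j hij h
      rw [key]
      exact hor (.inl i) (.inl j) (fun h' => hij (Sum.inl.inj h')) h
    · intro i
      rw [key]
      exact hne (.inl i)
  · rintro ⟨Y, Z, hY, hZ, hor, hne⟩
    refine ⟨fun l => match l with
      | .inl i => Y i
      | .inr x => Pi.single x 1, fun l => match l with
      | .inl i => Z i
      | .inr x => Pi.single x 1, by simp, by simp, ?_, ?_⟩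
    · rintro (i | x) (j | x') hij h
      · exact hor i j (fun h' => hij (by rw [h'])) h
      · show ∑ y, Y i y * (Pi.single x' 1 : Fin q → K) y = 0
        rw [Finset.sum_eq_single x']
        · rw [hY i x' h, zero_mul]
        · intro y _ hy
          rw [Pi.single_eq_of_ne hy, mul_zero]
        · simp
      · show ∑ y, (Pi.single x 1 : Fin q → K) y * Z j y = 0
        rw [Finset.sum_eq_single x]
        · rw [hZ j x h, mul_zero]
        · intro y _ hy
          rw [Pi.single_eq_of_ne hy, zero_mul]
        · simp
      · show ∑ y, (Pi.single x 1 : Fin q → K) y * (Pi.single x' 1 : Fin q → K) y = 0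
        have hne' : x ≠ x' := fun h' => hij (by rw [h'])
        rw [Finset.sum_eq_single x]
        · rw [Pi.single_eq_of_ne hne', mul_zero]
        · intro y _ hy
          rw [Pi.single_eq_of_ne hy, zero_mul]
        · simp
    · rintro (i | x)
      · exact hne i
      · show ∑ y, (Pi.single x 1 : Fin q → K) y * (Pi.single x 1 : Fin q → K) y ≠ 0
        rw [Finset.sum_eq_single x]
        · simp
        · intro y _ hy
          rw [Pi.single_eq_of_ne hy, zero_mul]
        · simp

end Full

section Priv

variable {P k : ℕ} (Sg : Fin P → Fin P → Prop)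

/-- the pairs which get a private coordinate -/
abbrev Pv : Type := {x : Fin P × Fin P // x.1 ≠ x.2 ∧ ¬ Sg x.1 x.2}

/-- coordinates: `k` ordinary ones and the private ones -/
abbrev Cp (k : ℕ) : Type := Fin k ⊕ Pv Sg

/-- supports of the first vectors -/
def sYp (k : ℕ) (i : Fin P) : Cp Sg k → Prop
  | .inl _ => True
  | .inr c => c.1.1 = i

/-- supports of the second vectors -/
def sZp (k : ℕ) (j : Fin P) : Cp Sg k → Prop
  | .inl _ => True
  | .inr c => c.1.2 = j

theorem priv_iff [Fintype (Pv Sg)] (K : Type) [Field K] :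
    OSol K (sYp Sg k) (sZp Sg k) (fun _ _ => True) ↔
      OSol K (fun _ _ => True) (fun _ _ => True) Sg (C := Fin k) := by
  classical
  constructor
  · rintro ⟨Y, Z, hY, hZ, hor, hne⟩
    have h0 : ∀ i j, (i = j ∨ Sg i j) → ∑ c : Pv Sg, Y i (.inr c) * Z j (.inr c) = 0 := by
      intro i j hij
      refine Finset.sum_eq_zero fun c _ => ?_
      by_cases h1 : c.1.1 = i
      · by_cases h2 : c.1.2 = j
        · exfalso
          rcases hij with h | h
          · exact c.2.1 (by rw [h1, h2, h])
          · exact c.2.2 (by rw [h1, h2]; exact h)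
        · rw [hZ j (.inr c) h2, mul_zero]
      · rw [hY i (.inr c) h1, zero_mul]
    refine ⟨fun i x => Y i (.inl x), fun j x => Z j (.inl x), by simp, by simp, ?_, ?_⟩
    · intro i j hij hS
      have h1 := hor i j hij trivial
      rwa [Fintype.sum_sum_type, h0 i j (Or.inr hS), add_zero] at h1
    · intro i
      have h1 := hne i
      rwa [Fintype.sum_sum_type, h0 i i (Or.inl rfl), add_zero] at h1
  · rintro ⟨Y, Z, -, -, hor, hne⟩
    refine ⟨fun i x => match x with
      | .inl x => Y i x
      | .inr c => if c.1.1 = i then -∑ x, Y i x * Z c.1.2 x else 0,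
      fun j x => match x with
      | .inl x => Z j x
      | .inr c => if c.1.2 = j then 1 else 0, ?_, ?_, ?_, ?_⟩
    · rintro i (x | c) h
      · exact absurd trivial h
      · exact if_neg h
    · rintro j (x | c) h
      · exact absurd trivial h
      · exact if_neg h
    · intro i j hij _
      rw [Fintype.sum_sum_type]
      show ∑ x, Y i x * Z j x + ∑ c : Pv Sg, (if c.1.1 = i then -∑ x, Y i x * Z c.1.2 x else 0) *
        (if c.1.2 = j then 1 else 0) = 0
      by_cases hS : Sg i j
      · rw [hor i j hij hS, zero_add]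
        refine Finset.sum_eq_zero fun c _ => ?_
        by_cases h1 : c.1.1 = i
        · by_cases h2 : c.1.2 = j
          · exact absurd (by rw [h1, h2]; exact hS) c.2.2
          · rw [if_neg h2, mul_zero]
        · rw [if_neg h1, zero_mul]
      · rw [Finset.sum_eq_single (⟨(i, j), hij, hS⟩ : Pv Sg)]
        · simp
        · rintro ⟨⟨i', j'⟩, h⟩ _ hne'
          by_cases h1 : i' = i
          · by_cases h2 : j' = j
            · subst h1 h2
              exact absurd rfl hne'
            · simp [h2]
          · simp [h1]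
        · simp
    · intro i
      rw [Fintype.sum_sum_type]
      show ∑ x, Y i x * Z i x + ∑ c : Pv Sg, (if c.1.1 = i then -∑ x, Y i x * Z c.1.2 x else 0) *
        (if c.1.2 = i then 1 else 0) ≠ 0
      rw [Finset.sum_eq_zero (s := Finset.univ) (f := fun c : Pv Sg => _) ?_, add_zero]
      · exact hne i
      · intro c _
        by_cases h1 : c.1.1 = i
        · by_cases h2 : c.1.2 = i
          · exact absurd (by rw [h1, h2]) c.2.1
          · rw [if_neg h2, mul_zero]
        · rw [if_neg h1, zero_mul]

/-- the four rank functions -/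
def rk (k : ℕ) (t : ℕ) : Lb (Fin P) (Cp Sg k) → ℕ := match t with
  | 0 => fun
    | .a _ => 0
    | .c (.inl _) => 2 * P + 2
    | .c (.inr c) => 2 * (c.1.2 : ℕ) + 2
    | .c' _ => 2 * P + 2
    | .d j => 2 * (j : ℕ) + 1
  | 1 => fun
    | .a _ => 2 * P + 2
    | .c (.inl _) => 2 * P + 2
    | .c (.inr c) => 2 * (P - (c.1.2 : ℕ)) + 2
    | .c' _ => 2 * P + 2
    | .d j => 2 * (P - (j : ℕ)) + 1
  | 2 => fun
    | .a i => 2 * (i : ℕ) + 2
    | .c (.inl _) => 1
    | .c (.inr c) => 2 * (c.1.1 : ℕ) + 1
    | .c' _ => 2 * P + 3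
    | .d j => 2 * (j : ℕ) + 1
  | _ => fun
    | .a i => 2 * (P - (i : ℕ)) + 2
    | .c (.inl _) => 1
    | .c (.inr c) => 2 * (P - (c.1.1 : ℕ)) + 1
    | .c' _ => 2 * P + 3
    | .d j => 2 * (P - (j : ℕ)) + 1

/-- four levels suffice -/
def four (k : ℕ) : LevF (sYp Sg k) (sZp Sg k) (fun _ _ => True) 2 2 where
  h t q := rk Sg k t q
  ne := by
    intro t p q
    fin_cases t <;>
    · rcases p with i | (x | c) | i | i <;> rcases q with j | (y | c'') | j | j <;>
        simp [piv, ty, rk] <;> omega
  h2 := by
    intro t ht p q hp hq hlt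
    fin_cases t
    · rcases p with i | (x | c) | i | i <;> rcases q with j | (y | c'') | j | j <;>
        simp [piv, rk, cond2, sZp] at hp hq hlt ⊢ <;> omega
    · rcases p with i | (x | c) | i | i <;> rcases q with j | (y | c'') | j | j <;>
        simp [piv, rk, cond2, sZp] at hp hq hlt ⊢ <;> omega
    · simp at ht
    · simp at ht
  h1 := by
    intro t ht p q hp hq hlt
    fin_cases t
    · simp at ht
    · simp at ht
    · rcases p with i | (x | c) | i | i <;> rcases q with j | (y | c'') | j | j <;>
        simp [piv, rk, cond1, sYp] at hp hq hlt ⊢ <;> omega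
    · rcases p with i | (x | c) | i | i <;> rcases q with j | (y | c'') | j | j <;>
        simp [piv, rk, cond1, sYp] at hp hq hlt ⊢ <;> omega
  f2 := by
    intro p q h
    rcases p with i | (x | c) | i | i <;> rcases q with j | (y | c'') | j | j <;>
      first | exact (h : False).elim | skip
    · exact ⟨0, by simp, by simp [rk]⟩
    · exact absurd trivial h
    · have h1 : c.1.2 ≠ j := h
      have h2 : (c.1.2 : ℕ) ≠ j := fun h' => h1 (Fin.ext h')
      rcases lt_or_gt_of_ne h2 with h3 | h3
      · exact ⟨0, by simp, by simp [rk]; omega⟩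
      · exact ⟨1, by simp, by simp [rk]; omega⟩
  f1 := by
    intro p q h
    rcases p with i | (x | c) | i | i <;> rcases q with j | (y | c'') | j | j <;>
      first | exact (h : False).elim | skip
    · exact absurd trivial h
    · have h1 : c''.1.1 ≠ i := h
      have h2 : (c''.1.1 : ℕ) ≠ i := fun h' => h1 (Fin.ext h')
      rcases lt_or_gt_of_ne h2 with h3 | h3
      · exact ⟨3, by simp, by simp [rk]; omega⟩
      · exact ⟨2, by simp, by simp [rk]; omega⟩
    · exact ⟨2, by simp, by simp [rk]⟩
    · have h1 : i ≠ j := h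
      have h2 : (i : ℕ) ≠ j := fun h' => h1 (Fin.ext h')
      rcases lt_or_gt_of_ne h2 with h3 | h3
      · exact ⟨2, by simp, by simp [rk]; omega⟩
      · exact ⟨3, by simp, by simp [rk]; omega⟩

end Priv

end Pool.Agent.SprF
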