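import Pool.Agent.SprJ.LayEx
import Pool.Agent.SprF.Defs

/-!
# Module SPR_Lay (MP_3a0658_ag): layouts exist
-/

set_option autoImplicit false

namespace Pool.Agent.SprF

open Pool.Agent.SprJ hiding S_Lay S_Tr S_An S_Cur S_Pts Lay_ex

open Pool.Agent.Lib_helper58.Spr (exists_equiv_of_rank)

theorem Lay_ex : S_Lay := by
  classical
  intro I C _ _ _ _ sY sZ Sg m₂ m₁ n V hn
  have hcard : Fintype.card (Lab (m₂ + m₁) I C) = n := by
    rw [hn, Fintype.card_prod, Fintype.card_fin, Lb.card]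
  let tb : Lb I C → ℕ := fun q => (Fintype.equivFin (Lb I C) q : ℕ)
  have htb : Function.Injective tb := fun a b h =>
    (Fintype.equivFin (Lb I C)).injective (Fin.ext h)
  let cl : Fin (m₂ + m₁) → Lb I C → ℕ := V.h
  let ri : Lab (m₂ + m₁) I C → ℕ ×ₗ (ℕ ×ₗ ℕ) := fun l =>
    toLex ((l.1 : ℕ), toLex (cl l.1 l.2, tb l.2))
  have hri : Function.Injective ri := by
    rintro ⟨t, q⟩ ⟨t', q'⟩ h
    simp only [ri, EmbeddingLike.apply_eq_iff_eq, Prod.mk.injEq] at h
    obtain ⟨h1, -, h3⟩ := h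
    rw [Fin.ext h1, htb h3]
  obtain ⟨ei, hei⟩ := exists_equiv_of_rank ri hri hcard
  let rp : Lab (m₂ + m₁) I C → ℕ ×ₗ (ℕ ×ₗ (ℕ ×ₗ ℕ)) := fun l =>
    toLex ((if early m₂ l then 0 else 1), toLex ((l.1 : ℕ), toLex (subR l.2, tb l.2)))
  have hrp : Function.Injective rp := by
    rintro ⟨t, q⟩ ⟨t', q'⟩ h
    simp only [rp, EmbeddingLike.apply_eq_iff_eq, Prod.mk.injEq] at h
    obtain ⟨-, h1, -, h3⟩ := h
    rw [Fin.ext h1, htb h3]
  obtain ⟨ep, hep⟩ := exists_equiv_of_rank rp hrp hcard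
  refine ⟨{ idx := ei, pos := ep, i1 := ?_, i2 := ?_, p1 := ?_, p2 := ?_, p3 := ?_,
            p4 := ?_ }⟩
  · intro t t' q q' h
    rw [hei, Prod.Lex.toLex_lt_toLex]
    left; exact h
  · intro t q q' hq
    rw [hei, Prod.Lex.toLex_lt_toLex]
    right
    refine ⟨rfl, ?_⟩
    rw [Prod.Lex.toLex_lt_toLex]
    left
    exact hq
  · intro l l' h h'
    rw [hep, Prod.Lex.toLex_lt_toLex]
    left; simp [h, h']
  · intro l l' h h'
    rw [hep, Prod.Lex.toLex_lt_toLex]
    right
    refine ⟨by simp [h], ?_⟩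
    rw [Prod.Lex.toLex_lt_toLex]
    left; exact h'
  · intro t i q ht hq
    rw [hep, Prod.Lex.toLex_lt_toLex]
    have he : early m₂ (t, (Lb.c' i : Lb I C)) := by simp [early, ht, piv]
    by_cases hq' : early m₂ (t, q)
    · right
      refine ⟨by simp [he, hq'], ?_⟩
      rw [Prod.Lex.toLex_lt_toLex]
      right
      refine ⟨rfl, ?_⟩
      rw [Prod.Lex.toLex_lt_toLex]
      left
      cases q with
      | c' j => exact absurd rfl (hq j)
      | a j => simp [subR]
      | c j => simp [subR]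
      | d j => simp [subR]
    · left; simp [he, hq']
  · intro t i q ht hq
    rw [hep, Prod.Lex.toLex_lt_toLex]
    have he : ¬ early m₂ (t, (Lb.d i : Lb I C)) := by simp [early, ht, piv]
    by_cases hq' : early m₂ (t, q)
    · left; simp [he, hq']
    · right
      refine ⟨by simp [he, hq'], ?_⟩
      rw [Prod.Lex.toLex_lt_toLex]
      right
      refine ⟨rfl, ?_⟩
      rw [Prod.Lex.toLex_lt_toLex]
      left
      cases q with
      | d j => exact absurd rfl (hq j)
      | a j => simp [subR]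
      | c j => simp [subR]
      | c' j => simp [subR]

end Pool.Agent.SprF
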