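import Mathlib

/-!
# Box sums and the Gowers-Cauchy-Schwarz inequality (MP_3a0658_ag)   (helper21)
-/

set_option autoImplicit false

namespace Pool.Agent.SprF

namespace Box

variable {α : Type} [Fintype α]

/-- the vertex `U` of the box with corners `x`, `y` -/
def mix {α : Type} {m : ℕ} (x y : Fin m → α) (U : Fin m → Bool) : Fin m → α :=
  fun i => if U i then y i else x i

/-- sum over all boxes of the product of the values at the vertices -/
noncomputable def SS (m : ℕ) (h : (Fin m → Bool) → (Fin m → α) → ℝ) : ℝ :=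
  ∑ p : (Fin m → α) × (Fin m → α), ∏ U : Fin m → Bool, h U (mix p.1 p.2 U)

lemma mix_cons {α : Type} {m : ℕ} (a b : α) (x y : Fin m → α) (c : Bool) (U : Fin m → Bool) :
    mix (Fin.cons a x : Fin (m + 1) → α) (Fin.cons b y) (Fin.cons c U) =
      Fin.cons (if c then b else a) (mix x y U) := by
  funext i
  refine Fin.cases ?_ (fun j => ?_) i
  · simp [mix]
  · simp [mix]

lemma prod_cons (m : ℕ) (F : (Fin (m + 1) → Bool) → ℝ) :
    ∏ U, F U = (∏ U : Fin m → Bool, F (Fin.cons false U)) * ∏ U : Fin m → Bool, F (Fin.cons true U) := by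
  rw [← (Fin.consEquiv fun _ => Bool).prod_comp, Fintype.prod_prod_type, Fintype.prod_bool, mul_comm]
  rfl

lemma SS_succ (m : ℕ) (h : (Fin (m + 1) → Bool) → (Fin (m + 1) → α) → ℝ) :
    SS (m + 1) h = ∑ p : (Fin m → α) × (Fin m → α),
      (∑ a, ∏ U, h (Fin.cons false U) (Fin.cons a (mix p.1 p.2 U))) *
      ∑ b, ∏ U, h (Fin.cons true U) (Fin.cons b (mix p.1 p.2 U)) := by
  unfold SS
  rw [← ((Equiv.prodProdProdComm α α (Fin m → α) (Fin m → α)).trans
    (Equiv.prodCongr (Fin.consEquiv fun _ => α) (Fin.consEquiv fun _ => α))).sum_comp,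
    Fintype.sum_prod_type_right]
  refine Finset.sum_congr rfl fun p _ => ?_
  rw [Finset.sum_mul_sum, Fintype.sum_prod_type]
  refine Finset.sum_congr rfl fun a _ => Finset.sum_congr rfl fun b _ => ?_
  rw [prod_cons]
  congr 1
  · refine Finset.prod_congr rfl fun U _ => ?_
    congr 1
    exact mix_cons a b p.1 p.2 false U
  · refine Finset.prod_congr rfl fun U _ => ?_
    congr 1
    exact mix_cons a b p.1 p.2 true U

/-- power mean for powers of two -/
lemma powmean {ι : Type} [Fintype ι] (m : ℕ) (z : ι → ℝ) :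
    (∑ i, z i) ^ (2 ^ m) * Fintype.card ι ≤ (Fintype.card ι : ℝ) ^ (2 ^ m) * ∑ i, z i ^ (2 ^ m) := by
  induction m generalizing z with
  | zero => simp [mul_comm]
  | succ m ih =>
    have hc : (0 : ℝ) ≤ Fintype.card ι := Nat.cast_nonneg _
    have h1 : (∑ i, z i) ^ 2 ≤ Fintype.card ι * ∑ i, z i ^ 2 := by
      have := Finset.sum_mul_sq_le_sq_mul_sq (Finset.univ : Finset ι) (fun _ => (1 : ℝ)) z
      simpa using this
    have h2 : ((∑ i, z i) ^ 2) ^ (2 ^ m) ≤ ((Fintype.card ι : ℝ) * ∑ i, z i ^ 2) ^ (2 ^ m) :=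
      pow_le_pow_left₀ (sq_nonneg _) h1 _
    have h3 := ih fun i => z i ^ 2
    have e1 : (∑ i, z i) ^ (2 ^ (m + 1)) = ((∑ i, z i) ^ 2) ^ (2 ^ m) := by
      rw [← pow_mul]; congr 1; ring
    have e2 : ∀ i, z i ^ (2 ^ (m + 1)) = (z i ^ 2) ^ (2 ^ m) := by
      intro i; rw [← pow_mul]; congr 1; ring
    rw [e1]
    simp only [e2]
    calc ((∑ i, z i) ^ 2) ^ (2 ^ m) * Fintype.card ι
        ≤ ((Fintype.card ι : ℝ) * ∑ i, z i ^ 2) ^ (2 ^ m) * Fintype.card ι :=
          mul_le_mul_of_nonneg_right h2 hc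
      _ = (Fintype.card ι : ℝ) ^ (2 ^ m) * ((∑ i, z i ^ 2) ^ (2 ^ m) * Fintype.card ι) := by
          rw [mul_pow]; ring
      _ ≤ (Fintype.card ι : ℝ) ^ (2 ^ m) * ((Fintype.card ι : ℝ) ^ (2 ^ m) *
          ∑ i, (z i ^ 2) ^ (2 ^ m)) := mul_le_mul_of_nonneg_left h3 (by positivity)
      _ = (Fintype.card ι : ℝ) ^ (2 ^ (m + 1)) * ∑ i, (z i ^ 2) ^ (2 ^ m) := by
          rw [pow_succ 2 m, pow_mul]; ring

/-- **Gowers-Cauchy-Schwarz** -/
theorem gcs (m : ℕ) (h : (Fin m → Bool) → (Fin m → α) → ℝ) (hb : ∀ U x, |h U x| ≤ 1)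
    (U0 : Fin m → Bool) :
    (SS m h) ^ (2 ^ m) * (Fintype.card α : ℝ) ^ (2 * m) ≤
      ((Fintype.card α : ℝ) ^ (2 * m)) ^ (2 ^ m) * SS m fun _ => h U0 := by
  induction m with
  | zero =>
    have : ∀ U, h U = h U0 := fun U => by rw [Subsingleton.elim U U0]
    simp [SS, this]
  | succ m ih =>
    set A : ℝ := (Fintype.card α : ℝ) with hA
    have hA0 : 0 ≤ A := Nat.cast_nonneg _
    let F : Bool → (Fin m → α) × (Fin m → α) → ℝ := fun c p =>
      ∑ a, ∏ U, h (Fin.cons c U) (Fin.cons a (mix p.1 p.2 U))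
    have hF : ∀ c p, |F c p| ≤ A := by
      intro c p
      refine (Finset.abs_sum_le_sum_abs _ _).trans ?_
      have : ∀ a ∈ (Finset.univ : Finset α),
          |∏ U : Fin m → Bool, h (Fin.cons c U) (Fin.cons a (mix p.1 p.2 U))| ≤ 1 := by
        intro a _
        rw [Finset.abs_prod]
        exact Finset.prod_le_one (fun _ _ => abs_nonneg _) fun _ _ => hb _ _
      refine (Finset.sum_le_sum this).trans ?_
      simp [hA]
    have hF2 : ∀ c, ∑ p, F c p ^ 2 ≤ A ^ (2 * m + 2) := by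
      intro c
      have : ∀ p ∈ (Finset.univ : Finset ((Fin m → α) × (Fin m → α))), F c p ^ 2 ≤ A ^ 2 := by
        intro p _
        rw [← sq_abs]
        exact pow_le_pow_left₀ (abs_nonneg _) (hF c p) 2
      refine (Finset.sum_le_sum this).trans ?_
      rw [Finset.sum_const, nsmul_eq_mul, Finset.card_univ, Fintype.card_prod, Fintype.card_fun,
        Fintype.card_fin]
      push_cast
      rw [← hA]
      apply le_of_eq
      ring
    set c := U0 0 with hc
    let h' : α × α → (Fin m → Bool) → (Fin m → α) → ℝ := fun ab U z =>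
      h (Fin.cons c U) (Fin.cons ab.1 z) * h (Fin.cons c U) (Fin.cons ab.2 z)
    have hsq : ∑ p, F c p ^ 2 = ∑ ab : α × α, SS m (h' ab) := by
      unfold SS
      rw [Finset.sum_comm]
      refine Finset.sum_congr rfl fun p _ => ?_
      rw [sq, Finset.sum_mul_sum, Fintype.sum_prod_type]
      refine Finset.sum_congr rfl fun a _ => Finset.sum_congr rfl fun b _ => ?_
      rw [← Finset.prod_mul_distrib]
    have hcs : SS (m + 1) h ^ 2 ≤ A ^ (2 * m + 2) * ∑ ab : α × α, SS m (h' ab) := by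
      have h1 : SS (m + 1) h = ∑ p, F c p * F (!c) p := by
        rw [SS_succ]
        refine Finset.sum_congr rfl fun p _ => ?_
        cases c
        · rfl
        · exact mul_comm _ _
      rw [h1, ← hsq]
      refine (Finset.sum_mul_sq_le_sq_mul_sq _ _ _).trans ?_
      rw [mul_comm]
      exact mul_le_mul_of_nonneg_right (hF2 _) (Finset.sum_nonneg fun _ _ => sq_nonneg _)
    have hnn : 0 ≤ ∑ ab : α × α, SS m (h' ab) := by
      rw [← hsq]; exact Finset.sum_nonneg fun _ _ => sq_nonneg _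
    have hU0 : (Fin.cons c (Fin.tail U0) : Fin (m + 1) → Bool) = U0 := Fin.cons_self_tail U0
    have hih : ∀ ab : α × α, SS m (h' ab) ^ (2 ^ m) * A ^ (2 * m) ≤
        (A ^ (2 * m)) ^ (2 ^ m) * SS m fun _ => h' ab (Fin.tail U0) := by
      intro ab
      refine ih (h' ab) (fun U z => ?_) (Fin.tail U0)
      rw [abs_mul]
      exact mul_le_one₀ (hb _ _) (abs_nonneg _) (hb _ _)
    have hlast : ∑ ab : α × α, SS m (fun _ => h' ab (Fin.tail U0)) =
        SS (m + 1) fun _ => h U0 := by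
      rw [SS_succ]
      unfold SS
      rw [Finset.sum_comm]
      refine Finset.sum_congr rfl fun p _ => ?_
      rw [Finset.sum_mul_sum, Fintype.sum_prod_type]
      refine Finset.sum_congr rfl fun a _ => Finset.sum_congr rfl fun b _ => ?_
      rw [← Finset.prod_mul_distrib]
      refine Finset.prod_congr rfl fun U _ => ?_
      show h (Fin.cons c (Fin.tail U0)) _ * h (Fin.cons c (Fin.tail U0)) _ = _
      rw [hU0]
    have hpm := powmean m fun ab : α × α => SS m (h' ab)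
    rw [Fintype.card_prod] at hpm
    push_cast at hpm
    rw [← hA] at hpm
    have e1 : SS (m + 1) h ^ (2 ^ (m + 1)) = (SS (m + 1) h ^ 2) ^ (2 ^ m) := by
      rw [← pow_mul]; congr 1; ring
    rw [e1, ← hlast]
    calc (SS (m + 1) h ^ 2) ^ (2 ^ m) * A ^ (2 * (m + 1))
        ≤ (A ^ (2 * m + 2) * ∑ ab : α × α, SS m (h' ab)) ^ (2 ^ m) * A ^ (2 * (m + 1)) :=
          mul_le_mul_of_nonneg_right (pow_le_pow_left₀ (sq_nonneg _) hcs _) (by positivity)
      _ = (A ^ (2 * m + 2)) ^ (2 ^ m) * A ^ (2 * m) *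
          ((∑ ab : α × α, SS m (h' ab)) ^ (2 ^ m) * (A * A)) := by
          rw [mul_pow]; ring
      _ ≤ (A ^ (2 * m + 2)) ^ (2 ^ m) * A ^ (2 * m) *
          ((A * A) ^ (2 ^ m) * ∑ ab : α × α, SS m (h' ab) ^ (2 ^ m)) :=
          mul_le_mul_of_nonneg_left hpm (by positivity)
      _ = (A ^ (2 * m + 2)) ^ (2 ^ m) * (A * A) ^ (2 ^ m) *
          ∑ ab : α × α, SS m (h' ab) ^ (2 ^ m) * A ^ (2 * m) := by
          rw [← Finset.sum_mul]; ring
      _ ≤ (A ^ (2 * m + 2)) ^ (2 ^ m) * (A * A) ^ (2 ^ m) *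
          ∑ ab : α × α, (A ^ (2 * m)) ^ (2 ^ m) * SS m (fun _ => h' ab (Fin.tail U0)) :=
          mul_le_mul_of_nonneg_left (Finset.sum_le_sum fun ab _ => hih ab) (by positivity)
      _ = (A ^ (2 * (m + 1))) ^ (2 ^ (m + 1)) *
          ∑ ab : α × α, SS m (fun _ => h' ab (Fin.tail U0)) := by
          rw [← Finset.mul_sum, ← mul_assoc]
          congr 1
          have h2 : A ^ (2 * m + 2) * (A * A) * A ^ (2 * m) = (A ^ (2 * (m + 1))) ^ 2 := by ring
          rw [← mul_pow, ← mul_pow, h2, ← pow_mul, pow_succ 2 m, mul_comm 2 (2 ^ m)]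

end Box

end Pool.Agent.SprF
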