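import Pool.Agent.SprF.LocFour

/-!
# The local (uniform) version of universality (MP_3a0658_ag)   (helper21)

For fixed numbers of variables and equations the permutations `v`, `w` are fixed, and every entry of
the matrix `X` depends on one equation only.
-/

set_option autoImplicit false

namespace Pool.Agent.SprF

open Pool.Agent.SprJ hiding S_Lay S_Tr S_An S_Cur S_Pts Lay_ex

section Loc

variable {N M : ℕ}

/-- gate systems -/
abbrev Gt (N M : ℕ) : Type := Fin M → Bool × Fin N × Fin N × Fin N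

lemma OSx (G : Gt N M) (one : Fin N) (K : Type) [Field K] :
    OSol K (OSenc.sY G) (OSenc.sZ G) (OSenc.Sg G one) ↔ GSol K G one := by
  constructor
  · exact OSenc.forward G one
  · rintro ⟨x, h1, h2⟩
    let ζ : OSenc.Nd N M → K := fun c => match c with
      | Sum.inl i => x i
      | Sum.inr (g, 0) => x (G g).2.1
      | Sum.inr (g, 1) => x (G g).2.2.1
      | Sum.inr (g, 2) => x (G g).2.2.2
    refine OSenc.backward G one ζ h1 ?_ ?_
    · intro g s hs
      fin_cases s
      · rfl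
      · rfl
      · rfl
      · simp at hs
      · simp at hs
    · intro g
      exact h2 g

lemma loc_e2 {G G' : Gt N M} {g : Fin M} (h : G g = G' g) (s : Fin 5) :
    OSenc.e2 G g s = OSenc.e2 G' g s := by
  fin_cases s <;> simp [OSenc.e2, h]

/-- `F G` depends on at most one equation of `G` -/
def Loc1 {α : Type*} (F : Gt N M → α) : Prop :=
  ∃ T : Finset (Fin M), T.card ≤ 1 ∧ ∀ G G' : Gt N M, (∀ g ∈ T, G g = G' g) → F G = F G'

lemma loc_const {α : Type*} {F : Gt N M → α} (h : ∀ G G', F G = F G') : Loc1 F :=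
  ⟨∅, by simp, fun G G' _ => h G G'⟩

lemma loc_at {α : Type*} {F : Gt N M → α} (g : Fin M) (h : ∀ G G', G g = G' g → F G = F G') :
    Loc1 F :=
  ⟨{g}, by simp, fun G G' hG => h G G' (hG g (Finset.mem_singleton_self g))⟩

lemma Loc1.comp {α β : Type*} {F : Gt N M → α} (h : Loc1 F) (f : α → β) :
    Loc1 fun G => f (F G) := by
  obtain ⟨T, hT, h⟩ := h
  exact ⟨T, hT, fun G G' hG => congrArg f (h G G' hG)⟩

lemma loc_sY (i : OSenc.Ix N M) (y : OSenc.Cx N M) : Loc1 fun G : Gt N M => OSenc.sY G i y := by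
  cases i
  case uu g s => exact loc_at g fun G G' h => by simp only [OSenc.sY, loc_e2 h]
  case e g s => exact loc_at g fun G G' h => by simp only [OSenc.sY, loc_e2 h]
  all_goals exact loc_const fun _ _ => rfl

lemma loc_sZ (i : OSenc.Ix N M) (y : OSenc.Cx N M) : Loc1 fun G : Gt N M => OSenc.sZ G i y := by
  cases i
  case uu g s => exact loc_at g fun G G' h => by simp only [OSenc.sZ, loc_e2 h]
  case e g s => exact loc_at g fun G G' h => by simp only [OSenc.sZ, loc_e2 h]
  all_goals exact loc_const fun _ _ => rfl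

lemma loc_Sg (one : Fin N) (i j : OSenc.Ix N M) :
    Loc1 fun G : Gt N M => OSenc.Sg G one i j := by
  cases i
  case uu g s =>
    cases j
    case l c => exact loc_at g fun G G' h => by simp only [OSenc.Sg, loc_e2 h]
    all_goals exact loc_const fun _ _ => rfl
  case z =>
    cases j
    case ad g => exact loc_at g fun G G' h => by simp only [OSenc.Sg, h]
    case nn g => exact loc_at g fun G G' h => by simp only [OSenc.Sg, h]
    all_goals exact loc_const fun _ _ => rfl
  all_goals cases j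
  all_goals exact loc_const fun _ _ => rfl

lemma bound4q {A p q P c n : ℕ} (hA : 1 ≤ A) (hp : p ≤ 25 * A) (hq : q ≤ 3 * A) (hP : P = p + q)
    (hc : c = q + 2 * (P * P)) (hn : n = (2 + 2) * (3 * P + c)) : n ≤ 7000 * A ^ 2 := by
  have h1 : P ≤ 28 * A := by omega
  have h2 : P * P ≤ (28 * A) * (28 * A) := Nat.mul_le_mul h1 h1
  have h3 : A ≤ A * A := Nat.le_mul_of_pos_left A hA
  have h4 : (28 * A) * (28 * A) = 784 * (A * A) := by ring
  have h5 : A ^ 2 = A * A := by ring
  rw [h5, hn]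
  omega

/-- **local universality for Jordan blocks of size four** -/
theorem locMain (N M : ℕ) (one : Fin N) :
    ∃ (n r : ℕ) (v w : Equiv.Perm (Fin n)) (ε : Gt N M → (Fin 4 × Fin r ≃ Fin n)),
      n ≤ 7000 * (N + M + 1) ^ 2 ∧ (w⁻¹ * v) ^ 2 = 1 ∧
      (∀ i j, ∃ T : Finset (Fin M), T.card ≤ 1 ∧ ∀ G G' : Gt N M, (∀ g ∈ T, G g = G' g) →
        ∀ (K : Type) [Field K], jordan K (ε G) i j = jordan K (ε G') i j) ∧
      ∀ (G : Gt N M) (K : Type) [Field K] [Infinite K],
        (∀ i j, j ≤ i → jordan K (ε G) i j = 0) ∧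
        InSpringer (jordan K (ε G)) (perm K v) ∧ InSpringer (jordan K (ε G)) (perm K w) ∧
        (InClosure (jordan K (ε G)) v w ↔ GSol K G one) := by
  classical
  let p := Fintype.card (OSenc.Ix N M)
  let q := Fintype.card (OSenc.Cx N M)
  let eI : OSenc.Ix N M ≃ Fin p := Fintype.equivFin _
  let eC : OSenc.Cx N M ≃ Fin q := Fintype.equivFin _
  have hp : p = 3 * N + 25 * M + 1 := OSenc.Ix.card N M
  have hq : q = N + 3 * M + 1 := by
    show Fintype.card (OSenc.Cx N M) = _
    simp only [OSenc.Cx, OSenc.Nd, Fintype.card_option, Fintype.card_sum, Fintype.card_prod,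
      Fintype.card_fin]
    ring
  let e : Fin p ⊕ Fin q ≃ Fin (p + q) := finSumFinEquiv
  let T : Gt N M → Fin p ⊕ Fin q → Fin p ⊕ Fin q → Prop := fun G =>
    SgF (fun i x => OSenc.sY G (eI.symm i) (eC.symm x))
      (fun i x => OSenc.sZ G (eI.symm i) (eC.symm x))
      (fun i j => OSenc.Sg G one (eI.symm i) (eI.symm j))
  let S : Gt N M → Fin (p + q) → Fin (p + q) → Prop := fun G i j => T G (e.symm i) (e.symm j)
  let on : Gt N M → Fin (p + q) → Fin (p + q) → Prop := fun G i j => i ≠ j ∧ ¬ S G i j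
  have hloc : ∀ i j, Loc1 fun G => on G i j := by
    intro i j
    have : Loc1 fun G => T G (e.symm i) (e.symm j) := by
      rcases e.symm i with i | x <;> rcases e.symm j with j | y
      · exact loc_Sg one _ _
      · exact (loc_sY (eI.symm i) (eC.symm y)).comp Not
      · exact (loc_sZ (eI.symm j) (eC.symm x)).comp Not
      · exact loc_const fun _ _ => rfl
    exact this.comp fun A => i ≠ j ∧ ¬ A
  let V0 := fourq (act0 (P := p + q)) q
  let V : (G : Gt N M) → LevF (sYq (actOf (on G)) q) (sZq (P := p + q) q) (fun _ _ => True) 2 2 :=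
    fun G => fourq (actOf (on G)) q
  obtain ⟨L0⟩ := Lay_ex (Fin (p + q)) (Cq (p + q) q) _ _ _ 2 2
    ((2 + 2) * (3 * (p + q) + Fintype.card (Cq (p + q) q))) V0 (by simp only [Fintype.card_fin])
  let L : (G : Gt N M) → LayF (V G) _ := fun G =>
    locLay L0 (V G) (tauq (on G) q) (compat_tauq _ _) (rkq_tauq _ _)
  have hLv : ∀ G, (L G).v = L0.v := fun G => locLay_v _ _ _ _ _
  have hLw : ∀ G, (L G).w = L0.w := fun G => locLay_w _ _ _ _ _
  let tb : Lb (Fin (p + q)) (Cq (p + q) q) ≃
      Fin (Fintype.card (Lb (Fin (p + q)) (Cq (p + q) q))) := Fintype.equivFin _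
  have htau : ∀ (t : Fin (2 + 2)) (x : Lb (Fin (p + q)) (Cq (p + q) q)), (t : ℕ) = 2 →
      Loc1 fun G => tauq (on G) q t x := by
    intro t x ht
    rcases x with i | (x | ⟨i, j, b⟩) | i | i
    · exact loc_const fun G G' => by simp [tauq, ht]
    · exact loc_const fun G G' => by simp [tauq, ht, flip]
    · obtain ⟨T, hT, h⟩ := hloc i j
      refine ⟨T, hT, fun G G' hG => ?_⟩
      have h1 : on G i j = on G' i j := h G G' hG
      simp [tauq, ht, flip, h1]
    · exact loc_const fun G G' => by simp [tauq, ht]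
    · exact loc_const fun G G' => by simp [tauq, ht]
  have htau' : ∀ (t : Fin (2 + 2)) (x : Lb (Fin (p + q)) (Cq (p + q) q)), (t : ℕ) ≠ 2 →
      ∀ G : Gt N M, tauq (on G) q t x = x := by
    intro t x ht G
    simp [tauq, ht]
  refine ⟨_, _, L0.v, L0.w, fun G => (L G).eps tb, ?_, ?_, ?_, ?_⟩
  · exact bound4q (A := N + M + 1) (by omega) (by omega) (by omega) rfl (card_Cq (p + q) q) rfl
  · exact (Pts (Fin (p + q)) (Cq (p + q) q) _ _ _ 2 2 _ _ V0 L0 tb ℚ).1
  · intro i j
    set a := L0.idx.symm i with ha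
    set b := L0.idx.symm j with hb
    have hX : ∀ (G : Gt N M) (K : Type) [Field K], jordan K ((L G).eps tb) i j =
        if (a.1 : ℕ) + 1 = (b.1 : ℕ) ∧ tauq (on G) q a.1 a.2 = tauq (on G) q b.1 b.2
        then 1 else 0 := by
      intro G K _
      simp only [jordan, Matrix.of_apply, L, locLay_eps_symm, ← ha, ← hb,
        EmbeddingLike.apply_eq_iff_eq]
    by_cases hab : (a.1 : ℕ) + 1 = (b.1 : ℕ)
    · by_cases ha2 : (a.1 : ℕ) = 2
      · obtain ⟨T, hT, h⟩ := htau a.1 a.2 ha2
        refine ⟨T, hT, fun G G' hG K _ => ?_⟩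
        have h' : tauq (on G) q a.1 a.2 = tauq (on G') q a.1 a.2 := h G G' hG
        rw [hX, hX, h', htau' b.1 b.2 (by omega), htau' b.1 b.2 (by omega)]
      · by_cases hb2 : (b.1 : ℕ) = 2
        · obtain ⟨T, hT, h⟩ := htau b.1 b.2 hb2
          refine ⟨T, hT, fun G G' hG K _ => ?_⟩
          have h' : tauq (on G) q b.1 b.2 = tauq (on G') q b.1 b.2 := h G G' hG
          rw [hX, hX, h', htau' a.1 a.2 ha2, htau' a.1 a.2 ha2]
        · refine ⟨∅, by simp, fun G G' hG K _ => ?_⟩
          rw [hX, hX, htau' a.1 a.2 ha2, htau' a.1 a.2 ha2, htau' b.1 b.2 hb2, htau' b.1 b.2 hb2]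
    · refine ⟨∅, by simp, fun G G' _ K _ => ?_⟩
      rw [hX, hX, if_neg (fun h => hab h.1), if_neg (fun h => hab h.1)]
  · intro G K _ _
    obtain ⟨-, h1, h2, h3⟩ := Pts (Fin (p + q)) (Cq (p + q) q) _ _ _ 2 2 _ _ (V G) (L G) tb K
    rw [hLv] at h2
    rw [hLw] at h3
    refine ⟨h1, h2, h3, ?_⟩
    have key : OSol K (sYq (actOf (on G)) q) (sZq (P := p + q) q) (fun _ _ => True) ↔
        GSol K G one :=
      (privq_iff (S G) q K).trans ((OSol_equiv (K := K) e (Equiv.refl (Fin q)) (fun _ _ => True)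
        (fun _ _ => True) (T G)).trans ((full_iff K _ _ _).trans
          ((OSol_equiv eI eC _ _ _).trans (OSx G one K))))
    rw [← key, ← hLv G, ← hLw G]
    constructor
    · intro h
      obtain ⟨U, Z, a1, a2, a3, a4, a5⟩ := Tr (Fin (p + q)) (Cq (p + q) q) _ _ _ 2 2 _ _ (V G)
        (L G) tb K h
      exact An (Fin (p + q)) (Cq (p + q) q) _ _ _ 2 2 _ (V G) (L G) K (by norm_num) (by norm_num)
        U Z a1 a2 a3 a4 a5
    · intro h
      exact Cur (Fin (p + q)) (Cq (p + q) q) _ _ _ 2 2 _ _ (V G) (L G) tb K h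

end Loc

end Pool.Agent.SprF
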