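import Pool.Agent.SprF.LocGip
import Pool.Agent.SprF.LocMain

/-!
# Polynomial inequalities of bounded degree in the entries of `X` (MP_3a0658_ag)   (helper21)

Every system of polynomial inequalities of degree at most `D` in the entries of `X` which decides
whether `vB` is in the closure, for fixed `v`, `w` and all `X` in Jordan form with blocks of size four,
is exponentially large.
-/

set_option autoImplicit false

namespace Pool.Agent.SprF

open Pool.Agent.SprJ hiding S_Lay S_Tr S_An S_Cur S_Pts Lay_ex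

open Box

section Vanish

lemma sgn_eq {m : ℕ} (U : Fin m → Bool) : sgn U = 1 ∨ sgn U = -1 := by
  unfold sgn
  have : ∀ s : Finset (Fin m), (∏ i ∈ s, if U i then (-1 : ℝ) else 1) = 1 ∨
      (∏ i ∈ s, if U i then (-1 : ℝ) else 1) = -1 := by
    intro s
    induction s using Finset.induction_on with
    | empty => left; simp
    | insert a s ha ih =>
      rw [Finset.prod_insert ha]
      by_cases h1 : U a <;> rcases ih with h2 | h2 <;> rw [h2] <;> simp [h1]
  exact this _

lemma sgn_update {m : ℕ} (U : Fin m → Bool) (i : Fin m) :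
    sgn (Function.update U i (!U i)) = -sgn U := by
  unfold sgn
  rw [← Finset.mul_prod_erase Finset.univ _ (Finset.mem_univ i),
    ← Finset.mul_prod_erase Finset.univ (fun i => if U i then (-1 : ℝ) else 1) (Finset.mem_univ i)]
  have : ∏ x ∈ Finset.univ.erase i, (if Function.update U i (!U i) x then (-1 : ℝ) else 1) =
      ∏ x ∈ Finset.univ.erase i, (if U x then (-1 : ℝ) else 1) := by
    refine Finset.prod_congr rfl fun x hx => ?_
    rw [Function.update_of_ne (Finset.ne_of_mem_erase hx)]
  rw [this, Function.update_self]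
  cases U i <;> simp

/-- alternating sums over the vertices of a box vanish in degree less than the dimension -/
theorem vanish {ι α : Type} {m D : ℕ} (hm : m = D + 1) (X : (Fin m → α) → ι → ℝ)
    (hX : ∀ p, ∃ u, ∀ b b' : Fin m → α, b u = b' u → X b p = X b' p)
    (P : MvPolynomial ι ℝ) (hP : P.totalDegree ≤ D) (x y : Fin m → α) :
    ∑ U, sgn U * MvPolynomial.eval (X (mix x y U)) P = 0 := by
  classical
  choose u hu using hX
  simp only [MvPolynomial.eval_eq, Finset.mul_sum]
  rw [Finset.sum_comm]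
  refine Finset.sum_eq_zero fun d hd => ?_
  have hcard : d.support.card ≤ D := by
    refine le_trans ?_ ((MvPolynomial.le_totalDegree hd).trans hP)
    unfold Finsupp.sum
    rw [Finset.card_eq_sum_ones]
    exact Finset.sum_le_sum fun i hi => Nat.one_le_iff_ne_zero.2 (Finsupp.mem_support_iff.1 hi)
  obtain ⟨i, hi⟩ : ∃ i : Fin m, i ∉ d.support.image u := by
    by_contra h
    push Not at h
    have h1 : (Finset.univ : Finset (Fin m)) ⊆ d.support.image u := fun i _ => h i
    have h2 := Finset.card_le_card h1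
    rw [Finset.card_univ, Fintype.card_fin] at h2
    have h3 := Finset.card_image_le (s := d.support) (f := u)
    omega
  refine Finset.sum_involution (fun U _ => Function.update U i (!U i)) ?_ ?_ ?_ ?_
  · intro U _
    have h1 : ∀ p ∈ d.support, X (mix x y (Function.update U i (!U i))) p = X (mix x y U) p := by
      intro p hp
      apply hu
      have hne : u p ≠ i := fun h => hi (Finset.mem_image.2 ⟨p, hp, h⟩)
      unfold mix
      rw [Function.update_of_ne hne]
    have h2 : ∏ p ∈ d.support, X (mix x y (Function.update U i (!U i))) p ^ d p =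
        ∏ p ∈ d.support, X (mix x y U) p ^ d p :=
      Finset.prod_congr rfl fun p hp => by rw [h1 p hp]
    rw [h2, sgn_update]
    ring
  · intro U _ _ h
    have := congrFun h i
    rw [Function.update_self] at this
    cases hU : U i <;> simp [hU] at this
  · intro U _
    exact Finset.mem_univ _
  · intro U _
    rw [Function.update_idem, Function.update_self, Bool.not_not, Function.update_eq_self]

/-- one inequality of degree at most `D` excludes few points -/
theorem few {ι : Type} (D m κ j t : ℕ) (hm : m = D + 1) (hj : j = 2 ^ m * (κ + 1) + 2 ^ m + m)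
    (ht : t = 2 ^ D * (2 ^ m * j)) (X : (Fin m → Fin t → Bool) → ι → ℝ)
    (hX : ∀ p, ∃ u, ∀ b b' : Fin m → Fin t → Bool, b u = b' u → X b p = X b' p)
    (P : MvPolynomial ι ℝ) (hP : P.totalDegree ≤ D)
    (hpos : ∀ b, chi b = -1 → 0 ≤ MvPolynomial.eval (X b) P)
    (S : Finset (Fin m → Fin t → Bool)) (hS : ∀ b ∈ S, MvPolynomial.eval (X b) P < 0) :
    (S.card : ℝ) ≤ ((2 : ℝ) ^ t) ^ m * (1 / 2) ^ (κ + 1) := by
  apply density D m κ j t hm hj ht S
  intro x y hbad
  have h0 := vanish hm X hX P hP x y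
  have hterm : ∀ U, 0 ≤ sgn U * MvPolynomial.eval (X (mix x y U)) P := by
    intro U
    rcases sgn_eq U with h | h
    · rw [h, one_mul]
      exact hpos _ ((hbad U).2 (by rw [h]; norm_num))
    · rw [h]
      have := hS _ ((hbad U).1 h)
      linarith
  let U1 : Fin m → Bool := Function.update (fun _ => false) ⟨0, by omega⟩ true
  have hU1 : sgn U1 = -1 := by
    have h1 := sgn_update (fun _ : Fin m => false) ⟨0, by omega⟩
    have h2 : sgn (fun _ : Fin m => false) = 1 := by simp [sgn]
    rw [h2] at h1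
    exact h1
  have hlt : 0 < sgn U1 * MvPolynomial.eval (X (mix x y U1)) P := by
    rw [hU1]
    have := hS _ ((hbad U1).1 hU1)
    linarith
  have := Finset.sum_pos' (fun U _ => hterm U) ⟨U1, Finset.mem_univ _, hlt⟩
  rw [h0] at this
  exact lt_irrefl _ this

end Vanish

section Gip

variable {m t : ℕ}

/-- variables -/
abbrev Nu (m t : ℕ) : Type :=
  Option ((Fin m × Fin t) ⊕ ((Fin (m + 1) × Fin t) ⊕ (Fin (t + 1) ⊕ (Fin 3 × Fin t))))

/-- equations -/
abbrev Mu (m t : ℕ) : Type :=
  (Fin m × Fin t) ⊕ ((Fin m × Fin t) ⊕ (Fin t ⊕ ((Fin 4 × Fin t) ⊕ Bool)))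

/-- the bit `(i, l)` -/
def vy (i : Fin m) (l : Fin t) : Nu m t := some (.inl (i, l))
/-- the product of the first `i` bits of column `l` -/
def vp (i : Fin (m + 1)) (l : Fin t) : Nu m t := some (.inr (.inl (i, l)))
/-- the parity of the first `l` products -/
def vs (l : Fin (t + 1)) : Nu m t := some (.inr (.inr (.inl l)))
/-- auxiliary variables -/
def vq (c : Fin 3) (l : Fin t) : Nu m t := some (.inr (.inr (.inr (c, l))))

/-- the gate system of the generalised inner product -/
def gipG (b : Fin m → Fin t → Bool) : Mu m t → Bool × Nu m t × Nu m t × Nu m t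
  | .inl (i, l) => if b i l then (true, none, none, vy i l) else (false, vy i l, vy i l, vy i l)
  | .inr (.inl (i, l)) => (true, vp i.castSucc l, vy i l, vp i.succ l)
  | .inr (.inr (.inl l)) => (true, none, none, vp 0 l)
  | .inr (.inr (.inr (.inl (c, l)))) => match c with
    | 0 => (true, vs l.castSucc, vp (Fin.last m) l, vq 0 l)
    | 1 => (false, vs l.castSucc, vp (Fin.last m) l, vq 1 l)
    | 2 => (false, vq 0 l, vq 0 l, vq 2 l)
    | 3 => (false, vq 2 l, vs l.succ, vq 1 l)
  | .inr (.inr (.inr (.inr false))) => (false, vs 0, vs 0, vs 0)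
  | .inr (.inr (.inr (.inr true))) => (true, none, none, vs (Fin.last t))

/-- the first `k` bits of column `l` are true -/
def pb (b : Fin m → Fin t → Bool) (l : Fin t) (k : ℕ) : Bool :=
  decide (∀ i : Fin m, (i : ℕ) < k → b i l = true)

/-- parity of the first `k` products -/
def sb (b : Fin m → Fin t → Bool) : ℕ → Bool
  | 0 => false
  | k + 1 => if h : k < t then xor (sb b k) (pb b ⟨k, h⟩ m) else sb b k

lemma pb_zero (b : Fin m → Fin t → Bool) (l : Fin t) : pb b l 0 = true := by
  simp [pb]

lemma pb_succ (b : Fin m → Fin t → Bool) (l : Fin t) (i : Fin m) :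
    pb b l ((i : ℕ) + 1) = (pb b l i && b i l) := by
  rw [Bool.eq_iff_iff, Bool.and_eq_true]
  unfold pb
  rw [decide_eq_true_iff, decide_eq_true_iff]
  constructor
  · intro h
    exact ⟨fun i' hi' => h i' (by omega), h i (by omega)⟩
  · rintro ⟨h1, h2⟩ i' hi'
    rcases Nat.lt_succ_iff_lt_or_eq.1 hi' with h | h
    · exact h1 i' h
    · rw [Fin.ext h]; exact h2

lemma sb_succ (b : Fin m → Fin t → Bool) (l : Fin t) :
    sb b ((l : ℕ) + 1) = xor (sb b l) (pb b l m) := by
  show (if h : (l : ℕ) < t then xor (sb b l) (pb b ⟨l, h⟩ m) else sb b l) = _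
  rw [dif_pos l.2]

/-- named gate systems -/
def NSol (K : Type) [Field K] {ν μ : Type} (G : μ → Bool × ν × ν × ν) (one : ν) : Prop :=
  ∃ x : ν → K, x one = 1 ∧ ∀ g, if (G g).1 then x (G g).2.1 * x (G g).2.2.1 = x (G g).2.2.2
    else x (G g).2.1 + x (G g).2.2.1 = x (G g).2.2.2

/-- bits as field elements -/
def bf (K : Type) [Field K] (c : Bool) : K := if c then 1 else 0

lemma bf_xor (K : Type) [Field K] (c d : Bool) :
    bf K (xor c d) = bf K c + bf K d - (bf K c * bf K d + bf K c * bf K d) := by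
  cases c <;> cases d <;> simp [bf]

lemma bf_and (K : Type) [Field K] (c d : Bool) : bf K (c && d) = bf K c * bf K d := by
  cases c <;> cases d <;> simp [bf]

theorem gipG_sol (b : Fin m → Fin t → Bool) (K : Type) [Field K] :
    NSol K (gipG b) none ↔ sb b t = true := by
  constructor
  · rintro ⟨x, h1, hg⟩
    have hy : ∀ i l, x (vy i l) = bf K (b i l) := by
      intro i l
      have h := hg (.inl (i, l))
      simp only [gipG] at h
      by_cases hb : b i l
      · simp only [hb, if_true] at h
        rw [h1, one_mul] at h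
        rw [hb, ← h]; rfl
      · simp only [hb, Bool.false_eq_true, if_false] at h
        have h2 : x (vy i l) = 0 := by linear_combination h
        rw [h2]; simp [bf, hb]
    have hp : ∀ l (i : Fin (m + 1)), x (vp i l) = bf K (pb b l i) := by
      intro l i
      induction i using Fin.induction with
      | zero =>
        have h := hg (.inr (.inr (.inl l)))
        simp only [gipG, if_true] at h
        rw [h1, one_mul] at h
        rw [← h]
        simp [pb_zero, bf]
      | succ i ih =>
        have h := hg (.inr (.inl (i, l)))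
        simp only [gipG, if_true] at h
        rw [ih, hy] at h
        rw [← h, Fin.val_succ, pb_succ, bf_and, Fin.val_castSucc]
    have hs : ∀ l : Fin (t + 1), x (vs l) = bf K (sb b l) := by
      intro l
      induction l using Fin.induction with
      | zero =>
        have h := hg (.inr (.inr (.inr (.inr false))))
        simp only [gipG, Bool.false_eq_true, if_false] at h
        have h2 : x (vs 0) = 0 := by linear_combination h
        rw [h2]; simp [bf, sb]
      | succ l ih =>
        have e0 := hg (.inr (.inr (.inr (.inl (0, l)))))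
        have e1 := hg (.inr (.inr (.inr (.inl (1, l)))))
        have e2 := hg (.inr (.inr (.inr (.inl (2, l)))))
        have e3 := hg (.inr (.inr (.inr (.inl (3, l)))))
        simp only [gipG, if_true, Bool.false_eq_true, if_false] at e0 e1 e2 e3
        rw [hp, ih, Fin.val_castSucc, Fin.val_last] at e0 e1
        rw [Fin.val_succ, sb_succ, bf_xor]
        linear_combination e3 - e1 + e2 + 2 * e0
    have hl := hg (.inr (.inr (.inr (.inr true))))
    simp only [gipG, if_true] at hl
    rw [h1, one_mul, hs, Fin.val_last] at hl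
    by_contra h
    rw [Bool.not_eq_true] at h
    rw [h] at hl
    simp [bf] at hl
  · intro hsb
    refine ⟨fun v => match v with
      | none => 1
      | some (.inl (i, l)) => bf K (b i l)
      | some (.inr (.inl (i, l))) => bf K (pb b l i)
      | some (.inr (.inr (.inl l))) => bf K (sb b l)
      | some (.inr (.inr (.inr (c, l)))) => match c with
        | 0 => bf K (sb b l) * bf K (pb b l m)
        | 1 => bf K (sb b l) + bf K (pb b l m)
        | 2 => bf K (sb b l) * bf K (pb b l m) + bf K (sb b l) * bf K (pb b l m), rfl, ?_⟩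
    intro g
    rcases g with ⟨i, l⟩ | ⟨i, l⟩ | l | ⟨c, l⟩ | c
    · by_cases hb : b i l
      · simp [gipG, hb, vy, bf]
      · simp [gipG, hb, vy, bf]
    · simp only [gipG, if_true, vp, vy, Fin.val_castSucc, Fin.val_succ]
      rw [pb_succ, bf_and]
    · simp [gipG, vp, pb_zero, bf]
    · fin_cases c
      · simp [gipG, vs, vp, vq]
      · simp [gipG, vs, vp, vq]
      · simp [gipG, vq]
      · simp only [gipG, vs, vq, Bool.false_eq_true, if_false, Fin.val_succ]
        rw [sb_succ, bf_xor]
        ring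
    · cases c
      · simp [gipG, vs, sb, bf]
      · simp [gipG, vs, hsb, bf]

lemma chi_sb (b : Fin m → Fin t → Bool) : chi b = if sb b t then -1 else 1 := by
  let g : ℕ → ℝ := fun k => if h : k < t then cc (fun i => b i ⟨k, h⟩) else 1
  have h1 : chi b = ∏ k ∈ Finset.range t, g k := by
    rw [← Fin.prod_univ_eq_prod_range]
    unfold chi
    refine Finset.prod_congr rfl fun l _ => ?_
    simp [g]
  have h2 : ∀ k, k ≤ t → ∏ k ∈ Finset.range k, g k = if sb b k then -1 else 1 := by
    intro k
    induction k with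
    | zero => intro _; simp [sb]
    | succ k ih =>
      intro hk
      rw [Finset.prod_range_succ, ih (by omega)]
      have hkt : k < t := by omega
      have h3 : g k = if pb b ⟨k, hkt⟩ m then -1 else 1 := by
        simp only [g, hkt, dif_pos]
        unfold cc pb
        have : (∀ i : Fin m, b i ⟨k, hkt⟩ = true) ↔
            (decide (∀ i : Fin m, (i : ℕ) < m → b i ⟨k, hkt⟩ = true) = true) := by
          rw [decide_eq_true_iff]
          exact ⟨fun h i _ => h i, fun h i => h i i.2⟩
        simp only [this]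
      have h4 : sb b (k + 1) = xor (sb b k) (pb b ⟨k, hkt⟩ m) := sb_succ b ⟨k, hkt⟩
      rw [h3, h4]
      cases sb b k <;> cases pb b ⟨k, hkt⟩ m <;> simp
  rw [h1, h2 t le_rfl]

/-- the equation `g` depends on one bit only -/
lemma gipG_loc (hm : 0 < m) (g : Mu m t) : ∃ u : Fin m, ∀ b b' : Fin m → Fin t → Bool,
    b u = b' u → gipG b g = gipG b' g := by
  rcases g with ⟨i, l⟩ | ⟨i, l⟩ | l | ⟨c, l⟩ | c
  · refine ⟨i, fun b b' h => ?_⟩
    simp only [gipG, h]
  · exact ⟨⟨0, hm⟩, fun _ _ _ => rfl⟩
  · exact ⟨⟨0, hm⟩, fun _ _ _ => rfl⟩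
  · exact ⟨⟨0, hm⟩, fun _ _ _ => rfl⟩
  · exact ⟨⟨0, hm⟩, fun b b' _ => by cases c <;> rfl⟩

end Gip

/-- transport of named gate systems -/
lemma NSol_equiv (K : Type) [Field K] {ν μ : Type} {N M : ℕ} (eν : ν ≃ Fin N) (eμ : μ ≃ Fin M)
    (G : μ → Bool × ν × ν × ν) (one : ν) :
    GSol K (fun g => ((G (eμ.symm g)).1, eν (G (eμ.symm g)).2.1, eν (G (eμ.symm g)).2.2.1,
      eν (G (eμ.symm g)).2.2.2)) (eν one) ↔ NSol K G one := by
  constructor
  · rintro ⟨x, h1, h2⟩
    refine ⟨fun v => x (eν v), h1, fun g => ?_⟩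
    have := h2 (eμ g)
    simpa using this
  · rintro ⟨x, h1, h2⟩
    refine ⟨fun v => x (eν.symm v), by simpa using h1, fun g => ?_⟩
    have := h2 (eμ.symm g)
    simpa using this

/-- **systems of polynomial inequalities of bounded degree which decide the closure relation are
large** -/
theorem degMain (D k : ℕ) :
    ∃ (n r : ℕ) (v w : Equiv.Perm (Fin n)), n ≤ (1000 * (D + 1) * 8 ^ (D + 1) * (k + 3)) ^ 2 ∧
      ∀ (K : Type) [Field K] [Infinite K] (s : ℕ) (P : Fin s → MvPolynomial (Fin n × Fin n) ℝ),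
        (∀ l, (P l).totalDegree ≤ D) →
        (∀ ε : Fin 4 × Fin r ≃ Fin n, (∀ i j, j ≤ i → jordan K ε i j = 0) →
          InSpringer (jordan K ε) (perm K v) → InSpringer (jordan K ε) (perm K w) →
          (InClosure (jordan K ε) v w ↔
            ∀ l, 0 ≤ MvPolynomial.eval (fun p => jordan ℝ ε p.1 p.2) (P l))) →
        2 ^ k ≤ s := by
  classical
  obtain ⟨m, hm⟩ : ∃ m, m = D + 1 := ⟨_, rfl⟩
  obtain ⟨j, hj⟩ : ∃ j, j = 2 ^ m * (k + 1) + 2 ^ m + m := ⟨_, rfl⟩
  obtain ⟨t, ht⟩ : ∃ t, t = 2 ^ D * (2 ^ m * j) := ⟨_, rfl⟩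
  have hmpos : 0 < m := by omega
  let eν : Nu m t ≃ Fin (Fintype.card (Nu m t)) := Fintype.equivFin _
  let eμ : Mu m t ≃ Fin (Fintype.card (Mu m t)) := Fintype.equivFin _
  obtain ⟨n, r, v, w, ε, hn, -, hloc, hmain⟩ := locMain (Fintype.card (Nu m t))
    (Fintype.card (Mu m t)) (eν none)
  refine ⟨n, r, v, w, ?_, ?_⟩
  · refine hn.trans ?_
    have hN : Fintype.card (Nu m t) = 2 * (m * t) + 5 * t + 2 := by
      simp only [Nu, Fintype.card_option, Fintype.card_sum, Fintype.card_prod, Fintype.card_fin]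
      ring
    have hM : Fintype.card (Mu m t) = 2 * (m * t) + 5 * t + 2 := by
      simp only [Mu, Fintype.card_sum, Fintype.card_prod, Fintype.card_fin, Fintype.card_bool]
      ring
    have hm2 : m ≤ 2 ^ m := Nat.lt_two_pow_self.le
    have hj1 : j ≤ 2 ^ m * (k + 3) := by rw [hj]; nlinarith
    have hjpos : 0 < j := by rw [hj]; positivity
    have htpos : 0 < t := by rw [ht]; positivity
    have ht1 : 2 * t ≤ 8 ^ m * (k + 3) := by
      have e1 : 2 * t = 2 ^ m * (2 ^ m * j) := by
        rw [ht, hm, pow_succ]; ring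
      have e2 : (8 : ℕ) ^ m = 2 ^ m * (2 ^ m * 2 ^ m) := by
        rw [← mul_pow, ← mul_pow]; norm_num
      rw [e1, e2]
      calc 2 ^ m * (2 ^ m * j) ≤ 2 ^ m * (2 ^ m * (2 ^ m * (k + 3))) :=
            Nat.mul_le_mul_left _ (Nat.mul_le_mul_left _ hj1)
        _ = 2 ^ m * (2 ^ m * 2 ^ m) * (k + 3) := by ring
    have hA : Fintype.card (Nu m t) + Fintype.card (Mu m t) + 1 ≤ 10 * (m * (8 ^ m * (k + 3))) := by
      rw [hN, hM]
      have h1 : t ≤ m * t := Nat.le_mul_of_pos_left t hmpos
      have h2 : m * (2 * t) ≤ m * (8 ^ m * (k + 3)) := Nat.mul_le_mul_left _ ht1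
      have h3 : m * (2 * t) = 2 * (m * t) := by ring
      omega
    have hm' : m = D + 1 := hm
    calc 7000 * (Fintype.card (Nu m t) + Fintype.card (Mu m t) + 1) ^ 2
        ≤ 7000 * (10 * (m * (8 ^ m * (k + 3)))) ^ 2 :=
          Nat.mul_le_mul_left _ (Nat.pow_le_pow_left hA 2)
      _ = 700000 * (m * 8 ^ m * (k + 3)) ^ 2 := by ring
      _ ≤ 1000000 * (m * 8 ^ m * (k + 3)) ^ 2 := Nat.mul_le_mul_right _ (by norm_num)
      _ = (1000 * (D + 1) * 8 ^ (D + 1) * (k + 3)) ^ 2 := by rw [hm']; ring
  · intro K _ _ s P hdeg hcrit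
    let G : (Fin m → Fin t → Bool) → Gt (Fintype.card (Nu m t)) (Fintype.card (Mu m t)) :=
      fun b g => ((gipG b (eμ.symm g)).1, eν (gipG b (eμ.symm g)).2.1,
        eν (gipG b (eμ.symm g)).2.2.1, eν (gipG b (eμ.symm g)).2.2.2)
    let X : (Fin m → Fin t → Bool) → Fin n × Fin n → ℝ := fun b p => jordan ℝ (ε (G b)) p.1 p.2
    have hX : ∀ p, ∃ u, ∀ b b' : Fin m → Fin t → Bool, b u = b' u → X b p = X b' p := by
      intro p
      obtain ⟨T, hT, h⟩ := hloc p.1 p.2
      by_cases hne : T.Nonempty
      · obtain ⟨g0, hg0⟩ := hne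
        obtain ⟨u, hu⟩ := gipG_loc (t := t) hmpos (eμ.symm g0)
        refine ⟨u, fun b b' hb => h (G b) (G b') (fun g hg => ?_) ℝ⟩
        have hgg : g = g0 := Finset.card_le_one.1 hT g hg g0 hg0
        subst hgg
        simp only [G]
        rw [hu b b' hb]
      · rw [Finset.not_nonempty_iff_eq_empty] at hne
        exact ⟨⟨0, hmpos⟩, fun b b' _ => h (G b) (G b') (fun g hg => by simp [hne] at hg) ℝ⟩
    have hiff : ∀ b, chi b = -1 ↔ ∀ l, 0 ≤ MvPolynomial.eval (X b) (P l) := by
      intro b
      obtain ⟨h1, h2, h3, h4⟩ := hmain (G b) K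
      rw [← hcrit _ h1 h2 h3, h4, NSol_equiv K eν eμ (gipG b) none, gipG_sol, chi_sb]
      cases sb b t
      · norm_num
      · simp
    let S : Fin s → Finset (Fin m → Fin t → Bool) := fun l =>
      Finset.univ.filter fun b => MvPolynomial.eval (X b) (P l) < 0
    have hS : ∀ l, ((S l).card : ℝ) ≤ ((2 : ℝ) ^ t) ^ m * (1 / 2) ^ (k + 1) := by
      intro l
      refine few D m k j t hm hj ht X hX (P l) (hdeg l) (fun b hb => (hiff b).1 hb l) (S l) ?_
      intro b hb
      exact (Finset.mem_filter.1 hb).2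
    have hcover : (Finset.univ.filter fun z : Fin m → Fin t → Bool => chi z = 1) ⊆
        Finset.univ.biUnion S := by
      intro z hz
      have hz1 : chi z = 1 := (Finset.mem_filter.1 hz).2
      have hz2 : ¬ ∀ l, 0 ≤ MvPolynomial.eval (X z) (P l) := by
        rw [← hiff, hz1]; norm_num
      push Not at hz2
      obtain ⟨l, hl⟩ := hz2
      exact Finset.mem_biUnion.2 ⟨l, Finset.mem_univ _, Finset.mem_filter.2 ⟨Finset.mem_univ _, hl⟩⟩
    have h1 : ((2 : ℝ) ^ t) ^ m * (1 / 2) ≤
        ((Finset.univ.filter fun z : Fin m → Fin t → Bool => chi z = 1).card : ℝ) := by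
      have := half_le D t
      rw [← hm] at this
      exact this
    have h2 : ((Finset.univ.filter fun z : Fin m → Fin t → Bool => chi z = 1).card : ℝ) ≤
        s * (((2 : ℝ) ^ t) ^ m * (1 / 2) ^ (k + 1)) := by
      have h3 := (Finset.card_le_card hcover).trans Finset.card_biUnion_le
      have h4 : ((Finset.univ.filter fun z : Fin m → Fin t → Bool => chi z = 1).card : ℝ) ≤
          ∑ l, ((S l).card : ℝ) := by exact_mod_cast h3
      refine h4.trans ((Finset.sum_le_sum fun l _ => hS l).trans ?_)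
      simp
    have hApos : 0 < ((2 : ℝ) ^ t) ^ m := by positivity
    have h5 := h1.trans h2
    have h6 : (1 : ℝ) / 2 ≤ s * (1 / 2) ^ (k + 1) := by
      have : ((2 : ℝ) ^ t) ^ m * (1 / 2) ≤ ((2 : ℝ) ^ t) ^ m * (s * (1 / 2) ^ (k + 1)) := by
        refine h5.trans (le_of_eq (by ring))
      exact le_of_mul_le_mul_left this hApos
    have h7 : (2 : ℝ) ^ k ≤ s := by
      have e : (2 : ℝ) ^ (k + 1) * (1 / 2) ^ (k + 1) = 1 := by rw [← mul_pow]; norm_num
      calc (2 : ℝ) ^ k = 2 ^ (k + 1) * (1 / 2) := by rw [pow_succ]; ring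
        _ ≤ 2 ^ (k + 1) * (s * (1 / 2) ^ (k + 1)) := mul_le_mul_of_nonneg_left h6 (by positivity)
        _ = s * (2 ^ (k + 1) * (1 / 2) ^ (k + 1)) := by ring
        _ = s := by rw [e, mul_one]
    exact_mod_cast h7

end Pool.Agent.SprF
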