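import Pool.Agent.SprF.LocDeg

/-!
# Uniform universality of Springer Schubert cells for Jordan blocks of size four (MP_3a0658_ag)
-/

set_option autoImplicit false

namespace Pool.Agent.SprF

open Pool.Agent.SprJ hiding S_Lay S_Tr S_An S_Cur S_Pts Lay_ex

theorem final :
    (∀ (N M : ℕ) (one : Fin N), ∃ (n r : ℕ) (v w : Equiv.Perm (Fin n))
      (ε : (Fin M → Bool × Fin N × Fin N × Fin N) → (Fin 4 × Fin r ≃ Fin n)),
      n ≤ 7000 * (N + M + 1) ^ 2 ∧ (w⁻¹ * v) ^ 2 = 1 ∧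
      (∀ i j, ∃ T : Finset (Fin M), T.card ≤ 1 ∧ ∀ G G', (∀ g ∈ T, G g = G' g) →
        ∀ (K : Type) [Field K], jordan K (ε G) i j = jordan K (ε G') i j) ∧
      ∀ G (K : Type) [Field K] [Infinite K],
        (∀ i j, j ≤ i → jordan K (ε G) i j = 0) ∧
        InSpringer (jordan K (ε G)) (perm K v) ∧ InSpringer (jordan K (ε G)) (perm K w) ∧
        (InClosure (jordan K (ε G)) v w ↔ GSol K G one)) ∧
    (∀ (a b : ℕ) (f : Fin b → MvPolynomial (Fin a) ℤ), ∃ (N M : ℕ)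
      (G : Fin M → Bool × Fin N × Fin N × Fin N) (one : Fin N),
      N + M + 1 ≤ 12 * (1 + ∑ l, (1 + len (f l))) ∧
      ∀ (K : Type) [Field K], GSol K G one ↔
        ∃ x : Fin a → K, ∀ l, MvPolynomial.aeval x (f l) = 0) ∧
    (∀ D k : ℕ, ∃ (n r : ℕ) (v w : Equiv.Perm (Fin n)),
      n ≤ (1000 * (D + 1) * 8 ^ (D + 1) * (k + 3)) ^ 2 ∧
      ∀ (K : Type) [Field K] [Infinite K] (s : ℕ) (P : Fin s → MvPolynomial (Fin n × Fin n) ℝ),
        (∀ l, (P l).totalDegree ≤ D) →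
        (∀ ε : Fin 4 × Fin r ≃ Fin n, (∀ i j, j ≤ i → jordan K ε i j = 0) →
          InSpringer (jordan K ε) (perm K v) → InSpringer (jordan K ε) (perm K w) →
          (InClosure (jordan K ε) v w ↔
            ∀ l, 0 ≤ MvPolynomial.eval (fun p => jordan ℝ ε p.1 p.2) (P l))) →
        2 ^ k ≤ s) :=
  ⟨locMain, GateQ, degMain⟩

end Pool.Agent.SprF
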