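import Pool.Agent.SprF.LocLay

/-!
# Four levels, with switches (MP_3a0658_ag)   (helper21)

Every pair `(i, j)` of vectors has two coordinates `(i, j, false)`, `(i, j, true)`; the second one does
not occur in the second vectors. The switch `act` says which of the two coordinates occurs in the first
vector of index `i`; switching exchanges the two coordinates in the third of the four orders.
-/

set_option autoImplicit false

namespace Pool.Agent.SprF

open Pool.Agent.SprJ hiding S_Lay S_Tr S_An S_Cur S_Pts Lay_ex

section Switch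

variable {P : ℕ} (act : Fin P → Fin P → Bool → Prop)

/-- coordinates: `k` ordinary ones, two for every pair -/
abbrev Cq (P k : ℕ) : Type := Fin k ⊕ (Fin P × Fin P × Bool)

/-- supports of the first vectors -/
def sYq (k : ℕ) (i : Fin P) : Cq P k → Prop
  | .inl _ => True
  | .inr c => act c.1 c.2.1 c.2.2 ∧ c.1 = i

/-- supports of the second vectors -/
def sZq (k : ℕ) (j : Fin P) : Cq P k → Prop
  | .inl _ => True
  | .inr c => c.2.2 = false ∧ c.2.1 = j

open Classical in
/-- the four rank functions -/
noncomputable def rkq (k : ℕ) (t : ℕ) : Lb (Fin P) (Cq P k) → ℕ := match t with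
  | 0 => fun
    | .a _ => 0
    | .c (.inl _) => 2 * P + 2
    | .c (.inr c) => if c.2.2 = false then 2 * (c.2.1 : ℕ) + 2 else 0
    | .c' _ => 2 * P + 2
    | .d j => 2 * (j : ℕ) + 1
  | 1 => fun
    | .a _ => 2 * P + 2
    | .c (.inl _) => 2 * P + 2
    | .c (.inr c) => 2 * (P - (c.2.1 : ℕ)) + 2
    | .c' _ => 2 * P + 2
    | .d j => 2 * (P - (j : ℕ)) + 1
  | 2 => fun
    | .a i => 2 * (i : ℕ) + 2
    | .c (.inl _) => 1
    | .c (.inr c) => if act c.1 c.2.1 c.2.2 then 2 * (c.1 : ℕ) + 1 else 2 * P + 3
    | .c' _ => 2 * P + 3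
    | .d j => 2 * (j : ℕ) + 1
  | _ => fun
    | .a i => 2 * (P - (i : ℕ)) + 2
    | .c (.inl _) => 1
    | .c (.inr c) => 2 * (P - (c.1 : ℕ)) + 1
    | .c' _ => 2 * P + 3
    | .d j => 2 * (P - (j : ℕ)) + 1

/-- four levels with switches -/
noncomputable def fourq (k : ℕ) : LevF (sYq act k) (sZq (P := P) k) (fun _ _ => True) 2 2 where
  h t q := rkq act k t q
  ne := by
    intro t p q
    fin_cases t <;>
    · rcases p with i | (x | c) | i | i <;> rcases q with j | (y | c'') | j | j <;>
        simp [piv, ty, rkq] <;> (try split_ifs) <;> (try omega) <;> exact not_false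
  h2 := by
    intro t ht p q hp hq hlt
    fin_cases t
    · rcases p with i | (x | c) | i | i <;> rcases q with j | (y | c'') | j | j <;>
        simp [piv, rkq, cond2, sZq] at hp hq hlt ⊢ <;> (try intro hact) <;>
        (try rw [if_pos hact] at hlt) <;> omega
    · rcases p with i | (x | c) | i | i <;> rcases q with j | (y | c'') | j | j <;>
        simp [piv, rkq, cond2, sZq] at hp hq hlt ⊢ <;> intros <;> omega
    · simp at ht
    · simp at ht
  h1 := by
    intro t ht p q hp hq hlt
    fin_cases t
    · simp at ht
    · simp at ht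
    · rcases p with i | (x | c) | i | i <;> rcases q with j | (y | c'') | j | j <;>
        simp [piv, rkq, cond1, sYq] at hp hq hlt ⊢ <;> (try intro hact) <;>
        (try rw [if_pos hact] at hlt) <;> omega
    · rcases p with i | (x | c) | i | i <;> rcases q with j | (y | c'') | j | j <;>
        simp [piv, rkq, cond1, sYq] at hp hq hlt ⊢ <;> intros <;> omega
  f2 := by
    intro p q h
    rcases p with i | (x | c) | i | i <;> rcases q with j | (y | c'') | j | j <;>
      first | exact (h : False).elim | skip
    · exact ⟨0, by simp, by simp [rkq]⟩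
    · exact absurd trivial h
    · have h1 : ¬ (c.2.2 = false ∧ c.2.1 = j) := h
      by_cases hb : c.2.2 = false
      · have h2 : (c.2.1 : ℕ) ≠ j := fun h' => h1 ⟨hb, Fin.ext h'⟩
        rcases lt_or_gt_of_ne h2 with h3 | h3
        · exact ⟨0, by simp, by simp [rkq, hb]; omega⟩
        · exact ⟨1, by simp, by simp [rkq]; omega⟩
      · exact ⟨0, by simp, by simp [rkq, hb]⟩
  f1 := by
    intro p q h
    rcases p with i | (x | c) | i | i <;> rcases q with j | (y | c'') | j | j <;>
      first | exact (h : False).elim | skip
    · exact absurd trivial h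
    · have h1 : ¬ (act c''.1 c''.2.1 c''.2.2 ∧ c''.1 = i) := h
      by_cases hb : act c''.1 c''.2.1 c''.2.2
      · have h2 : (c''.1 : ℕ) ≠ i := fun h' => h1 ⟨hb, Fin.ext h'⟩
        rcases lt_or_gt_of_ne h2 with h3 | h3
        · exact ⟨3, by simp, by simp [rkq]; omega⟩
        · exact ⟨2, by simp, by simp [rkq, hb]; omega⟩
      · exact ⟨2, by simp, by simp [rkq, hb]⟩
    · exact ⟨2, by simp, by simp [rkq]⟩
    · have h1 : i ≠ j := h
      have h2 : (i : ℕ) ≠ j := fun h' => h1 (Fin.ext h')
      rcases lt_or_gt_of_ne h2 with h3 | h3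
      · exact ⟨2, by simp, by simp [rkq]; omega⟩
      · exact ⟨3, by simp, by simp [rkq]; omega⟩

/-- the number of coordinates -/
lemma card_Cq (P k : ℕ) : Fintype.card (Cq P k) = k + 2 * (P * P) := by
  rw [Fintype.card_sum, Fintype.card_fin, Fintype.card_prod, Fintype.card_prod, Fintype.card_fin,
    Fintype.card_bool]
  ring

/-- the first coordinate of every pair occurs -/
def act0 (_ _ : Fin P) (b : Bool) : Prop := b = false

/-- the first coordinate of the pair `(i, j)` occurs iff `on i j` -/
def actOf (on : Fin P → Fin P → Prop) (i j : Fin P) (b : Bool) : Prop := b = false ↔ on i j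

open Classical in
/-- exchange of the two coordinates of every pair which is off -/
noncomputable def flip (on : Fin P → Fin P → Prop) (k : ℕ) : Equiv.Perm (Cq P k) where
  toFun
    | .inl x => .inl x
    | .inr c => .inr (c.1, c.2.1, if on c.1 c.2.1 then c.2.2 else !c.2.2)
  invFun
    | .inl x => .inl x
    | .inr c => .inr (c.1, c.2.1, if on c.1 c.2.1 then c.2.2 else !c.2.2)
  left_inv x := by
    rcases x with x | ⟨i, j, b⟩
    · rfl
    · by_cases h : on i j <;> simp [h]
  right_inv x := by
    rcases x with x | ⟨i, j, b⟩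
    · rfl
    · by_cases h : on i j <;> simp [h]

/-- the relabellings: only level `2` is relabelled -/
noncomputable def tauq (on : Fin P → Fin P → Prop) (k : ℕ) (t : Fin (2 + 2)) :
    Equiv.Perm (Lb (Fin P) (Cq P k)) :=
  if (t : ℕ) = 2 then rl 1 1 1 (flip on k) else 1

lemma compat_tauq (on : Fin P → Fin P → Prop) (k : ℕ) (t : Fin (2 + 2)) :
    Compat (ty 2 t) (tauq on k t) := by
  unfold tauq
  split_ifs with h
  · exact compat_rl _ _ _ _ _ (fun _ => rfl) (fun _ => rfl)
  · exact compat_one _

lemma rkq_tauq (on : Fin P → Fin P → Prop) (k : ℕ) (t : Fin (2 + 2))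
    (q : Lb (Fin P) (Cq P k)) :
    (fourq (actOf on) k).h t (tauq on k t q) = (fourq (act0 (P := P)) k).h t q := by
  show rkq (actOf on) k t (tauq on k t q) = rkq act0 k t q
  fin_cases t
  · rcases q with i | (x | c) | i | i <;> simp [tauq, rkq]
  · rcases q with i | (x | c) | i | i <;> simp [tauq, rkq]
  · rcases q with i | (x | ⟨i, j, b⟩) | i | i <;> simp [tauq, rkq, flip]
    by_cases h : on i j <;> cases b <;> simp [actOf, act0, h]
  · rcases q with i | (x | c) | i | i <;> simp [tauq, rkq]

theorem privq_iff (Sg : Fin P → Fin P → Prop) (k : ℕ) (K : Type) [Field K] :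
    OSol K (sYq (actOf fun i j => i ≠ j ∧ ¬ Sg i j) k) (sZq (P := P) k) (fun _ _ => True) ↔
      OSol K (fun _ _ => True) (fun _ _ => True) Sg (C := Fin k) := by
  classical
  constructor
  · rintro ⟨Y, Z, hY, hZ, hor, hne⟩
    have h0 : ∀ i j, (i = j ∨ Sg i j) →
        ∑ c : Fin P × Fin P × Bool, Y i (.inr c) * Z j (.inr c) = 0 := by
      intro i j hij
      refine Finset.sum_eq_zero fun c _ => ?_
      by_cases h1 : actOf (fun i j => i ≠ j ∧ ¬ Sg i j) c.1 c.2.1 c.2.2 ∧ c.1 = i
      · by_cases h2 : c.2.2 = false ∧ c.2.1 = j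
        · exfalso
          have h3 := h1.1.1 h2.1
          rw [h1.2, h2.2] at h3
          rcases hij with h | h
          · exact h3.1 h
          · exact h3.2 h
        · rw [hZ j (.inr c) h2, mul_zero]
      · rw [hY i (.inr c) h1, zero_mul]
    refine ⟨fun i x => Y i (.inl x), fun j x => Z j (.inl x), by simp, by simp, ?_, ?_⟩
    · intro i j hij hS
      have h1 := hor i j hij trivial
      rwa [Fintype.sum_sum_type, h0 i j (Or.inr hS), add_zero] at h1
    · intro i
      have h1 := hne i
      rwa [Fintype.sum_sum_type, h0 i i (Or.inl rfl), add_zero] at h1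
  · rintro ⟨Y, Z, -, -, hor, hne⟩
    let A : Fin P → Cq P k → Prop := sYq (actOf fun i j => i ≠ j ∧ ¬ Sg i j) k
    let B : Fin P → Cq P k → Prop := sZq (P := P) k
    refine ⟨fun i x => match x with
      | .inl x => Y i x
      | .inr c => if A i (.inr c) then -∑ x, Y i x * Z c.2.1 x else 0,
      fun j x => match x with
      | .inl x => Z j x
      | .inr c => if B j (.inr c) then 1 else 0, ?_, ?_, ?_, ?_⟩
    · rintro i (x | c) h
      · exact absurd trivial h
      · exact if_neg h
    · rintro j (x | c) h
      · exact absurd trivial h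
      · exact if_neg h
    · intro i j hij _
      rw [Fintype.sum_sum_type]
      show ∑ x, Y i x * Z j x + ∑ c : Fin P × Fin P × Bool,
        (if A i (.inr c) then -∑ x, Y i x * Z c.2.1 x else 0) *
        (if B j (.inr c) then 1 else 0) = 0
      by_cases hS : Sg i j
      · rw [hor i j hij hS, zero_add]
        refine Finset.sum_eq_zero fun c _ => ?_
        by_cases h1 : A i (.inr c)
        · by_cases h2 : B j (.inr c)
          · exfalso
            have h3 := h1.1.1 h2.1
            rw [h1.2, h2.2] at h3
            exact h3.2 hS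
          · rw [if_neg h2, mul_zero]
        · rw [if_neg h1, zero_mul]
      · have hA : A i (.inr (i, j, false)) := ⟨by simp [actOf, hij, hS], rfl⟩
        have hB : B j (.inr (i, j, false)) := ⟨rfl, rfl⟩
        rw [Finset.sum_eq_single (i, j, false)]
        · rw [if_pos hA, if_pos hB]
          simp
        · rintro ⟨i', j', b⟩ _ hne'
          by_cases h1 : A i (.inr (i', j', b))
          · by_cases h2 : B j (.inr (i', j', b))
            · exfalso
              have e1 : i' = i := h1.2
              have e2 : b = false := h2.1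
              have e3 : j' = j := h2.2
              subst e1 e2 e3
              exact hne' rfl
            · rw [if_neg h2, mul_zero]
          · rw [if_neg h1, zero_mul]
        · simp
    · intro i
      rw [Fintype.sum_sum_type]
      show ∑ x, Y i x * Z i x + ∑ c : Fin P × Fin P × Bool,
        (if A i (.inr c) then -∑ x, Y i x * Z c.2.1 x else 0) *
        (if B i (.inr c) then 1 else 0) ≠ 0
      rw [Finset.sum_eq_zero (s := Finset.univ) (f := fun c : Fin P × Fin P × Bool => _) ?_, add_zero]
      · exact hne i
      · intro c _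
        by_cases h1 : A i (.inr c)
        · by_cases h2 : B i (.inr c)
          · exfalso
            have h3 := h1.1.1 h2.1
            rw [h1.2, h2.2] at h3
            exact h3.1 rfl
          · rw [if_neg h2, mul_zero]
        · rw [if_neg h1, zero_mul]

end Switch

end Pool.Agent.SprF
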