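import Pool.Agent.SprF.LocBox

/-!
# The generalised inner product and systems of inequalities of bounded degree
(MP_3a0658_ag)   (helper21)
-/

set_option autoImplicit false

namespace Pool.Agent.SprF

namespace Box

/-- `-1` if all bits are true, `1` otherwise -/
noncomputable def cc {m : ℕ} (z : Fin m → Bool) : ℝ := if ∀ i, z i = true then -1 else 1

lemma cc_sq {m : ℕ} (z : Fin m → Bool) : cc z * cc z = 1 := by
  unfold cc; split_ifs <;> norm_num

lemma cc_true {m : ℕ} (z : Fin m → Bool) : cc (Fin.cons true z : Fin (m + 1) → Bool) = cc z := by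
  unfold cc
  congr 1
  rw [Fin.forall_fin_succ]
  simp

lemma cc_false {m : ℕ} (z : Fin m → Bool) : cc (Fin.cons false z : Fin (m + 1) → Bool) = 1 := by
  unfold cc
  rw [if_neg]
  intro h
  have := h 0
  simp at this

lemma prod_cc_sq {m : ℕ} (x y : Fin m → Bool) :
    (∏ U, cc (mix x y U)) * ∏ U, cc (mix x y U) = 1 := by
  rw [← Finset.prod_mul_distrib]
  exact Finset.prod_eq_one fun U _ => cc_sq _

lemma SS_cc (m : ℕ) : SS (α := Bool) m (fun _ => cc) = 4 ^ m - 2 ^ (m + 1) := by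
  induction m with
  | zero =>
    simp [SS, cc]
    norm_num
  | succ m ih =>
    rw [SS_succ]
    have h1 : ∀ p : (Fin m → Bool) × (Fin m → Bool),
        (∑ a, ∏ U : Fin m → Bool, cc (Fin.cons a (mix p.1 p.2 U) : Fin (m + 1) → Bool)) *
        (∑ a, ∏ U : Fin m → Bool, cc (Fin.cons a (mix p.1 p.2 U) : Fin (m + 1) → Bool)) =
        2 + 2 * ∏ U, cc (mix p.1 p.2 U) := by
      intro p
      rw [Fintype.sum_bool]
      simp only [cc_true, cc_false, Finset.prod_const_one]
      linear_combination prod_cc_sq p.1 p.2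
    rw [Finset.sum_congr rfl fun p _ => h1 p, Finset.sum_add_distrib, ← Finset.mul_sum]
    have h2 : ∑ p : (Fin m → Bool) × (Fin m → Bool), ∏ U, cc (mix p.1 p.2 U) =
        4 ^ m - 2 ^ (m + 1) := ih
    rw [h2]
    simp only [Finset.sum_const, Finset.card_univ, Fintype.card_prod, Fintype.card_fun,
      Fintype.card_bool, Fintype.card_fin, nsmul_eq_mul]
    push_cast
    have h3 : (2 : ℝ) ^ m * 2 ^ m = 4 ^ m := by rw [← mul_pow]; norm_num
    rw [h3]
    ring

/-- sign of the generalised inner product -/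
noncomputable def chi {m t : ℕ} (z : Fin m → Fin t → Bool) : ℝ := ∏ l, cc fun i => z i l

lemma chi_eq {m t : ℕ} (z : Fin m → Fin t → Bool) : chi z = 1 ∨ chi z = -1 := by
  unfold chi
  have : ∀ s : Finset (Fin t), ∏ l ∈ s, cc (fun i => z i l) = 1 ∨ ∏ l ∈ s, cc (fun i => z i l) = -1 := by
    intro s
    classical
    induction s using Finset.induction_on with
    | empty => left; simp
    | insert a s ha ih =>
      rw [Finset.prod_insert ha]
      have : cc (fun i => z i a) = 1 ∨ cc (fun i => z i a) = -1 := by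
        unfold cc; split_ifs <;> simp
      rcases this with h1 | h1 <;> rcases ih with h2 | h2 <;> rw [h1, h2] <;> norm_num
  exact this _

lemma sum_pow_fin {ι : Type} [Fintype ι] (t : ℕ) (f : ι → ℝ) :
    (∑ q, f q) ^ t = ∑ p : Fin t → ι, ∏ l, f (p l) := by
  have := Finset.prod_univ_sum (fun _ : Fin t => (Finset.univ : Finset ι)) (fun _ q => f q)
  rw [Fintype.piFinset_univ] at this
  rw [← this]
  simp

lemma SS_chi (m t : ℕ) : SS (α := Fin t → Bool) m (fun _ => chi) = (4 ^ m - 2 ^ (m + 1)) ^ t := by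
  rw [← SS_cc]
  unfold SS
  rw [sum_pow_fin]
  let e : (Fin t → (Fin m → Bool) × (Fin m → Bool)) ≃
      (Fin m → Fin t → Bool) × (Fin m → Fin t → Bool) :=
    { toFun := fun q => (fun i l => (q l).1 i, fun i l => (q l).2 i)
      invFun := fun p => fun l => (fun i => p.1 i l, fun i => p.2 i l)
      left_inv := fun _ => rfl
      right_inv := fun _ => rfl }
  rw [← e.sum_comp]
  refine Finset.sum_congr rfl fun q _ => ?_
  unfold chi
  rw [Finset.prod_comm]
  refine Finset.prod_congr rfl fun l _ => Finset.prod_congr rfl fun U _ => ?_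
  congr 1
  funext i
  show (mix (e q).1 (e q).2 U i) l = mix (q l).1 (q l).2 U i
  unfold mix
  cases U i <;> rfl

lemma sum_cc (m : ℕ) : ∑ z : Fin m → Bool, cc z = 2 ^ m - 2 := by
  have h : ∀ z : Fin m → Bool, cc z = 1 - if z = fun _ => true then 2 else 0 := by
    intro z
    unfold cc
    by_cases hz : z = fun _ => true
    · subst hz; norm_num
    · rw [if_neg hz, if_neg fun h => hz (funext h)]; norm_num
  rw [Finset.sum_congr rfl fun z _ => h z, Finset.sum_sub_distrib]
  simp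

lemma sum_chi (m t : ℕ) : ∑ z : Fin m → Fin t → Bool, chi z = (2 ^ m - 2) ^ t := by
  rw [← sum_cc, sum_pow_fin, ← (Equiv.piComm fun (_ : Fin t) (_ : Fin m) => Bool).sum_comp]
  rfl

lemma half_pow (D : ℕ) : (1 - 1 / (2 : ℝ) ^ D) ^ (2 ^ D) ≤ 1 / 2 := by
  have hq : (0 : ℝ) < 2 ^ D := by positivity
  have h0 : 0 ≤ 1 - 1 / (2 : ℝ) ^ D := by
    rw [sub_nonneg, div_le_one hq]
    exact one_le_pow₀ (by norm_num)
  have h1 : 1 - 1 / (2 : ℝ) ^ D ≤ Real.exp (-(1 / (2 : ℝ) ^ D)) := by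
    have := Real.add_one_le_exp (-(1 / (2 : ℝ) ^ D))
    linarith
  calc (1 - 1 / (2 : ℝ) ^ D) ^ (2 ^ D) ≤ (Real.exp (-(1 / (2 : ℝ) ^ D))) ^ (2 ^ D) :=
        pow_le_pow_left₀ h0 h1 _
    _ = Real.exp (-1) := by
        rw [← Real.exp_nat_mul]
        congr 1
        push_cast
        field_simp
    _ ≤ 1 / 2 := by
        rw [Real.exp_neg, one_div]
        apply inv_anti₀ (by norm_num)
        have := Real.add_one_le_exp (1 : ℝ)
        linarith

/-- sums with the sign of the generalised inner product at one vertex are small -/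
theorem SS_small (D m j t : ℕ) (hm : m = D + 1) (ht : t = 2 ^ D * (2 ^ m * j))
    (h : (Fin m → Bool) → (Fin m → Fin t → Bool) → ℝ) (hb : ∀ U x, |h U x| ≤ 1)
    (U0 : Fin m → Bool) (hU : h U0 = chi) :
    |SS m h| ≤ ((2 : ℝ) ^ t) ^ (2 * m) * (1 / 2) ^ j := by
  subst hm
  have h1 := gcs (D + 1) h hb U0
  rw [hU, SS_chi] at h1
  have hA : ((Fintype.card (Fin t → Bool) : ℕ) : ℝ) = 2 ^ t := by simp
  rw [hA] at h1
  set B : ℝ := ((2 : ℝ) ^ t) ^ (2 * (D + 1)) with hB
  have hBpos : 0 < B := by positivity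
  have h2 : ((4 : ℝ) ^ (D + 1) - 2 ^ (D + 1 + 1)) ^ t ≤ B * ((1 / 2) ^ j) ^ (2 ^ (D + 1)) := by
    have e1 : (4 : ℝ) ^ (D + 1) - 2 ^ (D + 1 + 1) = 4 ^ (D + 1) * (1 - 1 / 2 ^ D) := by
      have e2 : (4 : ℝ) ^ (D + 1) = 2 ^ (D + 1 + 1) * 2 ^ D := by
        rw [← pow_add, show (4 : ℝ) = 2 ^ 2 by norm_num, ← pow_mul]
        congr 1; ring
      have hq : (2 : ℝ) ^ D ≠ 0 := by positivity
      rw [e2]
      field_simp
    have e3 : ((4 : ℝ) ^ (D + 1)) ^ t = B := by
      rw [hB, show (4 : ℝ) = 2 ^ 2 by norm_num, ← pow_mul, ← pow_mul, ← pow_mul]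
      congr 1; ring
    rw [e1, mul_pow, e3]
    apply mul_le_mul_of_nonneg_left _ hBpos.le
    rw [ht, pow_mul]
    have h0 : 0 ≤ 1 - 1 / (2 : ℝ) ^ D := by
      rw [sub_nonneg, div_le_one (by positivity)]
      exact one_le_pow₀ (by norm_num)
    calc ((1 - 1 / (2 : ℝ) ^ D) ^ (2 ^ D)) ^ (2 ^ (D + 1) * j) ≤ (1 / 2) ^ (2 ^ (D + 1) * j) :=
          pow_le_pow_left₀ (pow_nonneg h0 _) (half_pow D) _
      _ = ((1 / 2) ^ j) ^ (2 ^ (D + 1)) := by rw [← pow_mul, mul_comm]
  have h3 : (SS (D + 1) h) ^ (2 ^ (D + 1)) * B ≤ (B * (1 / 2) ^ j) ^ (2 ^ (D + 1)) * B := by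
    refine h1.trans ?_
    calc B ^ (2 ^ (D + 1)) * (4 ^ (D + 1) - 2 ^ (D + 1 + 1)) ^ t
        ≤ B ^ (2 ^ (D + 1)) * (B * ((1 / 2) ^ j) ^ (2 ^ (D + 1))) :=
          mul_le_mul_of_nonneg_left h2 (by positivity)
      _ = (B * (1 / 2) ^ j) ^ (2 ^ (D + 1)) * B := by rw [mul_pow]; ring
  have h4 : (SS (D + 1) h) ^ (2 ^ (D + 1)) ≤ (B * (1 / 2) ^ j) ^ (2 ^ (D + 1)) :=
    le_of_mul_le_mul_right h3 hBpos
  have hev : Even (2 ^ (D + 1)) := (Nat.even_pow.2 ⟨even_two, by omega⟩)
  rw [← hev.pow_abs] at h4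
  exact (pow_le_pow_iff_left₀ (abs_nonneg _) (by positivity) (by positivity)).1 h4

/-- sign of a vertex -/
noncomputable def sgn {m : ℕ} (U : Fin m → Bool) : ℝ := ∏ i, if U i then -1 else 1

/-- **sets without bad boxes are small** -/
theorem density (D m κ j t : ℕ) (hm : m = D + 1) (hj : j = 2 ^ m * (κ + 1) + 2 ^ m + m)
    (ht : t = 2 ^ D * (2 ^ m * j)) (S : Finset (Fin m → Fin t → Bool))
    (hbox : ∀ x y : Fin m → Fin t → Bool, ¬ ∀ U, (sgn U = -1 → mix x y U ∈ S) ∧
      (sgn U ≠ -1 → chi (mix x y U) = -1)) :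
    (S.card : ℝ) ≤ ((2 : ℝ) ^ t) ^ m * (1 / 2) ^ (κ + 1) := by
  classical
  set B : ℝ := ((2 : ℝ) ^ t) ^ (2 * m) with hB
  have hBpos : 0 < B := by positivity
  let ind : (Fin m → Fin t → Bool) → ℝ := fun z => if z ∈ S then 1 else 0
  have hind0 : ∀ z, 0 ≤ ind z := fun z => by simp only [ind]; split_ifs <;> norm_num
  have hind1 : ∀ z, ind z ≤ 1 := fun z => by simp only [ind]; split_ifs <;> norm_num
  let hW : Finset (Fin m → Bool) → (Fin m → Bool) → (Fin m → Fin t → Bool) → ℝ := fun W U z =>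
    if sgn U = -1 then ind z else if U ∈ W then 1 / 2 else (1 - chi z) / 2
  have hWb : ∀ W U z, |hW W U z| ≤ 1 := by
    intro W U z
    simp only [hW]
    split_ifs
    · rw [abs_of_nonneg (hind0 z)]; exact hind1 z
    · norm_num [abs_of_nonneg]
    · rcases chi_eq z with h | h <;> rw [h] <;> norm_num
  have hstep : ∀ (a : Fin m → Bool) (W : Finset (Fin m → Bool)), a ∉ W →
      |SS m (hW (insert a W)) - SS m (hW W)| ≤ B * (1 / 2) ^ j := by
    intro a W haW
    by_cases hsa : sgn a = -1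
    · have : hW (insert a W) = hW W := by
        funext U z
        simp only [hW]
        by_cases hU : sgn U = -1
        · rw [if_pos hU, if_pos hU]
        · have hUa : U ≠ a := fun h => hU (h ▸ hsa)
          simp [hU, hUa]
      rw [this, sub_self, abs_zero]
      positivity
    · let h'' : (Fin m → Bool) → (Fin m → Fin t → Bool) → ℝ := fun U z =>
        if U = a then chi z else hW W U z
      have hb'' : ∀ U z, |h'' U z| ≤ 1 := by
        intro U z
        simp only [h'']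
        split_ifs
        · rcases chi_eq z with h | h <;> rw [h] <;> norm_num
        · exact hWb W U z
      have hsm := SS_small D m j t hm ht h'' hb'' a (by funext z; simp [h''])
      have heq : SS m (hW (insert a W)) - SS m (hW W) = 1 / 2 * SS m h'' := by
        unfold SS
        rw [← Finset.sum_sub_distrib, Finset.mul_sum]
        refine Finset.sum_congr rfl fun p _ => ?_
        have e1 := Finset.mul_prod_erase Finset.univ
          (fun U => hW (insert a W) U (mix p.1 p.2 U)) (Finset.mem_univ a)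
        have e2 := Finset.mul_prod_erase Finset.univ
          (fun U => hW W U (mix p.1 p.2 U)) (Finset.mem_univ a)
        have e3 := Finset.mul_prod_erase Finset.univ
          (fun U => h'' U (mix p.1 p.2 U)) (Finset.mem_univ a)
        have c1 : ∏ U ∈ Finset.univ.erase a, hW (insert a W) U (mix p.1 p.2 U) =
            ∏ U ∈ Finset.univ.erase a, hW W U (mix p.1 p.2 U) := by
          refine Finset.prod_congr rfl fun U hU => ?_
          have hUa : U ≠ a := Finset.ne_of_mem_erase hU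
          simp [hW, hUa]
        have c3 : ∏ U ∈ Finset.univ.erase a, h'' U (mix p.1 p.2 U) =
            ∏ U ∈ Finset.univ.erase a, hW W U (mix p.1 p.2 U) := by
          refine Finset.prod_congr rfl fun U hU => ?_
          have hUa : U ≠ a := Finset.ne_of_mem_erase hU
          simp [h'', hUa]
        rw [← e1, ← e2, ← e3, c1, c3]
        have v1 : hW (insert a W) a (mix p.1 p.2 a) = 1 / 2 := by simp [hW, hsa]
        have v2 : hW W a (mix p.1 p.2 a) = (1 - chi (mix p.1 p.2 a)) / 2 := by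
          simp [hW, hsa, haW]
        have v3 : h'' a (mix p.1 p.2 a) = chi (mix p.1 p.2 a) := by simp [h'']
        rw [v1, v2, v3]
        ring
      rw [heq, abs_mul]
      have h12 : |(1 : ℝ) / 2| = 1 / 2 := by norm_num
      rw [h12]
      have : 0 ≤ |SS m h''| := abs_nonneg _
      linarith
  have hind : ∀ W : Finset (Fin m → Bool), |SS m (hW W) - SS m (hW ∅)| ≤
      W.card * (B * (1 / 2) ^ j) := by
    intro W
    induction W using Finset.induction_on with
    | empty => simp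
    | insert a W ha ih =>
      rw [Finset.card_insert_of_notMem ha]
      have h1 := hstep a W ha
      have h2 := abs_sub_le (SS m (hW (insert a W))) (SS m (hW W)) (SS m (hW ∅))
      push_cast
      linarith
  have h0 : SS m (hW ∅) = 0 := by
    unfold SS
    refine Finset.sum_eq_zero fun p _ => ?_
    by_contra hne
    apply hbox p.1 p.2
    intro U
    have hU : hW ∅ U (mix p.1 p.2 U) ≠ 0 := fun h => hne (Finset.prod_eq_zero (Finset.mem_univ U) h)
    constructor
    · intro hs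
      by_contra hS
      exact hU (by simp [hW, hs, ind, hS])
    · intro hs
      rcases chi_eq (mix p.1 p.2 U) with h | h
      · exact absurd (by simp [hW, hs, h]) hU
      · exact h
  have huniv : SS m (hW Finset.univ) ≤ 2 ^ m * (B * (1 / 2) ^ j) := by
    have h1 := hind Finset.univ
    rw [h0, sub_zero] at h1
    have h2 := (le_abs_self _).trans h1
    simpa using h2
  have hlow : (1 / 2 : ℝ) ^ (2 ^ m) * SS m (fun _ => ind) ≤ SS m (hW Finset.univ) := by
    unfold SS
    rw [Finset.mul_sum]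
    refine Finset.sum_le_sum fun p _ => ?_
    have e : (1 / 2 : ℝ) ^ (2 ^ m) = ∏ _U : Fin m → Bool, (1 / 2 : ℝ) := by simp
    rw [e, ← Finset.prod_mul_distrib]
    refine Finset.prod_le_prod (fun U _ => mul_nonneg (by norm_num) (hind0 _)) fun U _ => ?_
    simp only [hW]
    split_ifs
    · linarith [hind0 (mix p.1 p.2 U)]
    · linarith [hind1 (mix p.1 p.2 U)]
  have hcardA : ((Fintype.card (Fin t → Bool) : ℕ) : ℝ) = 2 ^ t := by simp
  let U0 : Fin m → Bool := fun _ => false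
  have hg := gcs m (fun U z => if U = U0 then ind z else 1) (fun U z => by
    by_cases hU : U = U0
    · simp only [hU, if_true]; rw [abs_of_nonneg (hind0 z)]; exact hind1 z
    · simp [hU]) U0
  have hSSg : SS m (fun U z => if U = U0 then ind z else 1) = S.card * ((2 : ℝ) ^ t) ^ m := by
    unfold SS
    have : ∀ p : (Fin m → Fin t → Bool) × (Fin m → Fin t → Bool),
        (∏ U : Fin m → Bool, if U = U0 then ind (mix p.1 p.2 U) else 1) = ind p.1 := by
      intro p
      rw [Finset.prod_ite_eq' Finset.univ U0 (fun U => ind (mix p.1 p.2 U)),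
        if_pos (Finset.mem_univ _)]
      congr 1
    rw [Finset.sum_congr rfl fun p _ => this p, Fintype.sum_prod_type]
    simp only [Finset.sum_const, Finset.card_univ, Fintype.card_fun, nsmul_eq_mul]
    rw [← Finset.mul_sum]
    have h1 : ∑ z, ind z = S.card := by
      simp [ind]
    rw [h1, mul_comm]
    congr 1
    simp
  rw [hSSg, hcardA] at hg
  have hg' : (S.card * ((2 : ℝ) ^ t) ^ m) ^ (2 ^ m) * B ≤ B ^ (2 ^ m) * SS m fun _ => ind := by
    have : (fun _ : Fin m → Bool => fun z => if U0 = U0 then ind z else 1) =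
        (fun _ : Fin m → Bool => ind) := by
      funext U z; simp
    rw [this] at hg
    exact hg
  have hind2 : SS m (fun _ => ind) ≤ 2 ^ (2 ^ m) * (2 ^ m * (B * (1 / 2) ^ j)) := by
    have h1 := hlow.trans huniv
    have h2 : (2 : ℝ) ^ (2 ^ m) * (1 / 2) ^ (2 ^ m) = 1 := by
      rw [← mul_pow]; norm_num
    calc SS m (fun _ => ind) = 2 ^ (2 ^ m) * ((1 / 2 : ℝ) ^ (2 ^ m) * SS m (fun _ => ind)) := by
          rw [← mul_assoc, h2, one_mul]
      _ ≤ 2 ^ (2 ^ m) * (2 ^ m * (B * (1 / 2) ^ j)) := mul_le_mul_of_nonneg_left h1 (by positivity)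
  have hjj : (2 : ℝ) ^ (2 ^ m) * (2 ^ m * (1 / 2) ^ j) = ((1 / 2) ^ (κ + 1)) ^ (2 ^ m) := by
    rw [hj, pow_add, pow_add]
    have h2 : (2 : ℝ) ^ (2 ^ m) * (1 / 2) ^ (2 ^ m) = 1 := by
      rw [← mul_pow]; norm_num
    have h3 : (2 : ℝ) ^ m * (1 / 2) ^ m = 1 := by
      rw [← mul_pow]; norm_num
    calc (2 : ℝ) ^ (2 ^ m) * (2 ^ m * ((1 / 2) ^ (2 ^ m * (κ + 1)) * (1 / 2) ^ (2 ^ m) * (1 / 2) ^ m))
        = (2 ^ (2 ^ m) * (1 / 2) ^ (2 ^ m)) * (2 ^ m * (1 / 2) ^ m) *
          (1 / 2) ^ (2 ^ m * (κ + 1)) := by ring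
      _ = ((1 / 2) ^ (κ + 1)) ^ (2 ^ m) := by
          rw [h2, h3, ← pow_mul, mul_comm (κ + 1)]; ring
  have hfin : (S.card * ((2 : ℝ) ^ t) ^ m) ^ (2 ^ m) ≤ (B * (1 / 2) ^ (κ + 1)) ^ (2 ^ m) := by
    have h1 : (S.card * ((2 : ℝ) ^ t) ^ m) ^ (2 ^ m) * B ≤
        (B * (1 / 2) ^ (κ + 1)) ^ (2 ^ m) * B := by
      refine hg'.trans ?_
      calc B ^ (2 ^ m) * SS m (fun _ => ind)
          ≤ B ^ (2 ^ m) * (2 ^ (2 ^ m) * (2 ^ m * (B * (1 / 2) ^ j))) :=
            mul_le_mul_of_nonneg_left hind2 (by positivity)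
        _ = B ^ (2 ^ m) * (2 ^ (2 ^ m) * (2 ^ m * (1 / 2) ^ j)) * B := by ring
        _ = (B * (1 / 2) ^ (κ + 1)) ^ (2 ^ m) * B := by rw [hjj, mul_pow]
    exact le_of_mul_le_mul_right h1 hBpos
  have hfin2 := (pow_le_pow_iff_left₀ (by positivity) (by positivity) (by positivity)).1 hfin
  have hB2 : B = ((2 : ℝ) ^ t) ^ m * ((2 : ℝ) ^ t) ^ m := by
    rw [hB, two_mul, pow_add]
  have hApos : 0 < ((2 : ℝ) ^ t) ^ m := by positivity
  have h5 : (S.card : ℝ) * ((2 : ℝ) ^ t) ^ m ≤
      (((2 : ℝ) ^ t) ^ m * (1 / 2) ^ (κ + 1)) * ((2 : ℝ) ^ t) ^ m := by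
    refine hfin2.trans (le_of_eq ?_)
    rw [hB2]; ring
  exact le_of_mul_le_mul_right h5 hApos

/-- at least half of the points have sign `1` -/
theorem half_le (D t : ℕ) : ((2 : ℝ) ^ t) ^ (D + 1) * (1 / 2) ≤
    ((Finset.univ.filter fun z : Fin (D + 1) → Fin t → Bool => chi z = 1).card : ℝ) := by
  classical
  have h1 : 0 ≤ ∑ z : Fin (D + 1) → Fin t → Bool, chi z := by
    rw [sum_chi]
    apply pow_nonneg
    have : (1 : ℝ) ≤ 2 ^ D := one_le_pow₀ (by norm_num)
    rw [pow_succ]; linarith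
  have h2 : ∀ z : Fin (D + 1) → Fin t → Bool, chi z = 2 * (if chi z = 1 then 1 else 0) - 1 := by
    intro z
    rcases chi_eq z with h | h <;> rw [h] <;> norm_num
  rw [Finset.sum_congr rfl fun z _ => h2 z, Finset.sum_sub_distrib, ← Finset.mul_sum,
    Finset.sum_boole] at h1
  have h3 : ∑ _z : Fin (D + 1) → Fin t → Bool, (1 : ℝ) = ((2 : ℝ) ^ t) ^ (D + 1) := by
    simp
  rw [h3] at h1
  linarith

end Box

end Pool.Agent.SprF
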