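import Pool.Agent.SprF.Main

/-!
# Local families of levels and layouts (MP_3a0658_ag)   (helper21)

A family of level systems, indexed by a parameter `G`, whose level `t` is obtained from a fixed pair
of labels by a relabelling `τ G t`; the permutations `v`, `w` of the layouts do not depend on `G`.
-/

set_option autoImplicit false

namespace Pool.Agent.SprF

open Pool.Agent.SprJ hiding S_Lay S_Tr S_An S_Cur S_Pts Lay_ex

section Rel

variable {I C : Type}

/-- relabelling of the labels -/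
def rl (σa σc σd : Equiv.Perm I) (ρ : Equiv.Perm C) : Equiv.Perm (Lb I C) where
  toFun
    | .a i => .a (σa i)
    | .c x => .c (ρ x)
    | .c' i => .c' (σc i)
    | .d i => .d (σd i)
  invFun
    | .a i => .a (σa.symm i)
    | .c x => .c (ρ.symm x)
    | .c' i => .c' (σc.symm i)
    | .d i => .d (σd.symm i)
  left_inv q := by cases q <;> simp
  right_inv q := by cases q <;> simp

@[simp] lemma rl_a (σa σc σd : Equiv.Perm I) (ρ : Equiv.Perm C) (i : I) :
    rl σa σc σd ρ (.a i) = .a (σa i) := rfl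
@[simp] lemma rl_c (σa σc σd : Equiv.Perm I) (ρ : Equiv.Perm C) (x : C) :
    rl σa σc σd ρ (.c x) = .c (ρ x) := rfl
@[simp] lemma rl_c' (σa σc σd : Equiv.Perm I) (ρ : Equiv.Perm C) (i : I) :
    rl σa σc σd ρ (.c' i) = .c' (σc i) := rfl
@[simp] lemma rl_d (σa σc σd : Equiv.Perm I) (ρ : Equiv.Perm C) (i : I) :
    rl σa σc σd ρ (.d i) = .d (σd i) := rfl

/-- compatible relabellings: the kinds are preserved, and the relabelling commutes with the
involution of the level -/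
structure Compat (b : Bool) (τ : Equiv.Perm (Lb I C)) : Prop where
  piv' : ∀ q, piv b (τ q) ↔ piv b q
  sg' : ∀ q, sg b (τ q) = τ (sg b q)
  kc : ∀ q j, τ q = .c' j → ∃ i, q = .c' i
  kc2 : ∀ i, ∃ j, τ (.c' i) = .c' j
  kd : ∀ q j, τ q = .d j → ∃ i, q = .d i
  kd2 : ∀ i, ∃ j, τ (.d i) = .d j

lemma compat_one (b : Bool) : Compat b (1 : Equiv.Perm (Lb I C)) where
  piv' _ := Iff.rfl
  sg' _ := rfl
  kc _ j h := ⟨j, h⟩
  kc2 i := ⟨i, rfl⟩
  kd _ j h := ⟨j, h⟩
  kd2 i := ⟨i, rfl⟩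

lemma compat_rl (b : Bool) (σa σc σd : Equiv.Perm I) (ρ : Equiv.Perm C)
    (h2 : b = true → σc = σd) (h1 : b = false → σa = σd) : Compat b (rl σa σc σd ρ) where
  piv' q := by cases b <;> cases q <;> simp [piv]
  sg' q := by
    cases b
    · have := h1 rfl
      subst this
      cases q <;> simp [sg]
    · have := h2 rfl
      subst this
      cases q <;> simp [sg]
  kc q j h := by cases q <;> simp at h; exact ⟨_, rfl⟩
  kc2 i := ⟨_, rfl⟩
  kd q j h := by cases q <;> simp at h; exact ⟨_, rfl⟩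
  kd2 i := ⟨_, rfl⟩

end Rel

section LocLay

variable {I C : Type} {m₂ m₁ n : ℕ}

/-- relabelling of the labels of the basis vectors, level by level -/
def Tl {m : ℕ} (τ : Fin m → Equiv.Perm (Lb I C)) : Lab m I C ≃ Lab m I C where
  toFun l := (l.1, τ l.1 l.2)
  invFun l := (l.1, (τ l.1).symm l.2)
  left_inv l := by simp
  right_inv l := by simp

@[simp] lemma Tl_apply {m : ℕ} (τ : Fin m → Equiv.Perm (Lb I C)) (l : Lab m I C) :
    Tl τ l = (l.1, τ l.1 l.2) := rfl

@[simp] lemma Tl_symm_apply {m : ℕ} (τ : Fin m → Equiv.Perm (Lb I C)) (l : Lab m I C) :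
    (Tl τ).symm l = (l.1, (τ l.1).symm l.2) := rfl

variable {sY' sZ' : I → C → Prop} {Sg' : I → I → Prop} {V0 : LevF sY' sZ' Sg' m₂ m₁}
  {sY sZ : I → C → Prop} {Sg : I → I → Prop}

/-- transport of a layout along relabellings -/
def locLay (L0 : LayF V0 n) (V : LevF sY sZ Sg m₂ m₁) (τ : Fin (m₂ + m₁) → Equiv.Perm (Lb I C))
    (hτ : ∀ t, Compat (ty m₂ t) (τ t)) (hh : ∀ t q, V.h t (τ t q) = V0.h t q) : LayF V n where
  idx := (Tl τ).symm.trans L0.idx
  pos := (Tl τ).symm.trans L0.pos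
  i1 t t' q q' h := L0.i1 _ _ _ _ h
  i2 t q q' h := by
    show L0.idx (t, (τ t).symm q) < L0.idx (t, (τ t).symm q')
    apply L0.i2
    rw [← hh, ← hh, Equiv.apply_symm_apply, Equiv.apply_symm_apply]
    exact h
  p1 l l' h h' := by
    show L0.pos (l.1, (τ l.1).symm l.2) < L0.pos (l'.1, (τ l'.1).symm l'.2)
    apply L0.p1
    · show piv _ _
      rw [← (hτ l.1).piv', Equiv.apply_symm_apply]; exact h
    · show ¬ piv _ _
      rw [← (hτ l'.1).piv', Equiv.apply_symm_apply]; exact h'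
  p2 l l' h h' := by
    show L0.pos (l.1, (τ l.1).symm l.2) < L0.pos (l'.1, (τ l'.1).symm l'.2)
    refine L0.p2 (l.1, (τ l.1).symm l.2) (l'.1, (τ l'.1).symm l'.2) ?_ h'
    show piv _ _ ↔ piv _ _
    rw [← (hτ l.1).piv', Equiv.apply_symm_apply, ← (hτ l'.1).piv', Equiv.apply_symm_apply]
    exact h
  p3 t i q ht hq := by
    show L0.pos (t, (τ t).symm (.c' i)) < L0.pos (t, (τ t).symm q)
    obtain ⟨j, hj⟩ := (hτ t).kc ((τ t).symm (.c' i)) i (by simp)
    rw [hj]
    apply L0.p3 t j _ ht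
    intro j' h
    obtain ⟨j'', h''⟩ := (hτ t).kc2 j'
    rw [← h, Equiv.apply_symm_apply] at h''
    exact hq _ h''
  p4 t i q ht hq := by
    show L0.pos (t, (τ t).symm q) < L0.pos (t, (τ t).symm (.d i))
    obtain ⟨j, hj⟩ := (hτ t).kd ((τ t).symm (.d i)) i (by simp)
    rw [hj]
    apply L0.p4 t j _ ht
    intro j' h
    obtain ⟨j'', h''⟩ := (hτ t).kd2 j'
    rw [← h, Equiv.apply_symm_apply] at h''
    exact hq _ h''

variable (L0 : LayF V0 n) (V : LevF sY sZ Sg m₂ m₁) (τ : Fin (m₂ + m₁) → Equiv.Perm (Lb I C))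
    (hτ : ∀ t, Compat (ty m₂ t) (τ t)) (hh : ∀ t q, V.h t (τ t q) = V0.h t q)

lemma locLay_w : (locLay L0 V τ hτ hh).w = L0.w := by
  ext k
  simp [LayF.w, locLay]

lemma locLay_v : (locLay L0 V τ hτ hh).v = L0.v := by
  ext k
  have h : ∀ l : Lab (m₂ + m₁) I C, (Tl τ).symm (Lay.sigE m₂ (m₂ + m₁) I C (Tl τ l)) =
      Lay.sigE m₂ (m₂ + m₁) I C l := by
    intro l
    show (l.1, (τ l.1).symm (sg (ty m₂ l.1) (τ l.1 l.2))) = (l.1, sg (ty m₂ l.1) l.2)
    rw [(hτ l.1).sg', Equiv.symm_apply_apply]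
  show ((L0.idx ((Tl τ).symm (Lay.sigE m₂ (m₂ + m₁) I C (((Tl τ).symm.trans L0.pos).symm k))) :
    Fin n) : ℕ) = _
  rw [Equiv.symm_trans_apply, Equiv.symm_symm, h]
  rfl

lemma locLay_eps_symm {r : ℕ} (tb : Lb I C ≃ Fin r) (i : Fin n) :
    ((locLay L0 V τ hτ hh).eps tb).symm i =
      ((L0.idx.symm i).1, tb (τ (L0.idx.symm i).1 (L0.idx.symm i).2)) := by
  simp [LayF.eps, locLay]

end LocLay

end Pool.Agent.SprF
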