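import Pool.Agent.SprF.LocMain

/-!
# Linear inequalities in the entries of `X` (MP_3a0658_ag)   (helper21)

Every system of linear inequalities in the entries of `X` which decides whether `vB` is in the closure,
for fixed `v`, `w` and all `X` in Jordan form with blocks of size four, is exponentially large.
-/

set_option autoImplicit false

namespace Pool.Agent.SprF

open Pool.Agent.SprJ hiding S_Lay S_Tr S_An S_Cur S_Pts Lay_ex

section Parity

/-- parity of the first `n` bits: `true` if even -/
def par (b : ℕ → Bool) : ℕ → Bool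
  | 0 => true
  | n + 1 => if b n then !(par b n) else par b n

lemma par_congr {b b' : ℕ → Bool} (n : ℕ) (h : ∀ i < n, b i = b' i) : par b n = par b' n := by
  induction n with
  | zero => rfl
  | succ n ih =>
    simp only [par]
    rw [ih fun i hi => h i (by omega), h n (by omega)]

lemma par_update {b : ℕ → Bool} {i n : ℕ} {x : Bool} (hi : i < n) (hx : x ≠ b i) :
    par (Function.update b i x) n = !(par b n) := by
  induction n with
  | zero => omega
  | succ n ih =>
    simp only [par]
    rcases Nat.lt_succ_iff_lt_or_eq.1 hi with h | h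
    · rw [ih h, Function.update_of_ne (by omega)]
      by_cases hb : b n <;> simp [hb]
    · subst h
      rw [Function.update_self, par_congr (b' := b) i fun j hj => Function.update_of_ne (by omega) _ _]
      cases x <;> cases hb : b i <;> simp_all

/-- the parity gate system: `x_0 = 1`, `x_{i+1} = x_i` or `x_i + x_{i+1} = 1`, `x_κ = 1` -/
def parG (κ : ℕ) (b : ℕ → Bool) : Gt (κ + 1) (κ + 1) := fun g =>
  if h : (g : ℕ) < κ then
    if b g then (false, ⟨g, by omega⟩, ⟨(g : ℕ) + 1, by omega⟩, ⟨0, by omega⟩)
    else (true, ⟨g, by omega⟩, ⟨0, by omega⟩, ⟨(g : ℕ) + 1, by omega⟩)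
  else (true, ⟨κ, by omega⟩, ⟨0, by omega⟩, ⟨0, by omega⟩)

lemma parG_congr {κ : ℕ} {b b' : ℕ → Bool} (g : Fin (κ + 1)) (h : b g = b' g) :
    parG κ b g = parG κ b' g := by
  unfold parG
  rw [h]

theorem parG_sol (κ : ℕ) (b : ℕ → Bool) (K : Type) [Field K] :
    GSol K (parG κ b) ⟨0, by omega⟩ ↔ par b κ = true := by
  constructor
  · rintro ⟨x, h0, hg⟩
    have key : ∀ i (hi : i < κ + 1), x ⟨i, hi⟩ = if par b i then 1 else 0 := by
      intro i
      induction i with
      | zero => intro hi; simpa [par] using h0
      | succ i ih =>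
        intro hi
        have h1 := hg ⟨i, by omega⟩
        have h2 := ih (by omega)
        have h3 : i < κ := by omega
        simp only [parG, h3, dite_true] at h1
        by_cases hb : b i
        · simp only [hb, if_true, Bool.false_eq_true, if_false] at h1
          rw [h0, h2] at h1
          have : x ⟨i + 1, hi⟩ = 1 - (if par b i then 1 else 0) := by
            linear_combination h1
          rw [this]
          by_cases hp : par b i <;> simp [par, hb, hp]
        · simp only [hb, Bool.false_eq_true, if_false, if_true] at h1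
          rw [h0, h2, mul_one] at h1
          rw [← h1]
          simp [par, hb]
    have h1 := hg ⟨κ, by omega⟩
    simp only [parG, lt_irrefl, dite_false, if_true] at h1
    rw [h0, mul_one, key κ (by omega)] at h1
    by_contra h
    rw [if_neg h] at h1
    exact zero_ne_one h1
  · intro hp
    refine ⟨fun i => if par b i then 1 else 0, by simp [par], ?_⟩
    intro g
    by_cases hgk : (g : ℕ) < κ
    · simp only [parG, hgk, dite_true]
      by_cases hb : b g
      · by_cases hp : par b g <;> simp [hb, hp, par]
      · by_cases hp : par b g <;> simp [hb, hp, par]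
    · simp [parG, hgk, hp, par]

/-- odd extension of `k` bits to `k + 1` bits -/
def oddExt {k : ℕ} (a : Fin k → Bool) : ℕ → Bool := fun i =>
  if h : i < k then a ⟨i, h⟩ else par (fun i => if h : i < k then a ⟨i, h⟩ else false) k

lemma par_oddExt {k : ℕ} (a : Fin k → Bool) : par (oddExt a) (k + 1) = false := by
  have h1 : par (oddExt a) k = par (fun i => if h : i < k then a ⟨i, h⟩ else false) k := by
    apply par_congr
    intro i hi
    simp [oddExt, hi]
  have h2 : oddExt a k = par (fun i => if h : i < k then a ⟨i, h⟩ else false) k := by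
    simp [oddExt]
  show (if oddExt a k then !(par (oddExt a) k) else par (oddExt a) k) = false
  rw [h1, h2]
  by_cases h : par (fun i => if h : i < k then a ⟨i, h⟩ else false) k <;> simp [h]

end Parity

/-- **systems of linear inequalities which decide the closure relation are large** -/
theorem linMain (k : ℕ) :
    ∃ (n r : ℕ) (v w : Equiv.Perm (Fin n)), n ≤ 28000 * (k + 3) ^ 2 ∧
      ∀ (K : Type) [Field K] [Infinite K] (s : ℕ) (c : Fin s → ℝ)
        (A : Fin s → Matrix (Fin n) (Fin n) ℝ),
        (∀ ε : Fin 4 × Fin r ≃ Fin n, (∀ i j, j ≤ i → jordan K ε i j = 0) →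
          InSpringer (jordan K ε) (perm K v) → InSpringer (jordan K ε) (perm K w) →
          (InClosure (jordan K ε) v w ↔ ∀ l, 0 ≤ c l + ∑ i, ∑ j, A l i j * jordan ℝ ε i j)) →
        2 ^ k ≤ s := by
  classical
  obtain ⟨n, r, v, w, ε, hn, -, hloc, hmain⟩ := locMain (k + 1 + 1) (k + 1 + 1) ⟨0, by omega⟩
  refine ⟨n, r, v, w, ?_, ?_⟩
  · refine hn.trans ?_
    have h1 : k + 1 + 1 + (k + 1 + 1) + 1 ≤ 2 * (k + 3) := by omega
    calc 7000 * (k + 1 + 1 + (k + 1 + 1) + 1) ^ 2 ≤ 7000 * (2 * (k + 3)) ^ 2 :=
          Nat.mul_le_mul_left _ (Nat.pow_le_pow_left h1 2)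
      _ = 28000 * (k + 3) ^ 2 := by ring
  · intro K _ _ s c A hcrit
    let F : (ℕ → Bool) → Fin s → ℝ := fun b l =>
      c l + ∑ i, ∑ j, A l i j * jordan ℝ (ε (parG (k + 1) b)) i j
    have hF : ∀ b, par b (k + 1) = true ↔ ∀ l, 0 ≤ F b l := by
      intro b
      obtain ⟨h1, h2, h3, h4⟩ := hmain (parG (k + 1) b) K
      rw [← parG_sol (k + 1) b K, ← h4]
      exact hcrit _ h1 h2 h3
    have hodd : ∀ a : Fin k → Bool, ∃ l, F (oddExt a) l < 0 := by
      intro a
      by_contra h
      push Not at h
      have h1 := (hF (oddExt a)).2 h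
      rw [par_oddExt] at h1
      exact Bool.false_ne_true h1
    choose f hf using hodd
    have hinj : Function.Injective f := by
      intro a a' haa
      by_contra hne
      obtain ⟨i, hi⟩ := Function.ne_iff.1 hne
      have hbi : oddExt a (i : ℕ) ≠ oddExt a' (i : ℕ) := by simpa [oddExt] using hi
      set b := oddExt a with hb
      set b' := oddExt a' with hb'
      let d := Function.update b (i : ℕ) (b' i)
      let d' := Function.update b' (i : ℕ) (b i)
      have hd : par d (k + 1) = true := by
        rw [par_update (by omega) hbi.symm, par_oddExt]; rfl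
      have hd' : par d' (k + 1) = true := by
        rw [par_update (by omega) hbi, par_oddExt]; rfl
      have h1 := (hF d).1 hd (f a)
      have h2 := (hF d').1 hd' (f a)
      have h3 : F b (f a) < 0 := hf a
      have h4 : F b' (f a) < 0 := by rw [haa]; exact hf a'
      have hsum : F b (f a) + F b' (f a) = F d (f a) + F d' (f a) := by
        have he : ∀ i0 j0, jordan ℝ (ε (parG (k + 1) b)) i0 j0 +
            jordan ℝ (ε (parG (k + 1) b')) i0 j0 = jordan ℝ (ε (parG (k + 1) d)) i0 j0 +
            jordan ℝ (ε (parG (k + 1) d')) i0 j0 := by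
          intro i0 j0
          obtain ⟨T, hT, hg⟩ := hloc i0 j0
          by_cases hgi : ∃ g ∈ T, (g : ℕ) = i
          · obtain ⟨g0, hg0, hgi⟩ := hgi
            have hall : ∀ g ∈ T, (g : ℕ) = i := fun g hgT => by
              rw [Finset.card_le_one.1 hT g hgT g0 hg0, hgi]
            rw [hg (parG (k + 1) b) (parG (k + 1) d') (fun g hgT => parG_congr g ?_) ℝ,
              hg (parG (k + 1) b') (parG (k + 1) d) (fun g hgT => parG_congr g ?_) ℝ, add_comm]
            · rw [hall g hgT]; simp [d]
            · rw [hall g hgT]; simp [d']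
          · push Not at hgi
            rw [hg (parG (k + 1) b) (parG (k + 1) d) (fun g hgT => parG_congr g ?_) ℝ,
              hg (parG (k + 1) b') (parG (k + 1) d') (fun g hgT => parG_congr g ?_) ℝ]
            · simp [d', Function.update_of_ne (hgi g hgT)]
            · simp [d, Function.update_of_ne (hgi g hgT)]
        have h5 : ∑ i0, ∑ j0, A (f a) i0 j0 * jordan ℝ (ε (parG (k + 1) b)) i0 j0 +
            ∑ i0, ∑ j0, A (f a) i0 j0 * jordan ℝ (ε (parG (k + 1) b')) i0 j0 =
            ∑ i0, ∑ j0, A (f a) i0 j0 * jordan ℝ (ε (parG (k + 1) d)) i0 j0 +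
            ∑ i0, ∑ j0, A (f a) i0 j0 * jordan ℝ (ε (parG (k + 1) d')) i0 j0 := by
          rw [← Finset.sum_add_distrib, ← Finset.sum_add_distrib]
          refine Finset.sum_congr rfl fun i0 _ => ?_
          rw [← Finset.sum_add_distrib, ← Finset.sum_add_distrib]
          refine Finset.sum_congr rfl fun j0 _ => ?_
          rw [← mul_add, ← mul_add, he]
        simp only [F]
        linarith
      linarith
    have := Fintype.card_le_of_injective f hinj
    simpa using this

end Pool.Agent.SprF
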