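import Pool.Agent.SprF.Defs

/-!
# Module Tr: from the closure on `Fin n` to matrices on labels
-/

set_option autoImplicit false

open Matrix

namespace Pool.Agent.SprF

open Pool.Agent.SprJ hiding S_Lay S_Tr S_An S_Cur S_Pts

namespace TrAux

section field

variable {K : Type} [Field K] {n : ℕ}

lemma diag_ne_zero_of_borel {b : Matrix (Fin n) (Fin n) K} (h : Borel b) (i : Fin n) :
    b i i ≠ 0 := by
  have hbt : Matrix.BlockTriangular b id := fun i j hij => h.1 i j hij
  have h1 : b.det = ∏ i, b i i := Matrix.det_of_isUpperTriangular hbt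
  have h2 := h.2
  rw [h1, isUnit_iff_ne_zero] at h2
  exact Finset.prod_ne_zero_iff.1 h2 i (Finset.mem_univ i)

lemma UT_mul {a b : Matrix (Fin n) (Fin n) K} (ha : UT a) (hb : UT b) : UT (a * b) := by
  have ha' : Matrix.BlockTriangular a id := fun i j hij => ha i j hij
  have hb' : Matrix.BlockTriangular b id := fun i j hij => hb i j hij
  exact fun i j hij => (ha'.mul hb') hij

lemma UT_inv {b : Matrix (Fin n) (Fin n) K} (h : Borel b) : UT b⁻¹ := by
  have : Invertible b := b.invertibleOfIsUnitDet h.2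
  have hb' : Matrix.BlockTriangular b id := fun i j hij => h.1 i j hij
  intro i j hij
  exact (Matrix.blockTriangular_inv_of_blockTriangular hb') hij

lemma det_perm_isUnit (w : Equiv.Perm (Fin n)) : IsUnit (perm K w).det := by
  have : perm K w = (w.symm.toPEquiv.toMatrix : Matrix (Fin n) (Fin n) K) := by
    ext i k
    simp only [perm, Matrix.of_apply, PEquiv.toMatrix_apply, Equiv.toPEquiv_apply,
      Option.mem_def, Option.some.injEq]
    congr 1
    rw [eq_iff_iff]
    constructor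
    · rintro rfl; simp
    · rintro h; rw [← h]; simp
  rw [this, Matrix.det_permutation]
  exact (Units.isUnit _).map (Int.castRingHom K)

end field

variable {I C : Type} {sY sZ : I → C → Prop} {Sg : I → I → Prop} {m₂ m₁ : ℕ}
  {V : LevF sY sZ Sg m₂ m₁} {n : ℕ}

lemma perm_w_eq (K : Type) [Field K] [DecidableEq I] [DecidableEq C] (L : LayF V n) :
    perm K L.w = (1 : Matrix (Lab (m₂ + m₁) I C) (Lab (m₂ + m₁) I C) K).submatrix
      L.idx.symm L.pos.symm := by
  ext i k
  simp only [perm, Matrix.of_apply, Matrix.submatrix_apply, Matrix.one_apply, LayF.w,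
    Equiv.trans_apply]
  congr 1
  rw [eq_iff_iff, Equiv.symm_apply_eq]

lemma jordan_eq (K : Type) [Field K] [DecidableEq I] [DecidableEq C] (L : LayF V n) {r : ℕ}
    (tb : Lb I C ≃ Fin r) :
    jordan K (L.eps tb) = (XL K (m₂ + m₁) I C).submatrix L.idx.symm L.idx.symm := by
  ext i j
  have e : ∀ i : Fin n, (L.eps tb).symm i = ((L.idx.symm i).1, tb (L.idx.symm i).2) := by
    intro i
    rw [Equiv.symm_apply_eq]
    simp [LayF.eps]
  simp only [jordan, Matrix.of_apply, Matrix.submatrix_apply, XL, e, EmbeddingLike.apply_eq_iff_eq]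

variable [Fintype I] [Fintype C] [DecidableEq I] [DecidableEq C]

lemma label_of_cell {K : Type} [Field K] (L : LayF V n)
    {X : Matrix (Lab (m₂ + m₁) I C) (Lab (m₂ + m₁) I C) K}
    {g : Matrix (Fin n) (Fin n) K} (hg : g ∈ Cell (X.submatrix L.idx.symm L.idx.symm) L.w) :
    ∃ U Z B : Matrix (Lab (m₂ + m₁) I C) (Lab (m₂ + m₁) I C) K,
      (∀ a k, L.idx k < L.idx a → U a k = 0) ∧ (∀ k, U k k ≠ 0) ∧
      (∀ l k, L.pos k < L.pos l → Z l k = 0) ∧ (∀ l k, L.pos k < L.pos l → B l k = 0) ∧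
      X * U = U * Z ∧ g.submatrix L.idx L.pos = U * B := by
  obtain ⟨⟨b, b', hb, hb', hfac⟩, hS⟩ := hg
  set XF := X.submatrix L.idx.symm L.idx.symm with hXF
  have hdet : IsUnit g.det := by
    rw [hfac, Matrix.det_mul, Matrix.det_mul]
    exact (hb.2.mul (det_perm_isUnit _)).mul hb'.2
  set Y := g⁻¹ * XF * g with hY
  have hXg : XF * g = g * Y := by
    rw [hY, ← Matrix.mul_assoc, ← Matrix.mul_assoc, Matrix.mul_nonsing_inv _ hdet, Matrix.one_mul]
  set D := b * perm K L.w with hD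
  have hXD : XF * D = D * (b' * Y * b'⁻¹) := by
    have h1 : XF * (D * b') = D * b' * Y := by rw [← hfac]; exact hXg
    calc XF * D = XF * (D * b') * b'⁻¹ := by
          rw [Matrix.mul_assoc, Matrix.mul_assoc, Matrix.mul_nonsing_inv _ hb'.2, Matrix.mul_one]
      _ = D * (b' * Y * b'⁻¹) := by rw [h1]; simp only [Matrix.mul_assoc]
  have hZUT : UT (b' * Y * b'⁻¹) := UT_mul (UT_mul hb'.1 hS) (UT_inv hb')
  have hDl : D.submatrix L.idx L.pos = b.submatrix L.idx L.idx := by
    rw [hD, perm_w_eq, ← Matrix.submatrix_mul_equiv b _ L.idx L.idx L.pos]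
    rw [Matrix.submatrix_submatrix]
    have : ((L.idx.symm : Fin n → Lab (m₂ + m₁) I C) ∘ L.idx) = id := by funext x; simp
    have h2 : ((L.pos.symm : Fin n → Lab (m₂ + m₁) I C) ∘ L.pos) = id := by funext x; simp
    rw [this, h2, Matrix.submatrix_id_id, Matrix.mul_one]
  have hXl : XF.submatrix L.idx L.idx = X := by
    rw [hXF, Matrix.submatrix_submatrix]
    have : ((L.idx.symm : Fin n → Lab (m₂ + m₁) I C) ∘ L.idx) = id := by funext x; simp
    rw [this, Matrix.submatrix_id_id]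
  refine ⟨b.submatrix L.idx L.idx, (b' * Y * b'⁻¹).submatrix L.pos L.pos,
    b'.submatrix L.pos L.pos, ?_, ?_, ?_, ?_, ?_, ?_⟩
  · intro a k h; exact hb.1 _ _ h
  · intro k; exact diag_ne_zero_of_borel hb _
  · intro l k h; exact hZUT _ _ h
  · intro l k h; exact hb'.1 _ _ h
  · rw [← hDl]
    conv_lhs => rw [← hXl]
    rw [Matrix.submatrix_mul_equiv, Matrix.submatrix_mul_equiv, hXD]
  · rw [← hDl, Matrix.submatrix_mul_equiv, hfac]

/-- the generic minor -/
noncomputable def minor (K : Type) [Field K] (L : LayF V n) (p : ℕ) :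
    MvPolynomial (Fin n × Fin n) K :=
  (Matrix.of fun a b : {k : Lab (m₂ + m₁) I C // ((L.pos k : Fin n) : ℕ) < p} =>
    (MvPolynomial.X (L.idx (sig m₂ a.1), L.pos b.1) : MvPolynomial (Fin n × Fin n) K)).det

lemma eval_minor {K : Type} [Field K] (L : LayF V n) (p : ℕ) (g : Matrix (Fin n) (Fin n) K) :
    MvPolynomial.eval (fun x => g x.1 x.2) (minor K L p) =
      (Matrix.of fun a b : {k : Lab (m₂ + m₁) I C // ((L.pos k : Fin n) : ℕ) < p} =>
        g (L.idx (sig m₂ a.1)) (L.pos b.1)).det := by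
  unfold minor
  rw [RingHom.map_det]
  congr 1
  ext a b
  simp

lemma minor_perm {K : Type} [Field K] (L : LayF V n) (p : ℕ) :
    (Matrix.of fun a b : {k : Lab (m₂ + m₁) I C // ((L.pos k : Fin n) : ℕ) < p} =>
        perm K L.v (L.idx (sig m₂ a.1)) (L.pos b.1)).det = 1 := by
  have : (Matrix.of fun a b : {k : Lab (m₂ + m₁) I C // ((L.pos k : Fin n) : ℕ) < p} =>
        perm K L.v (L.idx (sig m₂ a.1)) (L.pos b.1)) = 1 := by
    ext a b
    simp only [perm, Matrix.of_apply, LayF.v, Equiv.trans_apply, Equiv.symm_apply_apply,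
      Matrix.one_apply]
    congr 1
    rw [eq_iff_iff, EmbeddingLike.apply_eq_iff_eq]
    constructor
    · intro h
      have h2 := congrArg (sig m₂) h
      rw [sig_sig] at h2
      have h3 : sig m₂ ((Lay.sigE m₂ (m₂ + m₁) I C) b.1) = b.1 := sig_sig m₂ _
      rw [h3] at h2
      exact Subtype.ext h2
    · intro h; rw [h]; rfl
  rw [this, Matrix.det_one]

omit [DecidableEq I] [DecidableEq C] in
/-- the determinant of the product on an initial segment -/
lemma det_mul_seg {K : Type} [Field K] (L : LayF V n) (p : ℕ)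
    {U B : Matrix (Lab (m₂ + m₁) I C) (Lab (m₂ + m₁) I C) K}
    (hB : ∀ l k, L.pos k < L.pos l → B l k = 0) :
    (Matrix.of fun a b : {k : Lab (m₂ + m₁) I C // ((L.pos k : Fin n) : ℕ) < p} =>
        (U * B) (sig m₂ a.1) b.1) =
      (Matrix.of fun a b : {k : Lab (m₂ + m₁) I C // ((L.pos k : Fin n) : ℕ) < p} =>
        U (sig m₂ a.1) b.1) *
      (Matrix.of fun a b : {k : Lab (m₂ + m₁) I C // ((L.pos k : Fin n) : ℕ) < p} =>
        B a.1 b.1) := by
  ext a b
  have h1 : ∑ j : {k : Lab (m₂ + m₁) I C // ((L.pos k : Fin n) : ℕ) < p},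
      U (sig m₂ a.1) j.1 * B j.1 b.1 = ∑ k ∈ Finset.univ.filter
        (fun k : Lab (m₂ + m₁) I C => ((L.pos k : Fin n) : ℕ) < p), U (sig m₂ a.1) k * B k b.1 :=
    (Finset.sum_subtype _ (by simp) fun k => U (sig m₂ a.1) k * B k b.1).symm
  have h2 : ∑ k ∈ Finset.univ.filter
        (fun k : Lab (m₂ + m₁) I C => ((L.pos k : Fin n) : ℕ) < p), U (sig m₂ a.1) k * B k b.1
      = ∑ k, U (sig m₂ a.1) k * B k b.1 := by
    refine Finset.sum_subset (Finset.filter_subset _ _) fun k _ hk => ?_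
    have hk' : ¬ ((L.pos k : Fin n) : ℕ) < p := by simpa using hk
    have hb := b.2
    rw [hB k b.1 (by rw [Fin.lt_def]; omega), mul_zero]
  have h3 : (U * B) (sig m₂ a.1) b.1 = ∑ k, U (sig m₂ a.1) k * B k b.1 := Matrix.mul_apply
  rw [Matrix.mul_apply]
  exact h3.trans (h2.symm.trans h1.symm)

end TrAux

open TrAux in
/-- Module Tr -/
theorem Tr : S_Tr := by
  intro I C _ _ _ _ sY sZ Sg m₂ m₁ n r V L tb K _ hcl
  set P : MvPolynomial (Fin n × Fin n) K := ∏ p ∈ Finset.range (n + 1), minor K L p with hP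
  have h1 : ¬ ∀ g ∈ Cell (jordan K (L.eps tb)) L.w,
      MvPolynomial.eval (fun p => g p.1 p.2) P = 0 := by
    intro h
    have h2 := hcl P h
    rw [hP, map_prod, Finset.prod_eq_zero_iff] at h2
    obtain ⟨p, -, h3⟩ := h2
    rw [eval_minor, minor_perm] at h3
    exact one_ne_zero h3
  push Not at h1
  obtain ⟨g, hg, hgP⟩ := h1
  rw [jordan_eq] at hg
  obtain ⟨U, Z, B, hU, hUd, hZ, hB, hXU, hgU⟩ := label_of_cell L hg
  refine ⟨U, Z, hU, hUd, hZ, hXU, ?_⟩
  have key : ∀ p ≤ n, ((Matrix.of fun a b : {k : Lab (m₂ + m₁) I C // ((L.pos k : Fin n) : ℕ) < p} =>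
      U (sig m₂ a.1) b.1).det ≠ 0) := by
    intro p hp
    rw [hP, map_prod, Finset.prod_ne_zero_iff] at hgP
    have h2 := hgP p (Finset.mem_range.2 (by omega))
    rw [eval_minor] at h2
    have h3 : (Matrix.of fun a b : {k : Lab (m₂ + m₁) I C // ((L.pos k : Fin n) : ℕ) < p} =>
        g (L.idx (sig m₂ a.1)) (L.pos b.1)) =
        (Matrix.of fun a b : {k : Lab (m₂ + m₁) I C // ((L.pos k : Fin n) : ℕ) < p} =>
        (U * B) (sig m₂ a.1) b.1) := by
      rw [← hgU]; rfl
    rw [h3, det_mul_seg L p hB, Matrix.det_mul] at h2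
    exact left_ne_zero_of_mul h2
  intro p
  rcases le_total p n with hp | hp
  · exact key p hp
  · have h := key n le_rfl
    rw [← Matrix.det_submatrix_equiv_self (Equiv.subtypeEquivRight (p := fun k : Lab (m₂ + m₁) I C =>
      ((L.pos k : Fin n) : ℕ) < p) (q := fun k : Lab (m₂ + m₁) I C =>
      ((L.pos k : Fin n) : ℕ) < n) fun k => by
        have := (L.pos k).2; constructor <;> intro <;> omega)] at h
    exact h

end Pool.Agent.SprF
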