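import Pool.Agent.SprF.LayEx
import Pool.Agent.SprF.Tr
import Pool.Agent.SprF.An
import Pool.Agent.SprF.Pts
import Pool.Agent.SprF.Cur
import Pool.Agent.SprF.Four
import Pool.Agent.SprJ.GateQ

/-!
# Universality of Springer Schubert cells for nilpotent matrices with Jordan blocks of size four
(MP_3a0658_ag)   (helper8)
-/

set_option autoImplicit false

namespace Pool.Agent.SprF

open Pool.Agent.SprJ hiding S_Lay S_Tr S_An S_Cur S_Pts Lay_ex

lemma bound4 {A p q P c n : ℕ} (hA : 1 ≤ A) (hp : p ≤ 25 * A) (hq : q ≤ 3 * A) (hP : P = p + q)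
    (hc : c ≤ q + P * P) (hn : n = (2 + 2) * (3 * P + c)) : n ≤ 3500 * A ^ 2 := by
  have h1 : P ≤ 28 * A := by omega
  have h2 : P * P ≤ (28 * A) * (28 * A) := Nat.mul_le_mul h1 h1
  have h3 : A ≤ A * A := Nat.le_mul_of_pos_left A hA
  have h4 : (28 * A) * (28 * A) = 784 * (A * A) := by ring
  have h5 : A ^ 2 = A * A := by ring
  rw [h5, hn]
  omega

/-- **gate systems are closure problems for Jordan blocks of size four** -/
theorem gateMain4 (N M : ℕ) (gate : Fin M → Bool × Fin N × Fin N × Fin N) (one : Fin N) :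
    ∃ (n r : ℕ) (ε : Fin 4 × Fin r ≃ Fin n) (v w : Equiv.Perm (Fin n)),
      n ≤ 3500 * (N + M + 1) ^ 2 ∧ (w⁻¹ * v) ^ 2 = 1 ∧
      ∀ (K : Type) [Field K] [Infinite K],
        (∀ i j, j ≤ i → jordan K ε i j = 0) ∧
        InSpringer (jordan K ε) (perm K v) ∧ InSpringer (jordan K ε) (perm K w) ∧
        (InClosure (jordan K ε) v w ↔ GSol K gate one) := by
  classical
  obtain ⟨p, q, sY, sZ, Sg, hp0, hp, hq, hOS⟩ := OS N M gate one
  -- relations on `Fin (p + q)`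
  let e : Fin p ⊕ Fin q ≃ Fin (p + q) := finSumFinEquiv
  let S : Fin (p + q) → Fin (p + q) → Prop := fun i j => SgF sY sZ Sg (e.symm i) (e.symm j)
  let V := four S q
  have hcard : Fintype.card (Cp S q) ≤ q + (p + q) * (p + q) := by
    rw [Fintype.card_sum, Fintype.card_fin]
    refine Nat.add_le_add_left ((Fintype.card_subtype_le _).trans ?_) _
    rw [Fintype.card_prod, Fintype.card_fin]
  obtain ⟨L⟩ := Lay_ex (Fin (p + q)) (Cp S q) _ _ _ 2 2
    ((2 + 2) * (3 * (p + q) + Fintype.card (Cp S q))) V (by simp only [Fintype.card_fin])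
  let tb : Lb (Fin (p + q)) (Cp S q) ≃ Fin (Fintype.card (Lb (Fin (p + q)) (Cp S q))) :=
    Fintype.equivFin _
  refine ⟨_, _, L.eps tb, L.v, L.w, ?_, ?_, ?_⟩
  · exact bound4 (by omega) hp hq rfl hcard rfl
  · exact (Pts (Fin (p + q)) (Cp S q) _ _ _ 2 2 _ _ V L tb ℚ).1
  · intro K _ _
    obtain ⟨-, h1, h2, h3⟩ := Pts (Fin (p + q)) (Cp S q) _ _ _ 2 2 _ _ V L tb K
    refine ⟨h1, h2, h3, ?_⟩
    have key : OSol K (sYp S q) (sZp S q) (fun _ _ => True) ↔ GSol K gate one :=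
      (priv_iff S K).trans ((OSol_equiv (K := K) e (Equiv.refl (Fin q)) (fun _ _ => True)
        (fun _ _ => True) (SgF sY sZ Sg)).trans ((full_iff K sY sZ Sg).trans (hOS K)))
    rw [← key]
    constructor
    · intro h
      obtain ⟨U, Z, a1, a2, a3, a4, a5⟩ := Tr (Fin (p + q)) (Cp S q) _ _ _ 2 2 _ _ V L tb K h
      exact An (Fin (p + q)) (Cp S q) _ _ _ 2 2 _ V L K (by norm_num) (by norm_num) U Z
        a1 a2 a3 a4 a5
    · intro h
      exact Cur (Fin (p + q)) (Cp S q) _ _ _ 2 2 _ _ V L tb K h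

/-- **universality** -/
theorem main (a b : ℕ) (f : Fin b → MvPolynomial (Fin a) ℤ) :
    ∃ (n r : ℕ) (ε : Fin 4 × Fin r ≃ Fin n) (v w : Equiv.Perm (Fin n)),
      n ≤ 510000 * (1 + ∑ l, (1 + len (f l))) ^ 2 ∧ (w⁻¹ * v) ^ 2 = 1 ∧
      ∀ (K : Type) [Field K] [Infinite K],
        (∀ i j, j ≤ i → jordan K ε i j = 0) ∧
        InSpringer (jordan K ε) (perm K v) ∧ InSpringer (jordan K ε) (perm K w) ∧
        (InClosure (jordan K ε) v w ↔ ∃ x : Fin a → K, ∀ l, MvPolynomial.aeval x (f l) = 0) := by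
  obtain ⟨N, M, gate, one, hs, hg⟩ := GateQ a b f
  obtain ⟨n, r, ε, v, w, hn, hvw, h⟩ := gateMain4 N M gate one
  refine ⟨n, r, ε, v, w, ?_, hvw, fun K _ _ => ?_⟩
  · generalize 1 + ∑ l, (1 + len (f l)) = s at hs ⊢
    calc n ≤ 3500 * (N + M + 1) ^ 2 := hn
      _ ≤ 3500 * (12 * s) ^ 2 := Nat.mul_le_mul_left _ (Nat.pow_le_pow_left hs 2)
      _ = 504000 * s ^ 2 := by ring
      _ ≤ 510000 * s ^ 2 := Nat.mul_le_mul_right _ (by norm_num)
  · obtain ⟨h1, h2, h3, h4⟩ := h K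
    exact ⟨h1, h2, h3, h4.trans (hg K)⟩

end Pool.Agent.SprF
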