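import Pool.Agent.SprJ.Stmts

/-!
# Gate systems with switches (MP_3a0658_ag)   (helper8, after a remark of helper21)

Statement of the uniform version: the gates can be switched on and off independently by disjoint
transpositions of the basis vectors, with `v` and `w` fixed.
-/

set_option autoImplicit false

namespace Pool.Agent.SprF

open Pool.Agent.SprJ

/-- the product of the transpositions `(x l, y l)`, `l ∈ S` -/
def swaps {n M : ℕ} (x y : Fin M → Fin n) (S : Finset (Fin M)) : Equiv.Perm (Fin n) :=
  ((List.finRange M).map fun l => if l ∈ S then Equiv.swap (x l) (y l) else 1).prod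

/-- the gate system in which only the gates in `S` are active -/
def GSolA (K : Type*) [Field K] {N M : ℕ} (gate : Fin M → Bool × Fin N × Fin N × Fin N)
    (one : Fin N) (S : Finset (Fin M)) : Prop :=
  ∃ x : Fin N → K, x one = 1 ∧ ∀ g ∈ S,
    if (gate g).1 then x (gate g).2.1 * x (gate g).2.2.1 = x (gate g).2.2.2
    else x (gate g).2.1 + x (gate g).2.2.1 = x (gate g).2.2.2

/-- switchable gates: `v`, `w` and the base matrix are fixed, gate `l` is switched on by the
transposition `(x l, y l)` of basis vectors; the moved basis vectors all lie in level `2` of their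
Jordan blocks (so that the entries of the matrix are affine functions of the switches) -/
def S_Tog : Prop := ∀ (N M : ℕ) (gate : Fin M → Bool × Fin N × Fin N × Fin N) (one : Fin N),
  ∃ (n r : ℕ) (ε : Fin 4 × Fin r ≃ Fin n) (v w : Equiv.Perm (Fin n)) (x y : Fin M → Fin n),
    n ≤ 3600 * (N + M + 1) ^ 2 ∧ (w⁻¹ * v) ^ 2 = 1 ∧
    Function.Injective x ∧ Function.Injective y ∧ (∀ l l', x l ≠ y l') ∧
    (∀ l, (ε.symm (x l)).1 = 2 ∧ (ε.symm (y l)).1 = 2) ∧
    ∀ (S : Finset (Fin M)) (K : Type) [Field K] [Infinite K],
      (∀ i j, j ≤ i → jordan K (ε.trans (swaps x y S)) i j = 0) ∧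
      InSpringer (jordan K (ε.trans (swaps x y S))) (perm K v) ∧
      InSpringer (jordan K (ε.trans (swaps x y S))) (perm K w) ∧
      (InClosure (jordan K (ε.trans (swaps x y S))) v w ↔ GSolA K gate one S)

end Pool.Agent.SprF
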